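import Pool.Agent.Lib.MP_6e7c44_mp.MR.Defs
import Pool.Agent.Lib.MP_6e7c44_mp.ER.MT

/-! The checker of the steps, the links, the cone and the escape criterion. -/

set_option autoImplicit false

namespace Pool.Agent.Lib.MP_6e7c44_mp.ER

open LA hiding TM Rep Pt Raw mX mA mB

def c0 : ℕ := gs 2 8
def c1 : ℕ := Nat.shiftLeft (Nat.mul (gs 1 2) (gs 4 4)) 192
def c2 : ℕ := Nat.shiftLeft (Nat.mul (gs 1 4) (gs 8 2)) 576
def c3 : ℕ := Nat.shiftLeft (gs 1 8) 1344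
def rw6 : ℕ := Nat.shiftLeft (gs 40 6) 7680
def mX (T : ℕ) : ℕ := fm 71 T 1
def mA (T : ℕ) : ℕ := fm 63 T rw6
def mC : ℕ := fm 63 (gs 1 16) 1
def mB : ℕ := fm 31 (gs 1 10) 1
def m3 : ℕ := fm 100 (gs 1 16) 1
def m2 : ℕ := fm 100 (gs 1 16) 1
def mG : ℕ := fm 120 (gs 1 31) (gs 40 7)
def mE : ℕ := fm 120 1 (gs 40 7)
def t3 (s : ℕ) (p : TM) : TM := p.tr oS m3 s
def t2 (s : ℕ) (p : TM) : TM := p.tr oS m2 s
def tE (s : ℕ) (p : TM) : TM := p.tr oV mE s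
def p2 (n : ℕ) : ℕ := Nat.shiftLeft 1 n
def mx6 (f : I6 → ℕ) : ℕ := mx (mx (mx (f .i0) (f .i1)) (mx (f .i2) (f .i3))) (mx (f .i4) (f .i5))
def ad6 (f : I6 → TM) : TM := (((f .i0).add (f .i1)).add ((f .i2).add (f .i3))).add ((f .i4).add (f .i5))

/-- The masses `k`, `ν` with `64` binary places and the error `e`; `d` bounds `ν` with `20` places. -/
structure Bx where
  k : ℕ
  n : ℕ
  e : ℕ
  d : ℕ

namespace Bx
variable (x : Bx)
def cp : TM := ((TM.cst (p2 63)).add (.cst x.k)).err x.e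
def cm : TM := ((TM.cst (p2 63)).sub (.cst x.k)).err x.e
def nu : TM := (TM.cst x.n).err x.e
def ok : Bool := Nat.ble x.e x.n && (Nat.ble (Nat.add x.k x.e) (p2 63) &&
  (Nat.ble (Nat.add x.n x.e) (Nat.shiftLeft x.d 44) && Nat.ble (Nat.mul 2 x.d) (p2 20)))
end Bx

/-- The models from which the vector field is computed. -/
structure Cr where
  X : I6 → TM
  E : I6 → TM
  H : Bool → TM
  B : I6 → I6 → TM
  t : I6 → ℕ
  x : Bx

namespace Cr
variable (r : Cr)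
def Et (i : I6) : TM := (r.E i).add ((r.X i).up 19)
def qq : TM := (t3 60 (((r.X .i2).mul (r.X .i2)).add ((r.X .i3).mul (r.X .i3)))).add (.cst (p2 66))
def rho (j : Bool) : TM := cond j (r.qq.add ((r.X .i2).up 4)) (r.qq.sub ((r.X .i2).up 4))
def kk (j : Bool) : TM := t3 60 ((r.H j).mul (r.H j))
def eps (j : Bool) : ℕ := (((r.kk j).mul (r.rho j)).sub (.cst (p2 136))).bnd oS
def ht (j : Bool) : TM := (r.H j).err (dn (Nat.mul (Nat.mul 9 (r.eps j)) (r.H j).bd0) 140)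
def kt (j : Bool) : TM := (r.kk j).err (dn (Nat.mul (Nat.mul 17 (r.eps j)) (r.kk j).bd0) 140)
def aa (j : Bool) : TM := t3 64 ((r.kt j).mul (r.ht j))
def bb (j : Bool) : TM := t2 76 ((r.aa j).mul (r.kt j))
def ca (c : TM) (j : Bool) : TM := t3 64 (c.mul (r.aa j))
def cb (c : TM) (j : Bool) : TM := t2 64 (c.mul (r.bb j))
def as (c c' : TM) : TM := (r.ca c true).add (r.ca c' false)
def uu (c c' : TM) : TM := t2 64 (((r.cb c true).add (r.cb c' false)).mul (r.X .i3))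
def ii (c c' : TM) : TM := t2 56 (((r.as c c').up 56).sub (((r.uu c c').mul (r.X .i3)).smul 3))
def ri (c c' : TM) : TM := t2 57 ((((((r.uu c c').mul (r.X .i2)).up 1).add
  (((r.cb c true).sub (r.cb c' false)).mul (r.X .i3)))).smul 3)
/-- Minus the attraction with the weights `c`, `c'` to first order, 152 binary places. -/
def fre (c c' : TM) : TM :=
  ((((r.as c c').add (r.ii c c')).mul (r.E .i2)).add ((r.ri c c').mul (r.E .i3))).sub
    ((((r.as c c').mul (r.X .i2)).up 20).add (((r.ca c true).sub (r.ca c' false)).up 83))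
def fim (c c' : TM) : TM := ((r.ri c c').mul (r.E .i2)).sub
  (((r.ii c c').mul (r.E .i3)).add (((r.as c c').mul (r.X .i3)).up 20))
def xe (i j : I6) : TM := (r.X i).mul (r.Et j)
def li (i : I6) : TM := ((r.E i).add ((r.X i).up 20)).up 64

/-- The vector field at the centre plus its derivative applied to the error, 152 binary places. -/
def row : I6 → TM
  | .i0 => (((((r.xe .i0 .i0).add ((r.xe .i1 .i1).up 1)).up 4).add (r.x.nu.up 88)).sub
      (.cst (p2 152))).add (r.fre r.x.nu r.x.nu.neg)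
  | .i1 => (r.fim r.x.nu r.x.nu.neg).sub (((r.xe .i1 .i0).add (r.xe .i0 .i1)).up 3)
  | .i2 => ((((r.li .i4).add (r.xe .i1 .i3)).add (r.xe .i3 .i1)).sub
      ((r.xe .i0 .i2).add (r.xe .i2 .i0))).up 4
  | .i3 => ((r.li .i5).sub ((((r.xe .i0 .i3).add (r.xe .i1 .i2)).add (r.xe .i3 .i0)).add
      (r.xe .i2 .i1))).up 4
  | .i4 => ((((((r.xe .i0 .i4).add (r.xe .i4 .i0)).add
      (((r.xe .i1 .i5).add (r.xe .i5 .i1)).up 1)).up 3).add (r.x.cp.up 88)).sub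
      (.cst (p2 151))).add (r.fre r.x.cp r.x.cm)
  | .i5 => ((((r.xe .i0 .i5).add (r.xe .i5 .i0)).sub
      (((r.xe .i1 .i4).add (r.xe .i4 .i1)).up 1)).up 3).add (r.fim r.x.cp r.x.cm)

def eb (i : I6) : ℕ := (r.E i).bd0
def ee (i j : I6) : ℕ := Nat.mul (r.eb i) (r.eb j)
def e2 : ℕ := Nat.add (r.ee .i2 .i2) (r.ee .i3 .i3)
def e1 : ℕ := Nat.add (mx (r.eb .i2) (r.eb .i3)) (dn (Nat.add (r.eb .i2) (r.eb .i3)) 3)
def e3 : ℕ := dn (Nat.add r.e1 (Nat.div r.e2 r.e1)) 1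
def es : ℕ := dn (Nat.add r.e3 (Nat.div r.e2 r.e3)) 1
def hb (j : Bool) : ℕ := (r.ht j).bd0
def gq (j : Bool) : ℕ := Nat.add
  (Nat.div (Nat.shiftLeft (r.hb j) 104) (Nat.sub (p2 148) (Nat.mul (r.hb j) r.es))) 1
def g4 (j : Bool) : ℕ := Nat.mul (Nat.mul (r.gq j) (r.gq j)) (Nat.mul (r.gq j) (r.gq j))
def w2 (c c' : TM) : ℕ := dn (Nat.mul (Nat.mul 3 (Nat.mul r.es r.es))
  (Nat.add (Nat.mul c.bd0 (r.g4 true)) (Nat.mul c'.bd0 (r.g4 false)))) 143

/-- Bounds of the nonlinear terms, 169 binary places. -/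
def nl : I6 → ℕ
  | .i0 => Nat.add (Nat.add (r.ee .i0 .i0) (Nat.mul 2 (r.ee .i1 .i1))) (r.w2 r.x.nu r.x.nu.neg)
  | .i1 => Nat.add (r.ee .i0 .i1) (r.w2 r.x.nu r.x.nu.neg)
  | .i2 => Nat.mul 2 (Nat.add (r.ee .i0 .i2) (r.ee .i1 .i3))
  | .i3 => Nat.mul 2 (Nat.add (r.ee .i0 .i3) (r.ee .i1 .i2))
  | .i4 => Nat.add (Nat.add (r.ee .i0 .i4) (Nat.mul 2 (r.ee .i1 .i5))) (r.w2 r.x.cp r.x.cm)
  | .i5 => Nat.add (Nat.add (r.ee .i0 .i5) (Nat.mul 2 (r.ee .i1 .i4))) (r.w2 r.x.cp r.x.cm)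

def dB (v : I6 → TM) (i : I6) : TM := ad6 fun l => (r.B i l).mul (v l)
/-- The bound of `B * v`, 24 binary places when `v` has 108. -/
def gg (v : I6 → TM) (i : I6) : ℕ := dn ((r.dB v i).bnd oV) (r.t i)
def dl (i : I6) : ℕ := dn (Nat.shiftLeft
  ((((TM.cst (p2 (r.t i))).sh (Nat.mul 40 i.n)).sub (r.dB r.E i)).bnd oV) 20) (r.t i)
def sv (g : I6 → ℕ) (i : I6) : ℕ := Nat.add (g i) (dn (Nat.mul (r.dl i) (mx6 g)) 19)
def okH (j : Bool) : Bool := Nat.ble (Nat.mul 17 (r.eps j)) (p2 136) && ((r.H j).pos oS &&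
  (Nat.blt (Nat.mul (r.hb j) r.es) (p2 148) && Nat.ble (r.gq j) (p2 25)))
def okI (i : I6) : Bool := Nat.ble (r.dl i) (p2 19) &&
  Nat.ble (Nat.add (Nat.shiftLeft (r.X i).bd0 20) (r.eb i)) (p2 90)
def ok : Bool := r.x.ok && (Nat.ble r.e2 (Nat.mul r.es r.es) &&
  (r.okH true && (r.okH false && all6 r.okI)))
end Cr

/-- The data of a step. -/
structure Raw where
  hn : ℕ
  u : ℕ
  R : I6 → ℕ
  kn : I6 → ℕ
  t : I6 → ℕ
  xp : I6 → ℕ
  xn : I6 → ℕ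
  hp : Bool → ℕ
  hm : Bool → ℕ
  ap : I6 → ℕ
  an : I6 → ℕ
  bp : I6 → I6 → ℕ
  bn : I6 → I6 → ℕ

/-- The derivative of a polynomial of degree fifteen in the time. -/
def dr1 (m : ℕ → ℕ) (P N : ℕ) : TM :=
  (((TM.ex (m c0) P N).add ((TM.ex (m c1) P N).up 1)).add ((TM.ex (m c2) P N).up 2)).add
    ((TM.ex (m c3) P N).up 3)
def dr (m : ℕ → ℕ) (P N : ℕ) : TM := dr1 m (Nat.shiftRight P 192) (Nat.shiftRight N 192)
def sl (P : ℕ) (j : I6) : ℕ := Nat.shiftRight P (Nat.mul 192 (Nat.mul 40 j.n))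

namespace Raw
variable (r : Raw)
def X (i : I6) : TM := TM.ex (mX (gs 1 16)) (r.xp i) (r.xn i)
def E (i : I6) : TM := (TM.ex (mA (gs 1 16)) (r.ap i) (r.an i)).up r.u
def B (i l : I6) : TM := TM.ex mB (r.bp i l) (r.bn i l)
def H (j : Bool) : TM := TM.ex (mX (gs 1 16)) (r.hp j) (r.hm j)
def cr (x : Bx) : Cr := ⟨r.X, r.E, r.H, r.B, r.t, x⟩
def dZ (i : I6) : TM :=
  (((dr mA (r.ap i) (r.an i)).up r.u).add ((dr mX (r.xp i) (r.xn i)).up 20)).up 76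
def G (x : Bx) (l : I6) : TM := (((((r.cr x).row l).smul r.hn).sub (r.dZ l)).tr oV mG 52).err
  (dn (Nat.mul r.hn ((r.cr x).nl l)) 69)
def d (x : Bx) (i : I6) : ℕ := Nat.mul 2 ((r.cr x).sv ((r.cr x).gg (r.G x)) i)
def okR (x : Bx) (i : I6) : Bool := Nat.blt 0 (r.R i) && Nat.blt (Nat.add (r.R i) (r.d x i)) (p2 24)
def ok (x : Bx) : Bool := Nat.blt 0 r.hn && ((r.cr x).ok && all6 (r.okR x))

/-- The entry of the frame in the row `l` and the column `j` times the coordinate `i`. -/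
def cy (l j i : I6) : TM :=
  ((TM.ex mC (sl (r.ap l) j) (sl (r.an l) j)).sh (Nat.mul 40 i.n)).up r.u
/-- The state at the end of the step, 84 binary places. -/
def S1 (l : I6) : TM := tE 0 ((r.E l).add ((r.X l).up 20)).ev1
/-- The residual of the link from the state `S` to the start of the step, 94 binary places. -/
def lr (S : I6 → TM) (l : I6) : TM := ((S l).up 10).sub
  ((ad6 fun j => (r.cy l j j).smul (r.kn j)).add ((r.X l).up 30)).evm
def lg (x : Bx) (S : I6 → TM) (i : I6) : ℕ :=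
  dn (Nat.shiftLeft (((r.cr x).dB (r.lr S) i).evm.bnd oV) 14) (r.t i)
def lD (x : Bx) (S : I6 → TM) (i : I6) : ℕ := (r.cr x).sv (r.lg x S) i
end Raw

def lkR (w : Bool) (k R d R' D : ℕ) : Bool :=
  cond w (Nat.ble (Nat.add (Nat.shiftLeft (Nat.add R' D) 10) (Nat.mul k d)) (Nat.mul k R))
    (Nat.ble (Nat.add (Nat.mul k (Nat.add R d)) (Nat.shiftLeft D 10)) (Nat.shiftLeft R' 10))
def link (x : Bx) (w : Bool) (r r' : Raw) : Bool :=
  all6 fun j => lkR (w && isU j) (r'.kn j) (r.R j) (r.d x j) (r'.R j) (r'.lD x r.S1 j)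

/-- The Lagrange state, 64 binary places. -/
def s3 : TM := (TM.cst 15975348984942515101).err 1
def XL : I6 → TM
  | .i1 => .cst (p2 64)
  | .i3 => s3
  | .i4 => s3.neg
  | _ => .cst 0

namespace Raw
variable (r : Raw)
def lc (x : Bx) : Cr := ⟨XL, r.E, fun _ => .cst (p2 64), r.B, r.t, x⟩
def rot (l i j : I6) : TM := (r.cy l j i).sub (r.cy l i j)
def dia (l i j : I6) : TM := (r.cy l i i).add (r.cy l j j)
/-- The frame applied to the approximate linear part, 148 binary places. -/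
def dL (l : I6) : TM := ((((((r.X .i0).mul (r.dia l .i0 .i1)).add ((r.X .i1).mul (r.rot l .i0 .i1))).add
  ((r.X .i2).mul (r.rot l .i2 .i3))).add ((r.X .i4).mul (r.rot l .i4 .i5))).sub
  ((r.X .i3).mul (r.dia l .i4 .i5)))
def GL' (x : Bx) (l : I6) : TM := ((((r.lc x).row l).sub ((r.dL l).up 4)).tr oV mG 44).err
  (dn ((r.lc x).nl l) 61)
def dc (x : Bx) (i : I6) : ℕ := (r.lc x).sv ((r.lc x).gg (r.GL' x)) i
def sq2 (a b c : ℕ) : Bool := Nat.ble (Nat.add (Nat.mul a a) (Nat.mul b b)) (Nat.mul c c)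
def okL (x : Bx) : Bool := (r.lc x).ok && (sq2 (r.dc x .i0) (r.dc x .i1) (r.R .i0) &&
  (sq2 (r.dc x .i2) (r.dc x .i3) (r.R .i1) && (sq2 (r.dc x .i4) (r.dc x .i5) (r.R .i2) &&
  (((r.X .i0).sub (.cst (Nat.shiftLeft (Nat.add (r.R .i0) (r.R .i1)) 40))).pos oS &&
    ((((r.X .i3).mul ((r.X .i0).sub (.cst (Nat.shiftLeft (r.R .i0) 40)))).up 2).sub
      (.cst (Nat.shiftLeft (Nat.mul (r.R .i2) (r.R .i2)) 80))).pos oS))))
/-- The state in the cone, 84 binary places. -/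
def S0 (l : I6) : TM := tE 0 ((r.E l).add ((XL l).up 20)).ev1
end Raw

def iq (r r' : Raw) (x : Bx) (j : I6) : ℕ :=
  Nat.add (Nat.div (Nat.shiftLeft (Nat.add (r'.R j) (r'.lD x r.S0 j)) 10) (r'.kn j)) 1
def ie (r r' : Raw) (x : Bx) (j : I6) : Bool := isU j ||
  Nat.ble (Nat.add (Raw.lg {r' with kn := fun _ => 0} x r.S0 j)
    (Nat.shiftLeft ((r'.cr x).dl j) 5)) (r'.R j)
/-- The link from the cone to the first step. -/
def init (x : Bx) (r r' : Raw) : Bool := Nat.blt 0 (r'.kn .i0) &&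
  (Nat.blt 0 (r'.kn .i1) && (Raw.sq2 (iq r r' x .i0) (iq r r' x .i1) 16515072 && all6 (ie r r' x)))

/-- A collinear state, 64 binary places, its error and the inverse distances. -/
structure Ce where
  P : I6 → ℕ
  N : I6 → ℕ
  e : ℕ
  h : Bool → ℕ

def Ce.X (c : Ce) (i : I6) : TM := ((TM.cst (c.P i)).sub (.cst (c.N i))).err c.e

namespace Raw
variable (r : Raw) (x : Bx) (c : Ce)
def le : Cr := ⟨c.X, r.E, fun j => .cst (c.h j), r.B, r.t, x⟩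
def dE (l : I6) : TM := ((((r.X .i0).mul (r.cy l .i0 .i0)).add ((r.X .i2).mul (r.rot l .i2 .i3))).add
  ((r.X .i3).mul (r.rot l .i4 .i5))).sub ((r.X .i1).mul (r.cy l .i1 .i1))
def GE (l : I6) : TM := ((((r.le x c).row l).sub ((r.dE l).up 4)).tr oV mG 44).err
  (dn ((r.le x c).nl l) 61)
def de (i : I6) : ℕ := (r.le x c).sv ((r.le x c).gg (r.GE x c)) i
def okE : Bool := (r.le x c).ok && (sq2 (r.de x c .i2) (r.de x c .i3) (r.R .i0) &&
  (sq2 (r.de x c .i4) (r.de x c .i5) (r.R .i0) &&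
  (((r.X .i0).sub (.cst (Nat.shiftLeft (Nat.add (r.de x c .i0) (r.R .i0)) 40))).pos oS &&
    ((((r.X .i1).mul ((r.X .i0).sub (.cst (Nat.shiftLeft (r.de x c .i0) 40)))).up 2).sub
      (.cst (Nat.shiftLeft (Nat.mul (r.de x c .i1) (r.de x c .i1)) 80))).pos oS)))
def cc (l j : I6) : TM := (TM.ex mC (sl (r.ap l) j) (sl (r.an l) j)).up r.u
/-- The state in the cone where the first coordinate is `63 / 64`, 84 binary places. -/
def SE (l : I6) : TM := tE 6 ((((((r.E l).sub (r.cy l .i0 .i0)).up 6).add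
  ((r.cc l .i0).smul 63)).add ((c.X l).up 26)).ev1)
end Raw

/-- The link from the collinear cone to the first step. -/
def iniE (x : Bx) (c : Ce) (r r' : Raw) : Bool :=
  all6 fun j => Nat.ble (Raw.lD {r' with kn := fun _ => 0} x (r.SE c) j) (r'.R j)

/-- A model without coordinates and a model that is linear in the coordinates. -/
structure PM where
  c : TM
  e : TM

def mc (a b : TM) : TM := t3 44 (a.mul b)
namespace PM
def add (a b : PM) : PM := ⟨a.c.add b.c, a.e.add b.e⟩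
def neg (a : PM) : PM := ⟨a.c.neg, a.e.neg⟩
def sm (k : TM) (a : PM) : PM := ⟨mc k a.c, tE 44 (k.mul a.e)⟩
def mul (a b : PM) : PM := ⟨mc a.c b.c, (tE 44 ((a.c.mul b.e).add (b.c.mul a.e))).err
  (dn (Nat.mul (a.e.bnd oV) (b.e.bnd oV)) 44)⟩
def fl (a : PM) : TM := a.c.add a.e
/-- A lower bound of the square, 88 binary places. -/
def sq (a : PM) : TM := a.c.mul (a.fl.add a.e)
end PM

/-- The constants of the escape criterion, 16 binary places. -/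
structure Oc where
  al : ℕ
  rho : ℕ
  be : ℕ
  c : ℕ
  kp : ℕ
  j : ℕ
  ph : ℕ
  dL : ℕ
  lm : ℕ
  m : ℕ
  q : ℕ
  rc : ℕ
  s : Bool

namespace Bx
variable (x : Bx)
def kq : TM := .cst (Nat.div (Nat.shiftLeft x.k 44) (Nat.sub (p2 64) x.n))
/-- The model of `k / (1 - ν)`, 44 binary places. -/
def ka : TM := x.kq.err (dn (((x.kq.mul ((TM.cst (p2 64)).sub x.nu)).sub
  ((x.cp.sub (.cst (p2 63))).up 44)).bnd oS) 63)
def n21 : TM := t3 43 x.nu
end Bx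

namespace Raw
variable (r : Raw) (x : Bx)
def Z (l : I6) : PM := ⟨t3 20 (r.X l).ev1, tE 40 (r.E l).ev1⟩
def yr : PM := ⟨(r.Z .i2).c.add x.ka, (r.Z .i2).e⟩
def wr : PM := (r.Z .i4).add (.sm x.ka (r.Z .i0))
def wi : PM := (r.Z .i5).add (.sm x.ka (r.Z .i1))
def oD : PM := ((r.yr x).mul (r.wr x)).add ((r.Z .i3).mul (r.wi x))
def oL : PM := ((r.yr x).mul (r.wi x)).add ((r.Z .i3).mul (r.wr x)).neg
def oQ : PM := ((r.yr x).mul (r.yr x)).add ((r.Z .i3).mul (r.Z .i3))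
def oH : PM := ((r.Z .i0).mul (r.Z .i0)).add ((r.Z .i1).mul (r.Z .i1))
end Raw

namespace Oc
variable (o : Oc) (r : Raw) (x : Bx)
def sg : ℕ := Nat.sub o.rho o.be
def cc : ℕ := Nat.add (Nat.add 84 (Nat.div (Nat.shiftLeft o.c 48)
  (Nat.mul 3 (Nat.mul o.sg (Nat.mul o.sg o.sg))))) (Nat.div (p2 31) o.rc)
def l : PM := (cond o.s (r.oL x) (r.oL x).neg).add ⟨(TM.cst (Nat.shiftLeft o.dL 28)).neg, .cst 0⟩
def a2 : ℕ := Nat.mul o.al o.al
def nat : Bool := Nat.blt 65536 o.al && (Nat.ble (Nat.add o.be 32768) o.rho && (Nat.blt 0 o.kp &&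
  (Nat.blt 0 o.j && (Nat.blt 0 o.rc &&
  (Nat.ble (Nat.shiftLeft (Nat.add (Nat.mul 2 (Nat.mul o.kp o.sg)) (Nat.mul o.j o.j)) 48)
    (Nat.mul (Nat.mul (Nat.mul 4 o.j) (Nat.mul o.kp o.ph)) (Nat.mul o.sg o.sg)) &&
  (Nat.ble (Nat.mul o.c (Nat.mul o.rho o.ph)) (Nat.shiftLeft (Nat.mul o.dL o.sg) 16) &&
  (Nat.ble (Nat.add (Nat.mul o.kp (Nat.mul o.rho o.rho)) (Nat.mul (Nat.mul o.lm o.lm) o.sg))
    (Nat.shiftLeft (Nat.mul o.rho o.sg) 17) &&
  (Nat.ble 196608 (Nat.mul 20 o.m) && (Nat.ble (Nat.mul o.m o.m) (Nat.shiftLeft o.al 16) &&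
    Nat.ble (Nat.shiftLeft o.al 17) (Nat.mul o.q o.q))))))))))
def ps : List TM := [
  (TM.cst (Nat.shiftLeft o.be 44)).sub (((TM.cst (p2 43)).add x.ka).smul o.al),
  (TM.cst (Nat.shiftLeft o.be 44)).sub (((TM.cst (p2 43)).sub x.ka).smul o.al),
  (TM.cst (Nat.shiftLeft o.c 60)).sub (((TM.cst (p2 42)).sub (mc x.ka x.ka)).smul (Nat.mul 3 o.a2)),
  (r.oQ x).fl.sub (.cst (Nat.shiftLeft (Nat.mul o.rho o.rho) 12)),
  (r.oD x).fl,
  (o.l r x).fl,
  (TM.cst (Nat.shiftLeft o.lm 28)).sub (o.l r x).fl,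
  ((r.oD x).sq.add (o.l r x).sq).sub ((((r.oQ x).fl.smul o.cc).up 29).add
    (.cst (Nat.shiftLeft o.rc 72))),
  (r.Z .i1).fl.sub (.cst (Nat.add (Nat.shiftLeft o.m 28) (dn (Nat.mul (Nat.mul x.d o.a2) o.ph) 23))),
  (((((TM.cst (p2 21)).sub x.n21).smul (Nat.div (Nat.shiftLeft (Nat.sub o.al 65536) 16) o.al)).up 8).add
    (.cst (Nat.div (Nat.shiftLeft (Nat.mul o.m o.m) 44) o.a2))).sub
    ((r.oH).fl.add (.cst (dn (Nat.mul (Nat.mul x.d o.q) o.ph) 6)))]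
def ok : Bool := r.ok x && (o.nat && (o.ps r x).all (TM.pos oV))
end Oc

/-- The packed data of a step. -/
structure DT where
  h : ℕ
  x : ℕ
  a : ℕ
  b : ℕ

def spr : ℕ → ℕ → ℕ
  | 0, _ => 0
  | j + 1, D => Nat.shiftLeft (Nat.add (rd D 0 3072) (spr j (Nat.shiftRight D 3072))) 7680
def o96 : ℕ := Nat.mul (gs 1 64) 79228162514264337593543950337
def o64 : ℕ := Nat.mul (gs 1 192) 340282366920938463481821351505477763073
def o32 : ℕ := Nat.mul (gs 1 60) 1461501637671185285203851458712368708759249223681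
def oX (n : ℕ) : ℕ := Nat.add (Nat.mul 3072 (Nat.div n 2)) (Nat.mul 96 (Nat.mod n 2))
def fA (U : ℕ) : I6 → ℕ
  | .i0 => spr 6 U
  | .i1 => Nat.shiftRight (spr 6 U) 64
  | .i2 => Nat.shiftRight (spr 6 U) 128
  | .i3 => spr 6 (Nat.shiftRight U 18432)
  | .i4 => Nat.shiftRight (spr 6 (Nat.shiftRight U 18432)) 64
  | .i5 => Nat.shiftRight (spr 6 (Nat.shiftRight U 18432)) 128
def fB (U : ℕ) (i l : I6) : ℕ := Nat.shiftRight U
  (Nat.add (Nat.mul 1920 (Nat.sub i.n 1)) (Nat.mul 32 (Nat.sub l.n 1)))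

def DT.un (D : DT) : Raw where
  hn := rd D.h 0 8
  u := rd D.h 8 8
  R i := rd D.h (Nat.mul 24 i.n) 24
  kn i := rd D.h (Nat.add (Nat.mul 32 i.n) 160) 32
  t i := rd D.h (Nat.add (Nat.mul 8 i.n) 376) 8
  xp i := Nat.shiftRight (ps 95 o96 D.x) (oX (Nat.sub i.n 1))
  xn i := Nat.shiftRight (ng 95 o96 D.x) (oX (Nat.sub i.n 1))
  hp j := Nat.shiftRight (ps 95 o96 D.x) (cond j 9216 9312)
  hm j := Nat.shiftRight (ng 95 o96 D.x) (cond j 9216 9312)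
  ap := fA (ps 63 o64 D.a)
  an := fA (ng 63 o64 D.a)
  bp := fB (ps 31 o32 D.b)
  bn := fB (ng 31 o32 D.b)

def unO (D : ℕ) : Oc := ⟨rd D 0 24, rd D 24 24, rd D 48 24, rd D 72 24, rd D 96 24, rd D 120 24,
  rd D 144 24, rd D 168 24, rd D 192 24, rd D 216 24, rd D 240 24, rd D 264 24,
  Nat.beq (rd D 288 1) 1⟩

def run (x : Bx) : ℕ → DT → List DT → Bool
  | _, _, [] => true
  | n, D, D' :: l => D.un.ok x && (link x (Nat.blt 0 n) D.un D'.un && run x (Nat.pred n) D' l)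

end Pool.Agent.Lib.MP_6e7c44_mp.ER
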