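import Pool.Agent.Lib.MP_6e7c44_mp.MR.Red

/-! The classification of the relative equilibria and the reduction to normalised states. -/

set_option autoImplicit false

open Set Complex Filter Topology

noncomputable section

namespace Pool.Agent.Lib.MP_6e7c44_mp.ER

open LA MR

/-- The state `(Q, V)` rotates rigidly with the angular velocity `ω`. -/
def Rig (m : Fin 3 → ℝ) (Q V : Fin 3 → ℂ) (ω : ℝ) : Prop := (∀ a b, a ≠ b → Q a ≠ Q b) ∧
  ∀ a, V a - V 0 = ω * I * (Q a - Q 0) ∧ bkAcc m Q a - bkAcc m Q 0 = -(ω ^ 2 * (Q a - Q 0))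

lemma two_shapes {c z : ℂ} (h1 : ‖z‖ = ‖c‖) (h2 : ‖z - 1‖ = ‖c - 1‖) :
    z = c ∨ z = (starRingEnd ℂ) c := by
  have a1 : ‖z‖ ^ 2 = ‖c‖ ^ 2 := by rw [h1]
  have a2 : ‖z - 1‖ ^ 2 = ‖c - 1‖ ^ 2 := by rw [h2]
  simp only [sq_norm', sub_re, sub_im, one_re, one_im, sub_zero] at a1 a2
  have a3 : z.re = c.re := by linarith
  rw [a3] at a1
  exact (sq_eq_sq_iff_eq_or_eq_neg.1 (show z.im ^ 2 = c.im ^ 2 by linarith)).imp
    (fun h => Complex.ext a3 h) fun h => Complex.ext (by simpa using a3) (by simpa using h)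

/-- The torque identity. -/
lemma torque {m : Fin 3 → ℝ} (hm : ∀ a, 0 < m a) {Q : Fin 3 → ℂ} {F : ℂ} (h0 : Q 1 - Q 0 ≠ 0)
    (h1 : bkAcc m Q 1 - bkAcc m Q 0 = F * (Q 1 - Q 0))
    (h2 : bkAcc m Q 2 - bkAcc m Q 0 = F * (Q 2 - Q 0)) : F.im = 0 := by
  obtain ⟨b0, b1, b2⟩ := bk_acc m Q
  rw [← neg_sub (Q 1), ff_neg, show Q 2 - Q 1 = Q 2 - Q 0 - (Q 1 - Q 0) by ring] at b1
  rw [← neg_sub (Q 2) (Q 0), ← neg_sub (Q 2) (Q 1), ff_neg, ff_neg,
    show Q 2 - Q 1 = Q 2 - Q 0 - (Q 1 - Q 0) by ring] at b2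
  rw [b0, b1] at h1
  rw [b0, b2] at h2
  generalize Q 1 - Q 0 = x, Q 2 - Q 0 = y at *
  simp only [ff] at h1 h2
  generalize (‖x‖ ^ 3)⁻¹ = s, (‖y‖ ^ 3)⁻¹ = t, (‖y - x‖ ^ 3)⁻¹ = u at *
  have a1 := congrArg re h1
  have a2 := congrArg im h1
  have a3 := congrArg re h2
  have a4 := congrArg im h2
  simp only [sub_re, sub_im, add_re, add_im, mul_re, mul_im, neg_re, neg_im, ofReal_re, ofReal_im,
    smul_re, smul_im, smul_eq_mul] at a1 a2 a3 a4
  have e : F.im * (m 0 * m 1 * ‖x‖ ^ 2 + m 0 * m 2 * ‖y‖ ^ 2 + m 1 * m 2 * ‖y - x‖ ^ 2) = 0 := by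
    simp only [sq_norm', sub_re, sub_im]
    linear_combination m 0 * m 1 * (x.im * a1 - x.re * a2) + m 0 * m 2 * (y.im * a3 - y.re * a4)
      + m 1 * m 2 * ((y.im - x.im) * (a3 - a1) - (y.re - x.re) * (a4 - a2))
  have m0 := hm 0
  have m1 := hm 1
  have m2 := hm 2
  have := norm_pos_iff.2 h0
  exact (mul_eq_zero.1 e).resolve_right (by positivity)

/-- A solution with constant mutual distances rotates rigidly. -/
theorem rig_of {m : Fin 3 → ℝ} {q v : ℝ → Fin 3 → ℂ} (hm : ∀ a, 0 < m a)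
    (hq : ∀ t a, HasDerivAt (fun s => q s a) (v t a) t)
    (hv : ∀ t a, HasDerivAt (fun s => v s a) (bkAcc m (q t) a) t)
    (hc : ∀ a b, a ≠ b → q 0 a ≠ q 0 b) (hr : ∀ t a b, ‖q t a - q t b‖ = ‖q 0 a - q 0 b‖) :
    ∃ ω, Rig m (q 0) (v 0) ω := by
  have x0 : q 0 1 - q 0 0 ≠ 0 := sub_ne_zero.2 (hc 1 0 (by decide))
  have xt : ∀ t, q t 1 - q t 0 ≠ 0 := fun t => norm_ne_zero_iff.1 (hr t 1 0 ▸ norm_ne_zero_iff.2 x0)
  obtain ⟨c, hc'⟩ : ∃ c, c = (q 0 2 - q 0 0) / (q 0 1 - q 0 0) := ⟨_, rfl⟩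
  have e : ∀ t, (q t 2 - q t 0) / (q t 1 - q t 0) - 1 = (q t 2 - q t 1) / (q t 1 - q t 0) :=
    fun t => by have := xt t; field_simp; ring
  have two : ∀ t, q t 2 - q t 0 = c * (q t 1 - q t 0) ∨
      q t 2 - q t 0 = (starRingEnd ℂ) c * (q t 1 - q t 0) := fun t => by
    simp only [← div_eq_iff (xt t)]
    exact two_shapes (by rw [hc', norm_div, norm_div, hr t 2 0, hr t 1 0])
      (by rw [hc', e, e, norm_div, norm_div, hr t 2 1, hr t 1 0])
  have c0 : q 0 2 - q 0 0 = c * (q 0 1 - q 0 0) := by rw [hc', div_mul_cancel₀ _ x0]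
  have hx := fun t => (hq t 1).fun_sub (hq t 0)
  have hy := fun t => (hq t 2).fun_sub (hq t 0)
  have e1 : ∀ᶠ t in 𝓝 (0 : ℝ), q t 2 - q t 0 = c * (q t 1 - q t 0) := by
    by_cases h : c = (starRingEnd ℂ) c
    · exact .of_forall fun t => (two t).elim id fun h1 => by rwa [← h] at h1
    have h1 : q 0 2 - q 0 0 - (starRingEnd ℂ) c * (q 0 1 - q 0 0) ≠ 0 := by
      rw [c0, ← sub_mul]; exact mul_ne_zero (sub_ne_zero.mpr h) x0
    filter_upwards [((hy 0).fun_sub ((hx 0).const_mul _)).continuousAt.eventually_ne h1] with t ht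
    exact (two t).resolve_right fun h4 => ht (sub_eq_zero.mpr h4)
  have e2 : ∀ᶠ t in 𝓝 (0 : ℝ), v t 2 - v t 0 = c * (v t 1 - v t 0) := by
    filter_upwards [e1.eventually_nhds] with t ht
    exact (hy t).unique (((hx t).const_mul c).congr_of_eventuallyEq ht)
  have e3 := ((hv 0 2).fun_sub (hv 0 0)).unique
    ((((hv 0 1).fun_sub (hv 0 0)).const_mul c).congr_of_eventuallyEq e2)
  replace e2 := e2.self_of_nhds
  have k0 : ∀ t, dot (q t 1 - q t 0) (v t 1 - v t 0) = 0 := fun t => by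
    have := (i_nsq (hx t)).unique
      (hd_congr (hasDerivAt_const t (‖q 0 1 - q 0 0‖ ^ 2)) (fun s => by rw [hr]) rfl)
    linarith
  have k1 := (hd_dot (hx 0) ((hv 0 1).fun_sub (hv 0 0))).unique
    (hd_congr (hasDerivAt_const (0 : ℝ) (0 : ℝ)) k0 rfl)
  have k2 := k0 0
  clear two hx hy e1 k0 e xt hc' hr hq hv
  generalize q 0 = Q, v 0 = V at *
  obtain ⟨F, hF⟩ : ∃ F, bkAcc m Q 1 - bkAcc m Q 0 = F * (Q 1 - Q 0) :=
    ⟨_, (div_mul_cancel₀ _ x0).symm⟩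
  obtain ⟨η, hη⟩ : ∃ η, V 1 - V 0 = η * (Q 1 - Q 0) := ⟨_, (div_mul_cancel₀ _ x0).symm⟩
  have t := torque hm x0 hF (by rw [e3, hF, c0]; ring)
  have n0 := pow_pos (norm_pos_iff.2 x0) 2
  have η1 : η.re = 0 := by
    have : η.re * ‖Q 1 - Q 0‖ ^ 2 = 0 := by
      rw [← k2, hη, sq_norm']; simp only [dot, mul_re, mul_im]; ring
    exact (mul_eq_zero.1 this).resolve_right n0.ne'
  have F1 : F.re = -η.im ^ 2 := by
    have : (F.re + η.im ^ 2) * ‖Q 1 - Q 0‖ ^ 2 = 0 := by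
      rw [← k1, hη, hF, sq_norm']; simp only [dot, mul_re, mul_im, η1]; ring
    linarith [(mul_eq_zero.1 this).resolve_right n0.ne']
  have η2 : η = η.im * I := Complex.ext (by simp [η1]) (by simp)
  have F2 : F = -(η.im : ℂ) ^ 2 := Complex.ext (by simp [F1, sq]) (by simp [t, sq])
  refine ⟨η.im, hc, fun a => ?_⟩
  rw [← η2]
  match a with
  | 0 => simp
  | 1 => exact ⟨hη, by rw [hF, F2]; simp⟩
  | 2 => exact ⟨by rw [e2, hη, c0]; ring, by rw [e3, hF, c0, F2]; simp; ring⟩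

/-- The reduced state with the shape `Y` that rotates with the angular velocity `w`. -/
def rig (Y : ℂ) (w : ℝ) : Z3 := (w * I, Y, Y * (w * I))

/-- The Lagrange state and the Euler states with an outer third body are limits of escaping
states. -/
def Good (μ : Fin 3 → ℝ) : Prop := MR.Near μ ∧ ∀ Y w : ℝ, 0 < w → 1 / 2 < |Y| →
  fr ((μ 0 - μ 1) / 2) (μ 2) (co (rig Y w)) = 0 → phys (rig Y w) ∈ closure (Esc μ)

lemma Rig.swap {m : Fin 3 → ℝ} {Q V : Fin 3 → ℂ} {ω : ℝ} (h : Rig m Q V ω) :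
    Rig (fun a => m (Equiv.swap 1 2 a)) (fun a => Q (Equiv.swap 1 2 a))
      (fun a => V (Equiv.swap 1 2 a)) ω := by
  have s0 : Equiv.swap (1 : Fin 3) 2 0 = 0 := by decide
  have e : ∀ a, bkAcc (fun a => m (Equiv.swap 1 2 a)) (fun a => Q (Equiv.swap 1 2 a)) a
      = bkAcc m Q (Equiv.swap 1 2 a) := fun a => by
    obtain ⟨b0, b1, b2⟩ := bk_acc m Q
    obtain ⟨c0, c1, c2⟩ := bk_acc (fun a => m (Equiv.swap 1 2 a)) fun a => Q (Equiv.swap 1 2 a)
    match a with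
    | 0 => rw [c0, s0, b0]; simp [add_comm]
    | 1 => rw [c1]; simp [b2, s0]
    | 2 => rw [c2]; simp [b1, s0]
  refine ⟨fun a b hab => h.1 _ _ ((Equiv.swap 1 2).injective.ne hab), fun a => ?_⟩
  simp only [e, s0]
  exact h.2 _

/-- The normal form of a rigidly rotating state. -/
lemma Rig.nf {m μ : Fin 3 → ℝ} {Q V : Fin 3 → ℂ} {ω M : ℝ} (h : Rig m Q V ω) (hM : 0 < M)
    (hμ : ∀ a, m a = M * μ a) : ∃ (c : ℂ) (w s : ℝ), 0 < s ∧ ω = s * w ∧ c ≠ 0 ∧ c - 1 ≠ 0 ∧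
      Q 2 - Q 0 = c * (Q 1 - Q 0) ∧
      (w : ℂ) ^ 2 = μ 0 + μ 1 + μ 2 * (ff c - ff (c - 1)) ∧
      (w : ℂ) ^ 2 * c = (μ 0 + μ 2) * ff c + μ 1 * (ff (c - 1) + 1) ∧
      (phys (rig (c - 1 / 2) w) ∈ closure (Esc μ) ∨
        phys (rig ((starRingEnd ℂ) c - 1 / 2) (-w)) ∈ closure (Esc μ) →
          (Q, V) ∈ closure (Esc m)) := by
  obtain ⟨x, hx⟩ : ∃ x, Q 1 = x + Q 0 := ⟨Q 1 - Q 0, by ring⟩
  have x0 : x ≠ 0 := fun e => h.1 1 0 (by decide) (by rw [hx, e, zero_add])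
  obtain ⟨c, hc⟩ : ∃ c, Q 2 = c * x + Q 0 := ⟨(Q 2 - Q 0) / x, by field_simp; ring⟩
  have hr : 0 < ‖x‖ := norm_pos_iff.mpr x0
  obtain ⟨s, hs, hs2⟩ : ∃ s : ℝ, 0 < s ∧ s ^ 2 = M / ‖x‖ ^ 3 :=
    ⟨√(M / ‖x‖ ^ 3), by positivity, Real.sq_sqrt (by positivity)⟩
  obtain ⟨w, rfl⟩ : ∃ w, ω = s * w := ⟨ω / s, by field_simp⟩
  obtain ⟨b0, b1, b2⟩ := bk_acc m Q
  obtain ⟨v1, a1⟩ := h.2 1
  obtain ⟨v2, a2⟩ := h.2 2
  have f1 : ff 1 = 1 := by simp [ff]
  have e1 : Q 1 - Q 0 = 1 * x := by rw [hx]; ring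
  have e2 : Q 2 - Q 0 = c * x := by rw [hc]; ring
  have e3 : Q 2 - Q 1 = (c - 1) * x := by rw [hc, hx]; ring
  rw [← neg_sub (Q 1), ff_neg] at b1
  rw [← neg_sub (Q 2) (Q 0), ← neg_sub (Q 2) (Q 1), ff_neg, ff_neg] at b2
  rw [b0, b1] at a1
  rw [b0, b2] at a2
  simp only [e1, e2, e3, bk_ff_mul, f1, hμ] at a1 a2 v1 v2
  have s2 : (s : ℂ) ^ 2 = M * ((‖x‖ ^ 3)⁻¹ : ℝ) := by exact_mod_cast hs2
  have n0 : (s : ℂ) ^ 2 * x ≠ 0 := mul_ne_zero (pow_ne_zero _ (ofReal_ne_zero.2 hs.ne')) x0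
  have hmn : ∀ b, m b = s ^ 2 * ‖x‖ ^ 3 * μ ((1 : Equiv.Perm (Fin 3)) b) := fun b => by
    rw [hs2, hμ]; simp only [Equiv.Perm.coe_one, id]; field_simp
  generalize ((‖x‖ ^ 3)⁻¹ : ℝ) = u at a1 a2 s2
  push_cast at a1 a2 v1 v2
  refine ⟨c, w, s, hs, rfl, fun e => h.1 2 0 (by decide) (by rw [hc, e]; ring),
    fun e => h.1 2 1 (by decide) (sub_eq_zero.1 (by rw [e3, e, zero_mul])), by rw [e1, e2]; ring,
    mul_left_cancel₀ n0 ?_, mul_left_cancel₀ n0 ?_, ?_⟩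
  · linear_combination a1 - x * (μ 0 + μ 1 + μ 2 * (ff c - ff (c - 1))) * s2
  · linear_combination a2 - x * ((μ 0 + μ 2) * ff c + μ 1 * (ff (c - 1) + 1)) * s2
  rw [sub_eq_iff_eq_add] at v1 v2
  have c3 : (starRingEnd ℂ) 2 = 2 := map_ofNat _ 2
  rintro (H | H)
  · have := bk_cl (ContinuousLinearMap.mul ℝ ℂ x) hr hs (by simp) 1 (Q 0) (V 0) (m' := m) hmn H
    refine mem_of this (fun a => ?_) (fun a => ?_) <;> fin_cases a <;>
      simp [phys, rig, hx, hc, v1, v2] <;> ring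
  · have := bk_cl ((ContinuousLinearMap.mul ℝ ℂ x).comp (Complex.conjCLE : ℂ →L[ℝ] ℂ)) hr hs
      (by simp) 1 (Q 0) (V 0) (m' := m) hmn H
    refine mem_of this (fun a => ?_) (fun a => ?_) <;> fin_cases a <;>
      simp [phys, rig, hx, hc, v1, v2, c3] <;> ring

/-- A relative equilibrium is collinear or equilateral. -/
lemma shape {μ : Fin 3 → ℝ} (hμ : RS.Ms μ) {c : ℂ} {w : ℝ} (c0 : c ≠ 0) (c1 : c - 1 ≠ 0)
    (h1 : (w : ℂ) ^ 2 = μ 0 + μ 1 + μ 2 * (ff c - ff (c - 1)))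
    (h2 : (w : ℂ) ^ 2 * c = (μ 0 + μ 2) * ff c + μ 1 * (ff (c - 1) + 1)) :
    c.im = 0 ∧ (1 / 2 < |c.re - 1 / 2| → w ≠ 0) ∨
      (c = 1 / 2 + cL ∨ c = 1 / 2 - cL) ∧ (w = 1 ∨ w = -1) := by
  have m0 := hμ.1 0
  have m1 := hμ.1 1
  have m2 := hμ.1 2
  have m3 := hμ.2
  have n0 := norm_pos_iff.2 c0
  have n1 := norm_pos_iff.2 c1
  have inj : ∀ a b : ℝ, 0 < a → 0 < b → (a ^ 3)⁻¹ = (b ^ 3)⁻¹ → a = b := fun a b ha hb h =>
    (pow_left_inj₀ ha.le hb.le three_ne_zero).1 (inv_injective h)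
  have s0 : 0 < (‖c‖ ^ 3)⁻¹ := by positivity
  have s1 : 0 < (‖c - 1‖ ^ 3)⁻¹ := by positivity
  have a1 := congrArg re h1
  have a2 := congrArg im h1
  have a3 := congrArg re h2
  have a4 := congrArg im h2
  simp only [ff, sq, sub_re, sub_im, add_re, add_im, mul_re, mul_im, ofReal_re, ofReal_im,
    smul_re, smul_im, smul_eq_mul, one_re, one_im] at a1 a2 a3 a4
  by_cases hi : c.im = 0
  · refine .inl ⟨hi, fun h e => ?_⟩
    rw [e] at a1 a3
    rcases lt_abs.1 h with h | h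
    · have b1 := mul_pos (mul_pos (add_pos m0 m2) s0) (show 0 < c.re by linarith)
      have b2 := mul_pos (mul_pos m1 s1) (show 0 < c.re - 1 by linarith)
      linarith
    · have b1 := mul_pos (mul_pos (add_pos m0 m2) s1) (show 0 < 1 - c.re by linarith)
      have b2 := mul_pos (mul_pos m0 s0) (show 0 < -c.re by linarith)
      have b3 := mul_pos (mul_pos m1 s1) (show 0 < 1 - c.re by linarith)
      have b4 := mul_pos (mul_pos m0 s1) (show 0 < 1 - c.re by linarith)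
      nlinarith
  · have b1 : (‖c‖ ^ 3)⁻¹ = (‖c - 1‖ ^ 3)⁻¹ :=
      mul_left_cancel₀ (mul_ne_zero m2.ne' hi) (by linarith)
    have b2 : (‖c - 1‖ ^ 3)⁻¹ = ((1 : ℝ) ^ 3)⁻¹ :=
      mul_left_cancel₀ (mul_ne_zero m1.ne' hi) (by linear_combination c.im * a3 - c.re * a4)
    have b3 := inj _ _ n1 one_pos b2
    have b4 := (inj _ _ n0 n1 b1).trans b3
    refine .inr ⟨by simpa using bk_apex (x := 1) (y := c) one_ne_zero (by simp [b4]) (by simp [b3]),
      mul_self_eq_one_iff.1 ?_⟩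
    rw [b1, b2] at a1
    linarith

/-- A rigidly rotating state is a limit of escaping states unless the third body is in the middle
or the orientation is opposite to the sense of rotation. -/
lemma Rig.direct {m μ : Fin 3 → ℝ} {Q V : Fin 3 → ℂ} {ω M : ℝ} (h : Rig m Q V ω) (hM : 0 < M)
    (hm : ∀ a, m a = M * μ a) (hμ : RS.Ms μ) (G : Good μ) : (Q, V) ∈ closure (Esc m) ∨
      ∃ c : ℂ, Q 2 - Q 0 = c * (Q 1 - Q 0) ∧ (c.im = 0 ∧ 0 < c.re ∧ c.re < 1 ∨ ω * c.im < 0) := by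
  obtain ⟨c, w, s, hs, rfl, c0, c1, hc, h1, h2, H⟩ := h.nf hM hm
  obtain ⟨k1, k2⟩ := bk_cL
  have k3 : 0 < cL.im := by simp [cL]
  have c3 : (starRingEnd ℂ) 2 = 2 := map_ofNat _ 2
  have l : phys (rig cL 1) ∈ closure (Esc μ) := by simpa [MR.Near, lag, rig] using G.1
  rcases shape hμ c0 c1 h1 h2 with ⟨a1, a2⟩ | ⟨rfl | rfl, rfl | rfl⟩
  · obtain ⟨Y, rfl⟩ : ∃ Y : ℝ, c = Y + 1 / 2 := ⟨c.re - 1 / 2, Complex.ext (by simp) (by simpa)⟩
    have e : ((Y : ℂ) + 1 / 2).re = Y + 1 / 2 := by simp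
    rw [e, add_sub_cancel_right] at a2
    rcases lt_or_ge (1 / 2) |Y| with b | b
    · have f : ∀ u : ℝ, u ^ 2 = w ^ 2 → fr ((μ 0 - μ 1) / 2) (μ 2) (co (rig Y u)) = 0 := by
        intro u hu
        have m3 := hμ.2
        have y : yc (co (rig Y u)) = Y := rfl
        rw [show (Y : ℂ) + 1 / 2 - 1 = Y - 1 / 2 by ring, ← ofReal_pow, ← hu] at h1 h2
        have d1 := congrArg re h1
        have d2 := congrArg re h2
        have i1 : (ff (Y + 1 / 2)).im = 0 := by simp [ff, -ofReal_inv, -ofReal_pow]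
        have i2 : (ff (Y - 1 / 2)).im = 0 := by simp [ff, -ofReal_inv, -ofReal_pow]
        funext i
        cases i <;> simp only [fr, y, Fc] <;> generalize ff (Y + 1 / 2) = A at * <;>
          generalize ff (Y - 1 / 2) = B at * <;>
          simp only [co, rig, sub_re, add_re, add_im, mul_re, mul_im, ofReal_re, ofReal_im, smul_re,
            smul_im, smul_eq_mul, one_re, I_re, I_im, i1, i2, Pi.zero_apply, e] at d1 d2 ⊢
        · linear_combination d1 + m3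
        · ring
        · ring
        · ring
        · linear_combination d2 - d1 / 2 - ((A.re + B.re) / 2) * (-m3)
        · ring
      refine .inl (H ?_)
      rcases lt_or_gt_of_ne (a2 b) with d | d
      · exact .inr (by simpa [c3] using G.2 Y (-w) (by linarith) b (f _ (by ring)))
      · exact .inl (by simpa using G.2 Y w d b (f _ rfl))
    · refine .inr ⟨_, hc, .inl ⟨a1, ?_⟩⟩
      rw [e]
      obtain ⟨b1, b2⟩ := abs_le.1 b
      refine ⟨lt_of_le_of_ne (by linarith) fun d => c0 ?_, lt_of_le_of_ne (by linarith) fun d => c1 ?_⟩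
      · exact Complex.ext (e.trans d.symm) a1
      · exact sub_eq_zero.2 (Complex.ext (e.trans d) a1)
  · exact .inl (H (.inl (by simpa using l)))
  · exact .inr ⟨_, hc, .inr (by simpa using mul_pos hs k3)⟩
  · exact .inr ⟨_, hc, .inr (by simpa using mul_pos hs k3)⟩
  · exact .inl (H (.inr (by simpa [k2, c3] using l)))

/-- Every relative equilibrium is a limit of escaping states. -/
theorem red (m : Fin 3 → ℝ) (q v : ℝ → Fin 3 → ℂ) (hm : ∀ a, 0 < m a)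
    (G : Good fun a => m a / (m 0 + m 1 + m 2))
    (G' : Good fun a => m (Equiv.swap 1 2 a) / (m 0 + m 1 + m 2))
    (hq : ∀ t a, HasDerivAt (fun s => q s a) (v t a) t)
    (hv : ∀ t a, HasDerivAt (fun s => v s a)
      (∑ b ∈ Finset.univ.erase a, (m b / ‖q t b - q t a‖ ^ 3) • (q t b - q t a)) t)
    (hc : ∀ a b, a ≠ b → q 0 a ≠ q 0 b) (hr : ∀ t a b, ‖q t a - q t b‖ = ‖q 0 a - q 0 b‖) :
    (q 0, v 0) ∈ closure (Esc m) := by
  obtain ⟨ω, h⟩ := rig_of hm hq hv hc hr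
  have m0 := hm 0
  have m1 := hm 1
  have m2 := hm 2
  have hM : 0 < m 0 + m 1 + m 2 := by positivity
  have s0 : Equiv.swap (1 : Fin 3) 2 0 = 0 := by decide
  refine (h.direct hM (fun a => by field_simp) ⟨fun a => div_pos (hm a) hM, by field_simp⟩
    G).elim id fun ⟨c, e, b⟩ => ?_
  rcases h.swap.direct hM (fun a => by field_simp) ⟨fun a => div_pos (hm _) hM, by
    simp only [s0, Equiv.swap_apply_left, Equiv.swap_apply_right]; field_simp; ring⟩ G'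
    with H | ⟨d, e', b'⟩
  · simpa using bk_cl (ContinuousLinearMap.id ℝ ℂ) one_pos one_pos (by simp) (Equiv.swap 1 2) 0 0
      (m' := m) (by simp) H
  simp only [s0, Equiv.swap_apply_left, Equiv.swap_apply_right] at e'
  have x0 : q 0 1 - q 0 0 ≠ 0 := sub_ne_zero.2 (hc 1 0 (by decide))
  have k : d * c = 1 := mul_right_cancel₀ x0 (by rw [mul_assoc, ← e, ← e', one_mul])
  have k1 := congrArg re k
  have k2 := congrArg im k
  simp only [mul_re, mul_im, one_re, one_im] at k1 k2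
  have k3 : d.im * (c.re ^ 2 + c.im ^ 2) = -c.im := by linear_combination c.re * k2 - c.im * k1
  have k4 : c.im * (d.re ^ 2 + d.im ^ 2) = -d.im := by linear_combination d.re * k2 - d.im * k1
  exfalso
  rcases b with ⟨b1, b2, b3⟩ | b <;> rcases b' with ⟨d1, d2, d3⟩ | d1
  · rw [b1] at k1; nlinarith
  · rw [b1] at k4; rw [show d.im = 0 by linarith] at d1; linarith
  · rw [d1] at k3; rw [show c.im = 0 by linarith] at b; linarith
  · have := mul_nonneg (neg_pos.2 d1).le (add_nonneg (sq_nonneg c.re) (sq_nonneg c.im))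
    rw [neg_mul, mul_assoc, k3] at this
    linarith

end Pool.Agent.Lib.MP_6e7c44_mp.ER
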