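import Pool.Agent.Lib.MP_6e7c44_mp.MR.FamA

/-! The cone at a collinear relative equilibrium and an orbit that leaves inside it. -/

set_option autoImplicit false

open Set Complex Filter Topology

noncomputable section

namespace Pool.Agent.Lib.MP_6e7c44_mp.ER

open LA MR FamA

/-- A base point, a frame, the approximate eigenvalues and the bounds of the error. -/
structure EC where
  x : I6 → ℝ
  C : Matrix I6 I6 ℝ
  a : ℝ
  a' : ℝ
  ω : ℝ
  ω' : ℝ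
  d : I6 → ℝ

/-- The approximate linear part: an unstable and a stable direction and two central blocks. -/
def EC.lam (c : EC) (y : I6 → ℝ) : I6 → ℝ
  | .i0 => c.a * y .i0
  | .i1 => -(c.a' * y .i1)
  | .i2 => -(c.ω * y .i3)
  | .i3 => c.ω * y .i2
  | .i4 => -(c.ω' * y .i5)
  | .i5 => c.ω' * y .i4

structure EC.OK (k ν : ℝ) (c : EC) : Prop where
  det : c.C.det ≠ 0
  pt : ∀ (y : I6 → ℝ) (s : ℝ), s ≤ 1 → (∀ j, |y j| ≤ s) → Safe (c.x + c.C.mulVec y) ∧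
    ∀ w : I6 → ℝ, c.C.mulVec w = fr k ν (c.x + c.C.mulVec y) - c.C.mulVec (c.lam y) →
      ∀ j, |w j| ≤ s * c.d j
  cone : ∃ e v : ℝ, 0 ≤ e ∧ 0 ≤ v ∧ c.d .i2 ^ 2 + c.d .i3 ^ 2 ≤ e ^ 2 ∧
    c.d .i4 ^ 2 + c.d .i5 ^ 2 ≤ v ^ 2 ∧ c.d .i0 + e < c.a ∧ c.d .i0 + v < c.a ∧
    c.d .i1 ^ 2 < 4 * c.a' * (c.a - c.d .i0)

/-- An invariant cone in which the leading function grows. -/
lemma flow_gen {ι : Type} [Finite ι] {A a g : ℝ → ℝ} {B b : ι → ℝ → ℝ} {κ : ℝ} (κ0 : 0 < κ)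
    (A0 : ∀ t, 0 ≤ A t) (g0 : ∀ t, 0 ≤ g t) (dA : ∀ t, HasDerivAt A (g t * a t) t)
    (dB : ∀ i t, HasDerivAt (B i) (g t * b i t) t)
    (pt : ∀ t, (∀ i, B i t ≤ A t) → κ * A t ≤ a t ∧ ∀ i, b i t ≤ κ * A t)
    (h0 : ∀ i, B i 0 < A 0) {T : ℝ} (hT : 0 ≤ T) :
    (∀ t ∈ Icc 0 T, (∀ i, B i t ≤ A t) ∧ A 0 ≤ A t ∧ A t ≤ A T) ∧
      ((∀ t ∈ Icc 0 T, g t = 1) → κ * A 0 * T ≤ A T) := by
  have ca : Continuous A := continuous_iff_continuousAt.2 fun t => (dA t).continuousAt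
  have cb : ∀ i, Continuous (B i) := fun i =>
    continuous_iff_continuousAt.2 fun t => (dB i t).continuousAt
  have key : Icc 0 T ⊆ {t | ∀ i, B i t ≤ A t} := by
    refine IsClosed.Icc_subset_of_forall_mem_nhdsGT_of_Icc_subset (IsClosed.inter ?_ isClosed_Icc)
      (fun i => (h0 i).le) fun t ht hs => mem_nhdsWithin_of_mem_nhds ?_
    · rw [ofPred_forall]
      exact isClosed_iInter fun i => isClosed_le (cb i) ca
    refine eventually_all.2 fun i => ?_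
    have m : A 0 - B i 0 ≤ A t - B i t :=
      mono_of_deriv (F := fun t => A t - B i t) ht.1 (fun s _ => (dA s).fun_sub (dB i s))
        fun s k => by
          have := pt s (hs k)
          rw [← mul_sub]
          exact mul_nonneg (g0 s) (by linarith [this.1, this.2 i])
    exact ((cb i).continuousAt.eventually_lt ca.continuousAt
      (show B i t < A t by linarith [h0 i])).mono fun s k => k.le
  have mono : ∀ s t, 0 ≤ s → s ≤ t → t ≤ T → A s ≤ A t := fun s t hs hst ht =>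
    mono_of_deriv hst (fun u _ => dA u) fun u k => mul_nonneg (g0 u)
      ((mul_nonneg κ0.le (A0 u)).trans (pt u (key ⟨hs.trans k.1, k.2.trans ht⟩)).1)
  refine ⟨fun t ht => ⟨key ht, mono 0 t le_rfl ht.1 ht.2, mono t T ht.1 ht.2 le_rfl⟩, fun g1 => ?_⟩
  have m := mono_of_deriv (F := fun t => A t - κ * A 0 * t) hT
    (fun s _ => (dA s).fun_sub ((hasDerivAt_id' s).const_mul _)) fun s k => by
      have := mul_le_mul_of_nonneg_left (mono 0 s le_rfl k.1 k.2) κ0.le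
      rw [g1 s k]
      linarith [(pt s (key k)).1]
  linarith [A0 0]

/-- The squared norms of the blocks. -/
def blk (y : I6 → ℝ) : Fin 3 → ℝ := ![y .i1 ^ 2, qb y, qc y]

lemma blk_le {y : I6 → ℝ} {s : ℝ} (s0 : 0 ≤ s) (h0 : y .i0 ^ 2 ≤ s ^ 2)
    (h : ∀ i, blk y i ≤ s ^ 2) (j : I6) : |y j| ≤ s := by
  refine abs_le_of_sq_le_sq ?_ s0
  have h1 : y .i1 ^ 2 ≤ s ^ 2 := h 0
  have h2 : y .i2 ^ 2 + y .i3 ^ 2 ≤ s ^ 2 := h 1
  have h3 : y .i4 ^ 2 + y .i5 ^ 2 ≤ s ^ 2 := h 2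
  cases j <;> linarith [sq_nonneg (y .i2), sq_nonneg (y .i3), sq_nonneg (y .i4), sq_nonneg (y .i5)]

lemma blk_cont (i : Fin 3) : Continuous fun y => blk y i := by
  match i with
  | 0 => exact (continuous_apply _).pow 2
  | 1 => exact qb_cont
  | 2 => exact qc_cont

/-- The derivatives of the blocks. -/
def dbl (y u : I6 → ℝ) : Fin 3 → ℝ := ![2 * (y .i1 * u .i1), 2 * (y .i2 * u .i2 + y .i3 * u .i3),
  2 * (y .i4 * u .i4 + y .i5 * u .i5)]

/-- The signs of the derivatives inside the cone. -/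
lemma EC.cone_pt {c : EC} {e v : ℝ} (e0 : 0 ≤ e) (v0 : 0 ≤ v)
    (he : c.d .i2 ^ 2 + c.d .i3 ^ 2 ≤ e ^ 2) (hv : c.d .i4 ^ 2 + c.d .i5 ^ 2 ≤ v ^ 2)
    (h1 : c.d .i0 + e < c.a) (h2 : c.d .i0 + v < c.a)
    (h3 : c.d .i1 ^ 2 < 4 * c.a' * (c.a - c.d .i0)) {y w : I6 → ℝ}
    (hw : ∀ j, |w j| ≤ |y .i0| * c.d j) (hb : ∀ i, blk y i ≤ y .i0 ^ 2) :
    2 * (c.a - c.d .i0) * y .i0 ^ 2 ≤ 2 * (y .i0 * (c.lam y + w) .i0) ∧
      ∀ i, dbl y (c.lam y + w) i ≤ 2 * (c.a - c.d .i0) * y .i0 ^ 2 := by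
  have s0 := abs_nonneg (y .i0)
  have q0 := sq_abs (y .i0)
  have p0 : 0 < c.a - c.d .i0 := by linarith
  have rot : ∀ p q w1 w2 d1 d2 u : ℝ, p ^ 2 + q ^ 2 ≤ y .i0 ^ 2 → |w1| ≤ |y .i0| * d1 →
      |w2| ≤ |y .i0| * d2 → 0 ≤ u → d1 ^ 2 + d2 ^ 2 ≤ u ^ 2 → c.d .i0 + u < c.a →
      p * w1 + q * w2 ≤ (c.a - c.d .i0) * y .i0 ^ 2 := fun p q w1 w2 d1 d2 u a1 a2 a3 a4 a5 a6 => by
    have b1 := (abs_le.1 (cs (Real.sqrt_nonneg _) (Real.sq_sqrt (by positivity)).symm s0 a2 a3 a4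
      a5 (p := p) (q := q))).2
    have b2 := mul_le_mul_of_nonneg_right (Real.sqrt_le_sqrt a1) (mul_nonneg s0 a4)
    have b3 := mul_le_mul_of_nonneg_right (show u ≤ c.a - c.d .i0 by linarith) (sq_nonneg (y .i0))
    rw [Real.sqrt_sq_eq_abs] at b2
    have : |y .i0| * (|y .i0| * u) = u * y .i0 ^ 2 := by rw [← q0]; ring
    linarith
  refine ⟨?_, fun i => ?_⟩
  · have a1 := mul_le_mul_of_nonneg_left (hw .i0) s0
    have a2 := neg_abs_le (y .i0 * w .i0)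
    have : |y .i0| * (|y .i0| * c.d .i0) = c.d .i0 * y .i0 ^ 2 := by rw [← q0]; ring
    rw [← abs_mul] at a1
    simp only [EC.lam, Pi.add_apply]
    linarith
  match i with
  | 0 =>
    have a1 := mul_le_mul_of_nonneg_left (hw .i1) (abs_nonneg (y .i1))
    have a2 := le_abs_self (y .i1 * w .i1)
    have q1 := sq_abs (y .i1)
    rw [← abs_mul] at a1
    show 2 * (y .i1 * (-(c.a' * y .i1) + w .i1)) ≤ _
    have b2 : 0 ≤ (c.a - c.d .i0) * |y .i0| ^ 2 + c.a' * |y .i1| ^ 2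
        - |y .i1| * (|y .i0| * c.d .i1) := by
      refine le_of_mul_le_mul_left (a := 4 * (c.a - c.d .i0)) ?_ (by positivity)
      have := mul_le_mul_of_nonneg_right h3.le (sq_nonneg |y .i1|)
      linarith [sq_nonneg (2 * (c.a - c.d .i0) * |y .i0| - c.d .i1 * |y .i1|)]
    rw [q0, q1] at b2
    linarith
  | 1 =>
    show 2 * (y .i2 * (-(c.ω * y .i3) + w .i2) + y .i3 * (c.ω * y .i2 + w .i3)) ≤ _
    linarith [rot _ _ _ _ _ _ _ (hb 1) (hw .i2) (hw .i3) e0 he h1]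
  | 2 =>
    show 2 * (y .i4 * (-(c.ω' * y .i5) + w .i4) + y .i5 * (c.ω' * y .i4 + w .i5)) ≤ _
    linarith [rot _ _ _ _ _ _ _ (hb 2) (hw .i4) (hw .i5) v0 hv h2]

/-- Near the base point there is an orbit that reaches the face `y 0 = 63 / 64` of the cone. -/
theorem EC.exit {μ : Fin 3 → ℝ} (hμ : RS.Ms μ) {c : EC} (hc : c.OK ((μ 0 - μ 1) / 2) (μ 2))
    {z0 : Z3} (h0 : co z0 = c.x) {U : Set Z3} (hU : U ∈ 𝓝 z0) : ∃ (z : Z3) (y : I6 → ℝ), NC z ∧
      co z = c.x + c.C.mulVec y ∧ y .i0 = 63 / 64 ∧ (∀ j, |y j| ≤ 63 / 64) ∧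
      (EscR μ z → ∃ z' ∈ U, EscR μ z') := by
  obtain ⟨e, v, e0, v0, he, hv, h1, h2, h3⟩ := hc.cone
  have un := isUnit_iff_ne_zero.2 hc.det
  obtain ⟨Y, hY⟩ : ∃ Y : Z3 → I6 → ℝ, Y = fun z => c.C⁻¹.mulVec (co z - c.x) := ⟨_, rfl⟩
  have cy : Continuous Y := hY ▸ continuous_const.matrix_mulVec (co_cont.sub continuous_const)
  have coY : ∀ z, c.x + c.C.mulVec (Y z) = co z := fun z => by
    simp only [hY]
    rw [Matrix.mulVec_mulVec, Matrix.mul_nonsing_inv _ un, Matrix.one_mulVec, add_sub_cancel]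
  have ca : Continuous fun z => Y z .i0 ^ 2 := ((continuous_apply _).comp cy).pow 2
  have cb := fun i => (blk_cont i).comp cy
  have sf : ∀ z, Y z .i0 ^ 2 < 1 ∧ (∀ i, blk (Y z) i < 1) → Safe (co z) := fun z hz => by
    rw [← coY]
    exact (hc.pt _ 1 le_rfl (blk_le zero_le_one (by linarith [hz.1])
      fun i => by linarith [hz.2 i])).1
  have KU : {z | Y z .i0 ^ 2 ≤ (63 / 64) ^ 2 ∧ ∀ i, blk (Y z) i ≤ (63 / 64) ^ 2}
      ⊆ {z | Y z .i0 ^ 2 < 1 ∧ ∀ i, blk (Y z) i < 1} :=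
    fun z hz => ⟨hz.1.trans_lt (by norm_num), fun i => (hz.2 i).trans_lt (by norm_num)⟩
  have o1 : IsOpen {z | ∀ i, blk (Y z) i < 1} := by
    rw [ofPred_forall]
    exact isOpen_iInter_of_finite fun i => isOpen_lt (cb i) continuous_const
  have o2 : IsClosed {z | ∀ i, blk (Y z) i ≤ (63 / 64) ^ 2} := by
    rw [ofPred_forall]
    exact isClosed_iInter fun i => isClosed_le (cb i) continuous_const
  obtain ⟨Φ, β, c1, f0, c2, b0, b1, -, hf⟩ := RS.cut_flow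
    ((isOpen_lt ca continuous_const).inter o1)
    (safe_cpt.of_isClosed_subset ((isClosed_le ca continuous_const).inter o2)
      fun z hz => sf z (KU hz)) KU ((cd_GR μ).mono fun z hz => safe_nc (sf z hz))
  obtain ⟨st, cs, s0, sy⟩ : ∃ st : ℂ → Z3, Continuous st ∧ st 0 = z0 ∧ ∀ p, Y (st p) = FamA.un p := by
    refine ⟨fun p => oc (c.x + c.C.mulVec (FamA.un p)), oc_cont.comp
      (continuous_const.add (continuous_const.matrix_mulVec un_cont)), ?_, fun p => ?_⟩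
    · have : FamA.un 0 = 0 := funext fun i => by cases i <;> rfl
      simp only [this, Matrix.mulVec_zero, add_zero, ← h0]
      rfl
    · simp only [hY]
      rw [co_oc, add_sub_cancel_left, Matrix.mulVec_mulVec, Matrix.nonsing_inv_mul _ un,
        Matrix.one_mulVec]
  obtain ⟨δ, δ0, hδ⟩ := Metric.mem_nhds_iff.1 (cs.continuousAt.preimage_mem_nhds (s0 ▸ hU))
  obtain ⟨r, r0, r1, r2⟩ : ∃ r : ℝ, 0 < r ∧ r < δ ∧ r ≤ 1 / 2 :=
    ⟨min (δ / 2) (1 / 2), by positivity, (min_le_left _ _).trans_lt (by linarith),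
      min_le_right _ _⟩
  have q1 : Y (st r) .i0 = r := by rw [sy]; rfl
  have q2 : ∀ i, blk (Y (st r)) i = 0 := fun i => by
    rw [sy]; fin_cases i <;> simp [blk, FamA.un, qb, qc]
  have ok : Y (st r) .i0 ^ 2 < 1 ∧ ∀ i, blk (Y (st r)) i < 1 :=
    ⟨by rw [q1]; nlinarith, fun i => by rw [q2]; exact one_pos⟩
  have sU : st r ∈ U := hδ (by simpa [abs_of_pos r0] using r1 : (r : ℂ) ∈ _)
  generalize st r = p at q1 q2 ok sU
  have cγ : Continuous fun t => Φ t p := c1.comp (Continuous.prodMk_left p)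
  obtain ⟨u, hu⟩ : ∃ u : Z3 → I6 → ℝ,
    u = fun z => c.C⁻¹.mulVec (fr ((μ 0 - μ 1) / 2) (μ 2) (co z)) := ⟨_, rfl⟩
  have hd : ∀ t j, HasDerivAt (fun s => Y (Φ s p) j) (β (Φ t p) * u (Φ t p) j) t := fun t j => by
    have := HasDerivAt.fun_sum (u := Finset.univ) fun i _ =>
      ((co_der (hf _ ok t).2 i).sub_const (c.x i)).const_mul (c.C⁻¹ j i)
    refine hd_congr this (fun s => by rw [hY]; rfl) ?_
    simp only [hu, Matrix.mulVec, dotProduct, Finset.mul_sum]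
    exact Finset.sum_congr rfl fun i _ => by ring
  have pa : 0 < c.a - c.d .i0 := by linarith
  have tp := fun (T : ℝ) (hT : 0 ≤ T) => flow_gen (κ := 2 * (c.a - c.d .i0))
    (A := fun t => Y (Φ t p) .i0 ^ 2) (B := fun i t => blk (Y (Φ t p)) i) (g := fun t => β (Φ t p))
    (a := fun t => 2 * (Y (Φ t p) .i0 * u (Φ t p) .i0))
    (b := fun i t => dbl (Y (Φ t p)) (u (Φ t p)) i) (by positivity) (fun _ => sq_nonneg _)
    (fun t => b0 _) (fun t => hd_congr ((hd t .i0).fun_pow 2) (fun _ => rfl) (by simp; ring))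
    (fun i t => match i with
      | 0 => hd_congr ((hd t .i1).fun_pow 2) (fun _ => rfl) (by simp [dbl]; ring)
      | 1 => hd_congr (hd_sq (hd t .i2) (hd t .i3)) (fun _ => rfl) (by simp [dbl]; ring)
      | 2 => hd_congr (hd_sq (hd t .i4) (hd t .i5)) (fun _ => rfl) (by simp [dbl]; ring))
    (fun t k => by
      have a : Y (Φ t p) .i0 ^ 2 < 1 := (hf _ ok t).1.1
      generalize Φ t p = z at *
      have q := sq_abs (Y z .i0)
      have := EC.cone_pt e0 v0 he hv h1 h2 h3 (w := u z - c.lam (Y z))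
        ((hc.pt (Y z) _ (abs_le_of_sq_le_sq (by linarith) zero_le_one)
          (blk_le (abs_nonneg _) q.ge fun i => (k i).trans q.ge)).2 _ (by
            rw [coY, Matrix.mulVec_sub, hu, Matrix.mulVec_mulVec, Matrix.mul_nonsing_inv _ un,
              Matrix.one_mulVec])) k
      rwa [add_sub_cancel] at this)
    (fun i => by simp only [f0, q1, q2]; positivity) hT
  simp only [f0, q1] at tp
  have g1 : ∀ T, 0 ≤ T → Y (Φ T p) .i0 ^ 2 ≤ (63 / 64) ^ 2 → ∀ t ∈ Icc 0 T, β (Φ t p) = 1 :=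
    fun T hT k t ht => by
      obtain ⟨a1, -, a3⟩ := (tp T hT).1 t ht
      exact b1 _ ⟨a3.trans k, fun i => (a1 i).trans (a3.trans k)⟩
  obtain ⟨T, T0, T1⟩ : ∃ T : ℝ, 0 ≤ T ∧ 2 * (c.a - c.d .i0) * r ^ 2 * T = 1 :=
    ⟨(2 * (c.a - c.d .i0) * r ^ 2)⁻¹, by positivity, mul_inv_cancel₀ (by positivity)⟩
  have c0 : Continuous fun t => Y (Φ t p) .i0 := (continuous_apply _).comp (cy.comp cγ)
  have pos : 63 / 64 ≤ Y (Φ T p) .i0 := by
    by_contra hh
    rcases le_total 0 (Y (Φ T p) .i0) with k | k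
    · have a5 := pow_le_pow_left₀ k (not_le.1 hh).le 2
      linarith [(tp T T0).2 (g1 T T0 a5)]
    · obtain ⟨t, ht, e⟩ := intermediate_value_Icc' T0 c0.continuousOn
        (show (0 : ℝ) ∈ Icc _ _ from ⟨k, by simp only [f0, q1]; exact r0.le⟩)
      have := ((tp T T0).1 t ht).2.1
      beta_reduce at e
      rw [e] at this
      linarith [pow_pos r0 2]
  obtain ⟨t, ht, e⟩ := intermediate_value_Icc T0 c0.continuousOn
    (show (63 / 64 : ℝ) ∈ Icc _ _ from ⟨by simp only [f0, q1]; linarith, pos⟩)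
  beta_reduce at e
  have k : Y (Φ t p) .i0 ^ 2 ≤ (63 / 64) ^ 2 := by rw [e]
  refine ⟨Φ t p, Y (Φ t p), safe_nc (sf _ (hf _ ok t).1), (coY _).symm, e,
    blk_le (by norm_num) k fun i => (((tp T T0).1 t ht).1 i).trans k, fun hE => ⟨p, sU, ?_⟩⟩
  have := RS.back hμ (c2.comp cγ) ht.1
    (fun s => ⟨safe_nc (sf _ (hf _ ok s).1), (hf _ ok s).2⟩)
    (fun s hs => by simp [g1 t ht.1 k s hs]) hE
  rwa [f0] at this

/-- A chain of plain links leads every state of its first box to escape. -/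
theorem chain0 {μ : Fin 3 → ℝ} (hμ : RS.Ms μ) {l : List SS} {s : SS} {z : Z3}
    (hc : Chain ((μ 0 - μ 1) / 2) (μ 2) 0 s l) (hz : NC z) (hb : s.Box (co z)) : EscR μ z := by
  obtain ⟨Φ, -, hΦ⟩ := exists_step hμ
  induction l generalizing s z with
  | nil =>
    obtain ⟨-, h2, h4⟩ := (hΦ z hz).2 s hc.1 hb
    exact h4 (escape hμ (hc.2 _ h2))
  | cons s' l ih =>
    obtain ⟨h1, h2, h4⟩ := (hΦ z hz).2 s hc.1 hb
    refine h4 (ih hc.2.2 ((hΦ z hz).1 _) fun j => ?_)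
    obtain ⟨k, D, k0, k1, k2⟩ := hc.2.1 j
    rw [if_neg (by simp)] at k2
    exact lk_le k0 (hb j) (h1 j) (k1 _ h2) k2

/-- The link from the face of the cone to the first step of a tube. -/
def EC.Init (c : EC) (s : SS) : Prop := ∀ y : I6 → ℝ, y .i0 = 63 / 64 → (∀ j, |y j| ≤ 63 / 64) →
  s.Box (c.x + c.C.mulVec y)

/-- The base point of the cone is a limit of escaping states. -/
theorem EC.near {μ : Fin 3 → ℝ} (hμ : RS.Ms μ) {c : EC} (hc : c.OK ((μ 0 - μ 1) / 2) (μ 2))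
    {s : SS} {l : List SS} (hi : c.Init s) (ch : Chain ((μ 0 - μ 1) / 2) (μ 2) 0 s l) {z : Z3}
    (hz : co z = c.x) : phys z ∈ closure (Esc μ) := by
  have cp : Continuous phys := by
    unfold phys
    refine Continuous.prodMk (continuous_pi fun i => ?_) (continuous_pi fun i => ?_) <;>
      fin_cases i <;> simp <;> fun_prop
  refine mem_closure_iff_nhds.2 fun U hU => ?_
  obtain ⟨z1, y, a1, a2, a3, a4, a5⟩ := EC.exit hμ hc hz (cp.continuousAt.preimage_mem_nhds hU)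
  obtain ⟨z2, b1, b2⟩ := a5 (chain0 hμ ch a1 (a2 ▸ hi y a3 a4))
  exact ⟨_, b1, b2⟩

end Pool.Agent.Lib.MP_6e7c44_mp.ER
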