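import Pool.Agent.Lib.MP_6e7c44_mp.ER.SemB

/-! The approximate inverse of the frame. -/

set_option autoImplicit false

open Set Filter Topology

noncomputable section

namespace Pool.Agent.Lib.MP_6e7c44_mp.ER

open LA hiding TM Rep Pt Raw mX mA mB Traj Out Chain escape exists_step
open MR

lemma Rep.ad6 {π : Pt} {e dx dp dr : ℕ} {f : I6 → TM} {a : I6 → ℝ}
    (h : ∀ l, Rep π e dx dp dr (f l) (a l)) : Rep π e dx dp dr (ad6 f) (∑ l, a l) :=
  ((((h .i0).add (h .i1)).add ((h .i2).add (h .i3))).add ((h .i4).add (h .i5))).congr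
    (by rw [I6.sum]; ring)

lemma le_mx6 (g : I6 → ℕ) (i : I6) : g i ≤ mx6 g := by
  have l := fun a b => (le_mx a b).1
  have u := fun a b => (le_mx a b).2
  cases i
  exacts [((l _ _).trans (l _ _)).trans (l _ _), ((u _ _).trans (l _ _)).trans (l _ _),
    ((l _ _).trans (u _ _)).trans (l _ _), ((u _ _).trans (u _ _)).trans (l _ _),
    (l _ _).trans (u _ _), (u _ _).trans (u _ _)]

namespace Cr
variable {r : Cr} {b : Pb} {k ν : ℝ} {X : I6 → ℝ} {A B : Matrix I6 I6 ℝ}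

theorem rdB (S : Sem r b X A B) {y : I6 → ℝ} (hy : ∀ j, |y j| ≤ 1) {e dx dp : ℕ} {v : I6 → TM}
    {w : I6 → ℝ} (h : ∀ l, Rep (b.pt y hy) e dx dp 6 (v l) (w l)) (h1 : dx ≤ 30) (h2 : dp ≤ 5)
    (i : I6) : Rep (b.pt y hy) e (9 + dx) (1 + dp) 6 (r.dB v i) (B.mulVec w i) :=
  Rep.ad6 fun l => ((S.rB y hy i l).mul (h l) (by omega) (by omega)).scale (by rw [zero_add])

lemma dl_le (h : r.ok = true) (i : I6) : (r.dl i : ℝ) ≤ 2 ^ 19 := by
  simp only [ok, Bool.and_eq_true, all6_iff, okI, Nat.ble_eq, p2_eq] at h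
  exact_mod_cast (h.2.2.2.2 i).1

/-- The matrix `B` is an approximate inverse of `A`. -/
theorem inv (h : r.ok = true) (S : Sem r b X A B) (i : I6) : (r.dl i : ℝ) ≤ 2 ^ 19 ∧
    ∀ y : I6 → ℝ, (∀ j, |y j| ≤ 1) →
      |y i - B.mulVec (A.mulVec y) i * 2 ^ 84 / 2 ^ r.t i| ≤ (r.dl i : ℝ) / 2 ^ 20 := by
  refine ⟨dl_le h i, fun y hy => ?_⟩
  have a1 := (((Rep.cs (π := b.pt y hy) (a := 2 ^ r.t i / 2 ^ 84) 84 (9 + 15) (1 + 1) 0 (p2 (r.t i))
    (by rw [p2_eq]; push_cast; field_simp)).shy i (by decide) (by decide)).sub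
      (rdB S hy (S.rE y hy) (by decide) (by decide) i)).bnd mk_V
  rw [le_div_iff₀ (by positivity)]
  refine le_trans ?_ (le_dn _ _)
  simp only [Nat.shiftLeft_eq', Nat.shiftLeft_eq, Nat.cast_mul, Nat.cast_pow, Nat.cast_ofNat]
  rw [le_div_iff₀ (by positivity)]
  refine le_trans (le_of_eq ?_) (mul_le_mul_of_nonneg_right a1 (by positivity))
  rw [show y i - B.mulVec (A.mulVec y) i * 2 ^ 84 / 2 ^ r.t i = ((b.pt y hy).y i *
    (2 ^ r.t i / 2 ^ 84) - B.mulVec (A.mulVec y) i) * (2 ^ 84 / 2 ^ r.t i) by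
      simp only [Pb.pt]; field_simp, abs_mul, abs_of_pos (a := (2 : ℝ) ^ 84 / _) (by positivity)]
  field_simp

lemma solve' (h : r.ok = true) (S : Sem r b X A B) {w g : I6 → ℝ} {m : ℝ}
    (hg : ∀ i, |B.mulVec (A.mulVec w) i| * 2 ^ 84 / 2 ^ r.t i ≤ g i) (hm : ∀ i, g i ≤ m) (i : I6) :
    |w i| ≤ g i + r.dl i / 2 ^ 20 * (2 * m) := by
  refine key (T := fun y i => B.mulVec (A.mulVec y) i * 2 ^ 84 / 2 ^ r.t i) (w := w)
    (δ := fun i => r.dl i / 2 ^ 20) (fun c y => funext fun i => ?_)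
    (fun y hy i => (inv h S i).2 y hy) (fun i => by linarith [dl_le h i]) (fun i => ?_) hm i
  · simp only [Matrix.mulVec_smul, Pi.smul_apply, smul_eq_mul]
    ring
  · rw [abs_div, abs_mul, abs_of_pos (a := (2 : ℝ) ^ 84) (by positivity),
      abs_of_pos (a := (2 : ℝ) ^ r.t i) (by positivity)]
    exact hg i

theorem solve (h : r.ok = true) (S : Sem r b X A B) {w : I6 → ℝ} {g : I6 → ℕ}
    (hg : ∀ i, |B.mulVec (A.mulVec w) i| * 2 ^ 84 / 2 ^ r.t i ≤ (g i : ℝ) / 2 ^ 24) (i : I6) :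
    |w i| ≤ (r.sv g i : ℝ) / 2 ^ 24 := by
  have c := solve' h S (m := mx6 g / 2 ^ 24) hg (fun i => by have := le_mx6 g i; gcongr) i
  have c2 := le_dn (Nat.mul (r.dl i) (mx6 g)) 19
  simp only [sv, Nat.mul_eq, Nat.add_eq, Nat.cast_mul, Nat.cast_add] at c2 ⊢
  linarith

theorem det_ne (h : r.ok = true) (S : Sem r b X A B) : A.det ≠ 0 := fun h0 => by
  obtain ⟨w, h1, h2⟩ := Matrix.exists_mulVec_eq_zero_iff.2 h0
  refine h1 (funext fun i => ?_)
  simpa using solve' h S (w := w) (g := 0) (m := 0) (fun i => by simp [h2]) (fun _ => le_rfl) i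

theorem gg_le (h : r.ok = true) (S : Sem r b X A B) {y : I6 → ℝ} (hy : ∀ j, |y j| ≤ 1)
    {v : I6 → TM} {w : I6 → ℝ} (hv : ∀ l, Rep (b.pt y hy) 108 30 5 6 (v l) (A.mulVec w l)) (i : I6) :
    |w i| ≤ (r.sv (r.gg v) i : ℝ) / 2 ^ 24 := by
  refine solve h S (fun i => ?_) i
  have c1 := (rdB S hy hv le_rfl le_rfl i).bnd mk_V
  rw [le_div_iff₀ (by positivity)]
  refine le_trans ?_ (le_dn _ _)
  rw [div_mul_eq_mul_div]
  exact div_le_div_of_nonneg_right (by linarith) (by positivity)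

end Cr

end Pool.Agent.Lib.MP_6e7c44_mp.ER
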