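import Pool.Agent.Lib.MP_6e7c44_mp.ER.Eqz

/-! Nearly rigid motions stay close to one reduced equilibrium. -/

set_option autoImplicit false

open Set Complex Filter Topology

noncomputable section

namespace Pool.Agent.Lib.MP_6e7c44_mp.ER

open LA MR

lemma sgn_tr {a b c : ℝ} (h1 : 0 < a * b) (h2 : 0 < a * c) : 0 < b * c := by
  by_contra h
  nlinarith [mul_pos h1 h2, mul_nonneg (sq_nonneg a) (neg_nonneg.2 (not_lt.1 h))]

lemma sgn_const {f : ℝ → ℝ} (hf : Continuous f) (h : ∀ t, f t ≠ 0) (t : ℝ) : 0 < f 0 * f t := by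
  by_contra c
  obtain ⟨s, hs⟩ := mem_range_of_exists_le_of_exists_ge (c := 0) (continuous_const.mul hf)
    ⟨t, not_lt.1 c⟩ ⟨0, mul_self_nonneg (f 0)⟩
  exact mul_ne_zero (h 0) (h s) hs

lemma landau {E : Type} [NormedAddCommGroup E] [NormedSpace ℝ E] {x v a : ℝ → E}
    (hx : ∀ t, HasDerivAt x (v t) t) (hv : ∀ t, HasDerivAt v (a t) t) {A B : ℝ}
    (hB : ∀ t, ‖x t‖ ≤ B) (hA : ∀ t, ‖a t‖ ≤ A) (t : ℝ) : ‖v t‖ ≤ 2 * B + A := by
  have h := (convex_Icc t (t + 1)).norm_image_sub_le_of_norm_hasDerivWithin_le (C := A)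
    (fun s _ => ((hx s).fun_sub ((hasDerivAt_id' s).smul_const (v t))).hasDerivWithinAt)
    (fun s hs => by
      rw [one_smul]
      refine (convex_univ.norm_image_sub_le_of_norm_hasDerivWithin_le
        (fun s _ => (hv s).hasDerivWithinAt) (fun s _ => hA s) trivial trivial).trans
        (mul_le_of_le_one_right ((norm_nonneg _).trans (hA 0)) (abs_le.2 ⟨?_, ?_⟩)) <;>
        linarith [hs.1, hs.2])
    (left_mem_Icc.2 (by linarith)) (right_mem_Icc.2 (by linarith))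
  rw [add_sub_cancel_left, norm_one, mul_one] at h
  have e : v t = x (t + 1) - x t - (x (t + 1) - (t + 1) • v t - (x t - t • v t)) := by
    rw [add_smul, one_smul]; abel
  rw [e]
  linarith [norm_sub_le (x (t + 1) - x t) (x (t + 1) - (t + 1) • v t - (x t - t • v t)),
    norm_sub_le (x (t + 1)) (x t), hB t, hB (t + 1)]

/-- The compactness argument. -/
lemma cpt_eps {E : Type} [NormedAddCommGroup E] [NormedSpace ℝ E] [FiniteDimensional ℝ E]
    {U K W : Set E} (hU : IsOpen U) (hK : IsCompact K) (hKU : K ⊆ U) {F : E → E}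
    (hF : ContDiffOn ℝ 1 F U) (hW : IsOpen W) {ι : Type} {r : ι → E → ℝ}
    (hr : ∀ i, Continuous (r i)) (H : ∀ γ : ℝ → E, (∀ t, γ t ∈ K ∧ HasDerivAt γ (F (γ t)) t) →
      (∀ i s t, r i (γ s) ≤ r i (γ t)) → γ 0 ∈ W) : ∃ ε : ℝ, 0 < ε ∧ ∀ γ : ℝ → E,
      (∀ t, γ t ∈ K ∧ HasDerivAt γ (F (γ t)) t) → (∀ i s t, r i (γ s) ≤ r i (γ t) + ε) →
        ∀ t, γ t ∈ W := by
  obtain ⟨Φ, β, c1, f0, -, -, b1, un, hf⟩ := cut_flow' hU hK hKU hF
  have c2 : ∀ t, Continuous (Φ t) := fun t => c1.comp (continuous_const.prodMk continuous_id)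
  have : Nonempty (Ioi (0 : ℝ)) := ⟨⟨1, mem_Ioi.2 one_pos⟩⟩
  obtain ⟨ε, hε⟩ := (hK.diff hW).elim_directed_family_closed
    (fun ε : Ioi (0 : ℝ) => {p | (∀ t, Φ t p ∈ K) ∧ ∀ i s t, r i (Φ s p) ≤ r i (Φ t p) + ε})
    (fun ε => by
      simp only [ofPred_and, ofPred_forall]
      exact (isClosed_iInter fun t => hK.isClosed.preimage (c2 t)).inter
        (isClosed_iInter fun i => isClosed_iInter fun s => isClosed_iInter fun t =>
          isClosed_le ((hr i).comp (c2 s)) (((hr i).comp (c2 t)).add continuous_const)))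
    (eq_empty_of_forall_notMem fun p ⟨h1, h2⟩ => by
      simp only [mem_iInter, mem_ofPred] at h2
      have k := (h2 ⟨1, mem_Ioi.2 one_pos⟩).1
      have := H (fun t => Φ t p) (fun t => ⟨k t, by simpa [b1 _ (k t)] using (hf p (hKU h1.1) t).2⟩)
        fun i s t => le_of_forall_pos_le_add fun ε h => (h2 ⟨ε, h⟩).2 i s t
      exact h1.2 (f0 p ▸ this))
    (directed_of_isDirected_ge fun a b hab p hp =>
      ⟨hp.1, fun i s t => (hp.2 i s t).trans (by gcongr)⟩)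
  refine ⟨ε, ε.2, fun γ h1 h2 t => by_contra fun h => ?_⟩
  have u := un (fun s => γ (s + t)) fun s => ⟨(h1 _).1, (h1 _).2.comp_add_const s t⟩
  simp only [zero_add] at u
  exact eq_empty_iff_forall_notMem.1 hε (γ t)
    ⟨⟨(h1 t).1, h⟩, fun s => u s ▸ (h1 _).1, fun i a b => by rw [u, u]; exact h2 _ _ _⟩

lemma rig_of' {m : Fin 3 → ℝ} {q v : ℝ → Fin 3 → ℂ} {f : ℝ → ℂ} (hm : ∀ a, 0 < m a)
    (hf : Continuous f) (hq : ∀ t a, HasDerivAt (fun s => q s a) (v t a) t)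
    (hv : ∀ t a, HasDerivAt (fun s => v s a) (bkAcc m (q t) a - f t) t)
    (hc : ∀ a b, a ≠ b → q 0 a ≠ q 0 b) (hr : ∀ t a b, ‖q t a - q t b‖ = ‖q 0 a - q 0 b‖) :
    ∃ ω, Rig m (q 0) (v 0) ω := by
  have P : ∀ g : ℝ → ℂ, Continuous g → ∃ F : ℝ → ℂ, F 0 = 0 ∧ ∀ t, HasDerivAt F (g t) t :=
    fun g hg => ⟨fun u => ∫ s in (0 : ℝ)..u, g s, by simp,
      fun u => (hg.integral_hasStrictDerivAt 0 u).hasDerivAt⟩
  obtain ⟨F, F0, hF⟩ := P f hf
  obtain ⟨X, X0, hX⟩ := P F (continuous_iff_continuousAt.2 fun t => (hF t).continuousAt)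
  simpa [F0, X0] using rig_of (q := fun t a => q t a + X t) (v := fun t a => v t a + F t) hm
    (fun t a => (hq t a).fun_add (hX t))
    (fun t a => ((hv t a).fun_add (hF t)).congr_deriv (by simp [bkAcc])) (by simpa using hc)
    (by simpa using hr)

/-- The state `z` has the signs of `e` and is close to it. -/
def Cl (δ : Z3 → ℝ) (z e : Z3) : Prop := (∀ i, 0 < sg z i * sg e i) ∧ dist z e < δ e

lemma EqZ.ev {μ : Fin 3 → ℝ} {δ : Z3 → ℝ} (δ0 : ∀ e, 0 < δ e) {e : Z3} (he : EqZ μ e) :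
    ∀ᶠ z in 𝓝 e, Cl δ z e :=
  (eventually_all.2 fun i => ((sg_cont i).mul continuous_const).continuousAt.eventually
    (lt_mem_nhds (mul_self_pos.2 (he.ne i)))).and (Metric.ball_mem_nhds e (δ0 e))

lemma St.rad (μ : Fin 3 → ℝ) : ∃ δ : Z3 → ℝ, (∀ e, 0 < δ e) ∧ ∀ e, St μ e → ∀ b : ℝ → Z3,
    (∀ t, HasDerivAt b (GR μ (b t)) t) → (∀ t, dist (b t) e < δ e) →
      phys (b 0) ∈ closure (Esc μ) := by
  have : ∀ e, ∃ δ : ℝ, 0 < δ ∧ (St μ e → ∀ b : ℝ → Z3, (∀ t, HasDerivAt b (GR μ (b t)) t) →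
      (∀ t, dist (b t) e < δ) → phys (b 0) ∈ closure (Esc μ)) := fun e => by
    by_cases h : St μ e
    · exact h.imp fun δ h => ⟨h.1, fun _ => h.2⟩
    · exact ⟨1, one_pos, fun g => (h g).elim⟩
  choose δ h1 h2 using this
  exact ⟨δ, h1, h2⟩

/-- A solution that is always close to some equilibrium is always close to the same one. -/
lemma follow {μ : Fin 3 → ℝ} (hμ : RS.Ms μ) {q v : ℝ → Fin 3 → ℂ} {f : ℝ → ℂ}
    (hq : ∀ t a, HasDerivAt (fun s => q s a) (v t a) t)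
    (hv : ∀ t a, HasDerivAt (fun s => v s a) (bkAcc μ (q t) a - f t) t) {B : ℝ}
    (h0 : ∀ t, q t 1 - q t 0 ≠ 0 ∧ ‖q t 1 - q t 0‖ ≤ B) {δ : Z3 → ℝ} {e : Z3}
    (hδ : ∀ b : ℝ → Z3, (∀ t, HasDerivAt b (GR μ (b t)) t) → (∀ t, dist (b t) e < δ e) →
      phys (b 0) ∈ closure (Esc μ)) (h : ∀ t, ∃ e, EqZ μ e ∧ Cl δ (rd 1 (q t, v t)) e)
    (he : EqZ μ e) (c0 : Cl δ (rd 1 (q 0, v 0)) e) (n : e.2.1.im = 0 → 1 / 2 < |e.2.1.re|) :
    (q 0, v 0) ∈ closure (Esc μ) := by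
  have hz := fun t => rd_der one_pos (fun a => (one_mul _).symm) hμ (hq t) (hv t) (h0 t).1
  have cz := continuous_iff_continuousAt.2 fun t => (hz t).continuousAt
  choose a a1 a2 using h
  have k : ∀ t, a t = e := fun t => (a1 t).uniq hμ he (fun i => sgn_tr ((a2 t).1 i)
    (sgn_tr (sgn_const ((sg_cont i).comp cz) (fun s => left_ne_zero_of_mul ((a2 s).1 i).ne') t)
      (c0.1 i))) n
  have B0 := (norm_pos_iff.2 (h0 0).1).trans_le (h0 0).2
  obtain ⟨σ, σ0, hσ⟩ := clock (g := fun t => sc 1 (q t 1 - q t 0))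
    (continuous_iff_continuousAt.2 fun t => ContinuousAt.comp (f := fun t => q t 1 - q t 0)
      (sc_cont (h0 t).1) ((hq t 1).fun_sub (hq t 0)).continuousAt) (c := √(1 / B ^ 3))
    (by positivity) fun t => Real.sqrt_le_sqrt (by
      have := norm_pos_iff.2 (h0 t).1
      gcongr
      exact (h0 t).2)
  refine rd_cl one_pos (fun a => (one_mul _).symm) (h0 0).1 ?_
  simpa only [σ0] using hδ (fun τ => rd 1 (q (σ τ), v (σ τ)))
    (fun τ => ((hz _).scomp τ (hσ τ)).congr_deriv (inv_smul_smul₀ (sc_pos one_pos (h0 _).1).ne' _))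
    fun τ => k (σ τ) ▸ (a2 _).2

lemma bad2 {Y Z : ℂ} {w u s r : ℝ} (k : (Z + 1 / 2) * (Y + 1 / 2) = 1) (hs : 0 < s) (hr : 0 < r)
    (e : s * w = r * u) (b : Y.im = 0 ∧ |Y.re| < 1 / 2 ∨ w * Y.im < 0)
    (d : Z.im = 0 ∧ |Z.re| < 1 / 2 ∨ u * Z.im < 0) : False := by
  have k1 : (Z.re + 1 / 2) * (Y.re + 1 / 2) - Z.im * Y.im = 1 := by simpa using congrArg re k
  have k2 : (Z.re + 1 / 2) * Y.im + Z.im * (Y.re + 1 / 2) = 0 := by simpa using congrArg im k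
  have k3 : Z.im * ((Y.re + 1 / 2) ^ 2 + Y.im ^ 2) = -Y.im := by
    linear_combination (Y.re + 1 / 2) * k2 - Y.im * k1
  have k4 : Y.im * ((Z.re + 1 / 2) ^ 2 + Z.im ^ 2) = -Z.im := by
    linear_combination (Z.re + 1 / 2) * k2 - Z.im * k1
  rcases b with ⟨b1, b2⟩ | b <;> rcases d with ⟨d1, d2⟩ | d1
  · obtain ⟨b3, b4⟩ := abs_lt.1 b2
    obtain ⟨d3, d4⟩ := abs_lt.1 d2
    rw [b1] at k1; nlinarith
  · rw [b1] at k4; rw [show Z.im = 0 by linarith] at d1; linarith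
  · rw [d1] at k3; rw [show Y.im = 0 by linarith] at b; linarith
  · have := mul_nonneg (mul_pos hr (neg_pos.2 d1)).le
      (add_nonneg (sq_nonneg (Y.re + 1 / 2)) (sq_nonneg Y.im))
    have := mul_pos hs (neg_pos.2 b)
    have : r * u * (Z.im * ((Y.re + 1 / 2) ^ 2 + Y.im ^ 2)) = -(s * w * Y.im) := by
      rw [k3, e]; ring
    linarith

/-- The bodies `1` and `2` exchanged. -/
def sw (p : PS) : PS := (fun a => p.1 (Equiv.swap 1 2 a), fun a => p.2 (Equiv.swap 1 2 a))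

lemma bk_swap (m : Fin 3 → ℝ) (Q : Fin 3 → ℂ) (a : Fin 3) :
    bkAcc (fun a => m (Equiv.swap 1 2 a)) (fun a => Q (Equiv.swap 1 2 a)) a
      = bkAcc m Q (Equiv.swap 1 2 a) := by
  have s0 : Equiv.swap (1 : Fin 3) 2 0 = 0 := by decide
  obtain ⟨b0, b1, b2⟩ := bk_acc m Q
  obtain ⟨c0, c1, c2⟩ := bk_acc (fun a => m (Equiv.swap 1 2 a)) fun a => Q (Equiv.swap 1 2 a)
  match a with
  | 0 => rw [c0, s0, b0]; simp [add_comm]
  | 1 => rw [c1]; simp [b2, s0]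
  | 2 => rw [c2]; simp [b1, s0]

lemma cd_acc (m : Fin 3 → ℝ) {Q : Fin 3 → ℂ} (h : ∀ a b, a ≠ b → Q a ≠ Q b) (a : Fin 3) :
    ContDiffAt ℝ 1 (fun Q => bkAcc m Q a) Q :=
  ContDiffAt.sum fun b hb => by
    have n := sub_ne_zero.2 (h b a (Finset.ne_of_mem_erase hb))
    have c : ContDiffAt ℝ 1 (fun Q : Fin 3 → ℂ => Q b - Q a) Q := by fun_prop
    exact (contDiffAt_const.div ((c.norm ℝ n).pow 3) (pow_ne_zero _ (norm_ne_zero_iff.2 n))).smul c

/-- Nearly rigid motions of bounded size, seen from the first body. -/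
theorem redN {μ : Fin 3 → ℝ} (hμ : RS.Ms μ) (G : GoodS μ)
    (G' : GoodS fun a => μ (Equiv.swap 1 2 a)) {B : ℝ} (hB : 0 < B) : ∃ ε : ℝ, 0 < ε ∧
      ∀ q v : ℝ → Fin 3 → ℂ, (∀ t a, HasDerivAt (fun s => q s a) (v t a) t) →
        (∀ t a, HasDerivAt (fun s => v s a) (bkAcc μ (q t) a - bkAcc μ (q t) 0) t) →
        (∀ t, ‖q t‖ ≤ B ∧ ∀ a b, a ≠ b → B⁻¹ ≤ ‖q t a - q t b‖) →
        (∀ a b s t, ‖q s a - q s b‖ ≤ ‖q t a - q t b‖ + ε) → (q 0, v 0) ∈ closure (Esc μ) := by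
  have s0 : Equiv.swap (1 : Fin 3) 2 0 = 0 := by decide
  have hμ' : RS.Ms fun a => μ (Equiv.swap 1 2 a) := ⟨fun a => hμ.1 _, by
    simp only [s0, Equiv.swap_apply_left, Equiv.swap_apply_right]; linarith [hμ.2]⟩
  obtain ⟨δ, δ0, hδ⟩ := St.rad μ
  obtain ⟨κ, κ0, hκ⟩ := St.rad fun a => μ (Equiv.swap 1 2 a)
  obtain ⟨K, hK⟩ : ∃ K : Set (Fin 3 → ℂ),
    K = {Q | ‖Q‖ ≤ B ∧ ∀ a b, a ≠ b → B⁻¹ ≤ ‖Q a - Q b‖} := ⟨_, rfl⟩
  have cK : IsCompact K := (isCompact_closedBall 0 B).of_isClosed_subset (by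
    simp only [hK, ofPred_and, ofPred_forall]
    exact (isClosed_le (by fun_prop) (by fun_prop)).inter (isClosed_iInter fun a =>
      isClosed_iInter fun b => isClosed_iInter fun _ => isClosed_le (by fun_prop) (by fun_prop)))
    fun Q h => mem_closedBall_zero_iff.2 (hK ▸ h).1
  have nc : ∀ Q ∈ K, ∀ a b, a ≠ b → Q a ≠ Q b := fun Q h a b hab =>
    sub_ne_zero.1 (norm_pos_iff.1 ((inv_pos.2 hB).trans_le ((hK ▸ h).2 a b hab)))
  have cd : ∀ Q : Fin 3 → ℂ, (∀ a b, a ≠ b → Q a ≠ Q b) →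
      ContDiffAt ℝ 1 (fun Q a => bkAcc μ Q a - bkAcc μ Q 0) Q := fun Q h =>
    contDiffAt_pi.2 fun a => (cd_acc μ h a).sub (cd_acc μ h 0)
  obtain ⟨A, hA⟩ := cK.exists_bound_of_continuousOn fun Q h =>
    (cd Q (nc Q h)).continuousAt.continuousWithinAt
  have hm : ∀ (μ : Fin 3 → ℝ) a, μ a = 1 * μ a := fun μ a => (one_mul _).symm
  obtain ⟨ε, ε0, H⟩ := cpt_eps (U := {p : PS | ∀ a b, a ≠ b → p.1 a ≠ p.1 b})
    (F := fun p => (p.2, fun a => bkAcc μ p.1 a - bkAcc μ p.1 0))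
    (W := interior {p | ∃ e : PS, (∃ ω, Rig μ e.1 e.2 ω) ∧ Cl δ (rd 1 p) (rd 1 e) ∧
      Cl κ (rd 1 (sw p)) (rd 1 (sw e))}) (r := fun (i : Fin 3 × Fin 3) p => ‖p.1 i.1 - p.1 i.2‖)
    (by
      simp only [ofPred_forall]
      exact isOpen_iInter_of_finite fun a => isOpen_iInter_of_finite fun b =>
        isOpen_iInter_of_finite fun _ => isOpen_ne_fun (by fun_prop) (by fun_prop))
    (cK.prod (isCompact_closedBall 0 (2 * B + A))) (fun p h => nc _ h.1)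
    (fun p h => (contDiffAt_snd.prodMk ((cd _ h).comp p contDiffAt_fst)).contDiffWithinAt)
    isOpen_interior (fun i => by fun_prop) fun γ h1 h2 => by
      have cγ := continuous_iff_continuousAt.2 fun t => (h1 t).2.continuousAt
      obtain ⟨ω, h⟩ := rig_of' (q := fun t => (γ t).1) (v := fun t => (γ t).2) hμ.1
        (continuous_iff_continuousAt.2 fun t => ContinuousAt.comp (f := fun t => (γ t).1)
          (cd_acc μ (nc _ (h1 t).1.1) 0).continuousAt cγ.fst.continuousAt)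
        (fun t => hasDerivAt_pi.1 (h1 t).2.fst) (fun t => hasDerivAt_pi.1 (h1 t).2.snd)
        (nc _ (h1 0).1.1) fun t a b => le_antisymm (h2 (a, b) t 0) (h2 (a, b) 0 t)
      have c1 := rd_cont one_pos (p := γ 0) (sub_ne_zero.2 (h.1 1 0 (by decide)))
      have c2 := ContinuousAt.comp (f := sw) (x := γ 0) (rd_cont one_pos
        (sub_ne_zero.2 (h.swap.1 1 0 (by decide)))) (by unfold sw; fun_prop)
      exact mem_interior_iff_mem_nhds.2 (mem_of_superset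
        ((c1.eventually ((h.eqz one_pos (hm μ) hμ).1.ev δ0)).and
          (c2.eventually ((h.swap.eqz one_pos (hm _) hμ').1.ev κ0))) fun p hp => ⟨γ 0, ⟨ω, h⟩, hp⟩)
  refine ⟨ε, ε0, fun q v hq hv hb hr => ?_⟩
  have qK : ∀ t, q t ∈ K := fun t => hK ▸ hb t
  have dq := fun t => hasDerivAt_pi.2 (hq t)
  have dv := fun t => hasDerivAt_pi.2 (hv t)
  choose e e1 e2 e3 using fun t => interior_subset (H (fun t => (q t, v t))
    (fun t => ⟨⟨qK t, mem_closedBall_zero_iff.2 (landau dq dv (fun t => (hb t).1)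
      (fun t => hA _ (qK t)) t)⟩, (dq t).prodMk (dv t)⟩) (fun i => hr i.1 i.2) t)
  choose ω hω using e1
  have n : ∀ t a b, a ≠ b → q t a - q t b ≠ 0 ∧ ‖q t a - q t b‖ ≤ B + B := fun t a b h =>
    ⟨sub_ne_zero.2 (nc _ (qK t) a b h), (norm_sub_le _ _).trans (add_le_add
      ((norm_le_pi_norm _ a).trans (hb t).1) ((norm_le_pi_norm _ b).trans (hb t).1))⟩
  obtain ⟨z1, s, hs, y1⟩ := (hω 0).eqz one_pos (hm μ) hμ
  obtain ⟨z2, r, hr, y2⟩ := (hω 0).swap.eqz one_pos (hm _) hμ'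
  rcases z1.dir G with ⟨g1, g2⟩ | b
  · exact follow hμ hq hv (fun t => n t 1 0 (by decide)) (hδ _ g1)
      (fun t => ⟨_, ((hω t).eqz one_pos (hm μ) hμ).1, e2 t⟩) z1 (e2 0) g2
  rcases z2.dir G' with ⟨g1, g2⟩ | d
  · simpa using bk_cl (ContinuousLinearMap.id ℝ ℂ) one_pos one_pos (by simp) (Equiv.swap 1 2) 0 0
      (m' := μ) (by simp) (follow hμ' (q := fun t a => q t (Equiv.swap 1 2 a))
        (v := fun t a => v t (Equiv.swap 1 2 a)) (fun t a => hq t _)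
        (fun t a => by rw [bk_swap]; exact hv t _) (fun t => n t _ _ (by decide)) (hκ _ g1)
        (fun t => ⟨_, ((hω t).swap.eqz one_pos (hm _) hμ').1, e3 t⟩) z2 (e3 0) g2)
  refine (bad2 ?_ hs hr (y1.symm.trans y2) b d).elim
  have x1 := sub_ne_zero.2 ((hω 0).1 1 0 (by decide))
  have x2 := sub_ne_zero.2 ((hω 0).1 2 0 (by decide))
  simp only [rd, s0, Equiv.swap_apply_left, Equiv.swap_apply_right, sub_add_cancel]
  field_simp

/-- Every nearly rigid motion starts at a limit of escaping states. -/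
theorem redS (m : Fin 3 → ℝ) (hm : ∀ a, 0 < m a) (G : GoodS fun a => m a / (m 0 + m 1 + m 2))
    (G' : GoodS fun a => m (Equiv.swap 1 2 a) / (m 0 + m 1 + m 2)) (K : ℝ) : ∃ ε : ℝ, 0 < ε ∧
      ∀ q v : ℝ → Fin 3 → ℂ, (∀ t a, HasDerivAt (fun s => q s a) (v t a) t) →
        (∀ t a, HasDerivAt (fun s => v s a)
          (∑ b ∈ Finset.univ.erase a, (m b / ‖q t b - q t a‖ ^ 3) • (q t b - q t a)) t) →
        (∀ a b, a ≠ b → q 0 a ≠ q 0 b) →
        (∀ a b c d, c ≠ d → ‖q 0 a - q 0 b‖ ≤ K * ‖q 0 c - q 0 d‖) →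
        (∀ s t a b, ‖q s a - q s b‖ ≤ (1 + ε) * ‖q t a - q t b‖) →
        (q 0, v 0) ∈ closure (Esc m) := by
  have hM : 0 < m 0 + m 1 + m 2 := add_pos (add_pos (hm 0) (hm 1)) (hm 2)
  have hB : 0 < 2 * (|K| + 1) := by positivity
  obtain ⟨ε, ε0, H⟩ := redN ⟨fun a => div_pos (hm a) hM, by field_simp⟩ G G' hB
  refine ⟨min 1 (ε / (2 * (|K| + 1))), by positivity, fun q v hq hv hc hK hr => ?_⟩
  have x0 := sub_ne_zero.2 (hc 1 0 (by decide))
  have hs := sc_pos hM x0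
  have s2 := sc_sq hM (q 0 1 - q 0 0)
  have hρ := norm_pos_iff.2 x0
  have k1 := fun a b => hK a b 1 0 (by decide)
  have k2 := hK 1 0
  generalize sc _ (q 0 1 - q 0 0) = s at hs s2
  generalize ‖q 0 1 - q 0 0‖ = ρ at hρ s2 k1 k2
  generalize m 0 + m 1 + m 2 = M at hM s2 H
  have r2 : ∀ s t a b, ‖q s a - q s b‖ ≤ 2 * ‖q t a - q t b‖ := fun s t a b =>
    (hr s t a b).trans (mul_le_mul_of_nonneg_right
      (by linarith [min_le_left 1 (ε / (2 * (|K| + 1)))]) (norm_nonneg _))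
  have up : ∀ t a b, ‖q t a - q t b‖ ≤ 2 * (|K| + 1) * ρ := fun t a b => by
    nlinarith [r2 t 0 a b, k1 a b, le_abs_self K]
  have e : ∀ t a b, ‖ρ⁻¹ • (q t a - q t 0) - ρ⁻¹ • (q t b - q t 0)‖ = ρ⁻¹ * ‖q t a - q t b‖ :=
    fun t a b => by
      rw [← smul_sub, sub_sub_sub_cancel_right, norm_smul, Real.norm_of_nonneg (by positivity)]
  have hl : ∀ t : ℝ, HasDerivAt (fun t : ℝ => s⁻¹ * t) s⁻¹ t := fun t => by
    simpa using (hasDerivAt_id' t).const_mul s⁻¹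
  have := bk_cl (ρ • ContinuousLinearMap.id ℝ ℂ) hρ hs (by simp [abs_of_pos hρ]) 1 (q 0 0) (v 0 0)
    (m' := m) (fun b => by rw [s2]; simp only [Equiv.Perm.coe_one, id]; field_simp)
    (H (fun t a => ρ⁻¹ • (q (s⁻¹ * t) a - q (s⁻¹ * t) 0))
      (fun t a => ρ⁻¹ • s⁻¹ • (v (s⁻¹ * t) a - v (s⁻¹ * t) 0))
      (fun t a => (((hq _ a).fun_sub (hq _ 0)).scomp t (hl t)).const_smul ρ⁻¹) (fun t a => ?_)
      (fun t => ⟨(pi_norm_le_iff_of_nonneg hB.le).2 fun a => ?_, fun a b hab => ?_⟩)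
      fun a b t u => ?_)
  · have n1 := ofReal_ne_zero.2 hρ.ne'
    have n2 := ofReal_ne_zero.2 hs.ne'
    refine mem_of this (fun a => ?_) fun a => ?_ <;> simp <;> field_simp <;> ring
  · have c : ∀ Q : Fin 3 → ℂ, ∀ a, bkAcc (fun a => m a / M) (fun a => ρ⁻¹ • (Q a - Q 0)) a
        = ρ⁻¹ • s⁻¹ • s⁻¹ • bkAcc m Q a := fun Q a => by
      simp only [bkAcc, Finset.smul_sum, ← smul_sub, sub_sub_sub_cancel_right, smul_smul, norm_smul,
        Real.norm_of_nonneg (inv_pos.2 hρ).le]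
      refine Finset.sum_congr rfl fun b _ => ?_
      rw [← mul_assoc s⁻¹, ← sq, inv_pow, s2]
      congr 1
      by_cases h : ‖Q b - Q a‖ = 0
      · simp [h]
      · field_simp
    refine ((((((hv _ a).fun_sub (hv _ 0)).scomp t (hl t)).const_smul s⁻¹).const_smul
      ρ⁻¹)).congr_deriv ?_
    rw [c, c, ← smul_sub, ← smul_sub, ← smul_sub]
    rfl
  · rw [norm_smul, Real.norm_of_nonneg (by positivity), inv_mul_le_iff₀ hρ, mul_comm ρ]
    exact up _ a 0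
  · rw [e, le_inv_mul_iff₀ hρ, mul_inv_le_iff₀ hB]
    nlinarith [r2 0 (s⁻¹ * t) a b, k2 a b hab, le_abs_self K, abs_nonneg K,
      norm_nonneg (q 0 a - q 0 b), norm_nonneg (q (s⁻¹ * t) a - q (s⁻¹ * t) b)]
  · rw [e, e, inv_mul_le_iff₀ hρ, mul_add, mul_inv_cancel_left₀ hρ.ne']
    have a1 := mul_le_mul (min_le_right 1 (ε / (2 * (|K| + 1)))) (up (s⁻¹ * u) a b) (norm_nonneg _)
      (by positivity)
    rw [← mul_assoc, div_mul_cancel₀ _ hB.ne'] at a1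
    linarith [hr (s⁻¹ * t) (s⁻¹ * u) a b]

end Pool.Agent.Lib.MP_6e7c44_mp.ER
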