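import Pool.Agent.Lib.MP_6e7c44_mp.ER.Chk

/-! The box of masses and the boxes of the two collinear states. -/

set_option autoImplicit false

namespace Pool.Agent.Lib.MP_6e7c44_mp.ER

def bx : Bx := ⟨3998839063438572326, 3483021982277468988, 8, 197987⟩

def ceA : Ce where
  P | .i1 => 13000746658028940889 | .i2 => 22236761444645559792 | .i5 => 15671844358099073987
    | _ => 0
  N _ := 0
  e := 32
  h j := cond j 10816303977891144584 26148634783588363104

def ceB : Ce where
  P | .i1 => 15094506963731167874 | _ => 0
  N | .i2 => 27670116110564327424 | .i5 => 22641760445596751811 | _ => 0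
  e := 32
  h j := cond j 18446744073709551616 9223372036854775808

end Pool.Agent.Lib.MP_6e7c44_mp.ER
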