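import Pool.Agent.Lib.MP_6e7c44_mp.ER.RedM

/-! The reduced equilibria are told apart by five signs. -/

set_option autoImplicit false

open Set Complex Filter Topology

noncomputable section

namespace Pool.Agent.Lib.MP_6e7c44_mp.ER

open LA MR

/-- The orbits near the Lagrange state and near the Euler states with an outer third body start at
limits of escaping states. -/
def GoodS (μ : Fin 3 → ℝ) : Prop := St μ (lag I) ∧ ∀ Y w : ℝ, 0 < w → 1 / 2 < |Y| →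
  fr ((μ 0 - μ 1) / 2) (μ 2) (co (rig Y w)) = 0 → St μ (rig Y w)

/-- The reduced equilibria. -/
def EqZ (μ : Fin 3 → ℝ) (z : Z3) : Prop := ∃ (Y : ℂ) (w : ℝ), z = rig Y w ∧ w ≠ 0 ∧
  (Y.im = 0 ∧ |Y.re| ≠ 1 / 2 ∧
    (∀ u : ℝ, u ^ 2 = w ^ 2 → fr ((μ 0 - μ 1) / 2) (μ 2) (co (rig Y.re u)) = 0) ∨
      (Y = cL ∨ Y = -cL) ∧ (w = 1 ∨ w = -1))

lemma fr_of {μ : Fin 3 → ℝ} (hμ : RS.Ms μ) {Y u : ℝ}
    (h1 : (u : ℂ) ^ 2 = μ 0 + μ 1 + μ 2 * (ff (Y + 1 / 2) - ff (Y - 1 / 2)))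
    (h2 : (u : ℂ) ^ 2 * (Y + 1 / 2) = (μ 0 + μ 2) * ff (Y + 1 / 2) + μ 1 * (ff (Y - 1 / 2) + 1)) :
    fr ((μ 0 - μ 1) / 2) (μ 2) (co (rig Y u)) = 0 := by
  have m3 := hμ.2
  have e : ((Y : ℂ) + 1 / 2).re = Y + 1 / 2 := by simp
  have y : yc (co (rig Y u)) = Y := rfl
  rw [← ofReal_pow] at h1 h2
  have d1 := congrArg re h1
  have d2 := congrArg re h2
  have i1 : (ff (Y + 1 / 2)).im = 0 := by simp [ff, -ofReal_inv, -ofReal_pow]
  have i2 : (ff (Y - 1 / 2)).im = 0 := by simp [ff, -ofReal_inv, -ofReal_pow]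
  funext i
  cases i <;> simp only [fr, y, Fc] <;> generalize ff (Y + 1 / 2) = A at * <;>
    generalize ff (Y - 1 / 2) = B at * <;>
    simp only [co, rig, sub_re, add_re, add_im, mul_re, mul_im, ofReal_re, ofReal_im, smul_re,
      smul_im, smul_eq_mul, one_re, I_re, I_im, i1, i2, Pi.zero_apply, e] at d1 d2 ⊢
  · linear_combination d1 + m3
  · ring
  · ring
  · ring
  · linear_combination d2 - d1 / 2 - ((A.re + B.re) / 2) * (-m3)
  · ring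

lemma eqz_of {μ : Fin 3 → ℝ} (hμ : RS.Ms μ) {c : ℂ} {w : ℝ} (c0 : c ≠ 0) (c1 : c - 1 ≠ 0)
    (h1 : (w : ℂ) ^ 2 = μ 0 + μ 1 + μ 2 * (ff c - ff (c - 1)))
    (h2 : (w : ℂ) ^ 2 * c = (μ 0 + μ 2) * ff c + μ 1 * (ff (c - 1) + 1)) :
    EqZ μ (rig (c - 1 / 2) w) := by
  refine ⟨_, _, rfl, ?_⟩
  rcases shape hμ c0 c1 h1 h2 with ⟨a1, a2⟩ | ⟨a1, a2⟩
  · obtain ⟨Y, rfl⟩ : ∃ Y : ℝ, c = Y + 1 / 2 := ⟨c.re - 1 / 2, Complex.ext (by simp) (by simpa)⟩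
    have e : ((Y : ℂ) + 1 / 2).re = Y + 1 / 2 := by simp
    rw [e, add_sub_cancel_right] at a2
    rw [show (Y : ℂ) + 1 / 2 - 1 = Y - 1 / 2 by ring] at h1 h2 c1
    rw [add_sub_cancel_right, ofReal_re]
    have n : |Y| ≠ 1 / 2 := fun h => by
      rcases (abs_eq (by norm_num)).1 h with rfl | rfl
      · exact c1 (by norm_num)
      · exact c0 (by norm_num)
    refine ⟨fun h => ?_, .inl ⟨rfl, n, fun u hu => fr_of hμ ?_ ?_⟩⟩
    · obtain ⟨b1, b2⟩ := abs_lt.1 (lt_of_le_of_ne (le_of_not_gt fun b => a2 b h) n)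
      have e0 := (ff_re (show 0 < Y + 1 / 2 by linarith)).1
      have e1 := (ff_re (show 0 < 1 / 2 - Y by linarith)).2
      push_cast at e0 e1
      rw [neg_sub] at e1
      have d := congrArg re h1
      simp only [h, add_re, mul_re, sub_re, ofReal_re, ofReal_im, e0, e1] at d
      have := mul_nonneg (hμ.1 2).le
        (add_nonneg (sq_nonneg (Y + 1 / 2)⁻¹) (sq_nonneg (1 / 2 - Y)⁻¹))
      simp [-one_div, -inv_pow] at d
      linarith [hμ.1 0, hμ.1 1]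
    · rwa [← ofReal_pow, hu, ofReal_pow]
    · rwa [← ofReal_pow, hu, ofReal_pow]
  · exact ⟨by rcases a2 with rfl | rfl <;> norm_num,
      .inr ⟨a1.imp (fun h => by rw [h]; ring) fun h => by rw [h]; ring, a2⟩⟩

lemma Rig.eqz {m μ : Fin 3 → ℝ} {Q V : Fin 3 → ℂ} {ω M : ℝ} (h : Rig m Q V ω) (hM : 0 < M)
    (hm : ∀ a, m a = M * μ a) (hμ : RS.Ms μ) :
    EqZ μ (rd M (Q, V)) ∧ ∃ s : ℝ, 0 < s ∧ ω = s * (rd M (Q, V)).1.im := by
  obtain ⟨c, w, s, hs, rfl, c0, c1, hc, h1, h2, -⟩ := h.nf hM hm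
  have x0 : Q 1 - Q 0 ≠ 0 := sub_ne_zero.2 (h.1 1 0 (by decide))
  have hs' := sc_pos hM x0
  have n := ofReal_ne_zero.2 hs'.ne'
  obtain ⟨u, hu⟩ : ∃ u, s * w = sc M (Q 1 - Q 0) * u := ⟨_, (mul_div_cancel₀ _ hs'.ne').symm⟩
  obtain ⟨v1, a1⟩ := h.2 1
  have v2 := (h.2 2).1
  have e : rd M (Q, V) = rig (c - 1 / 2) u := by
    simp only [rd, rig, v1, v2, hc, hu, Prod.mk.injEq]
    push_cast
    refine ⟨?_, ?_, ?_⟩ <;> field_simp
  have k : (u : ℂ) ^ 2 = w ^ 2 := by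
    obtain ⟨b0, b1, -⟩ := bk_acc m Q
    have e3 : Q 2 - Q 1 = (c - 1) * (Q 1 - Q 0) := by linear_combination hc
    have f1 : ff (Q 1 - Q 0) = ((‖Q 1 - Q 0‖ ^ 3)⁻¹ : ℝ) * (Q 1 - Q 0) := rfl
    have s2 : (M : ℂ) * ((‖Q 1 - Q 0‖ ^ 3)⁻¹ : ℝ) = (sc M (Q 1 - Q 0) : ℂ) ^ 2 := by
      exact_mod_cast (sc_sq hM _).symm
    rw [← neg_sub (Q 1), ff_neg] at b1
    rw [b0, b1, hu] at a1
    simp only [e3, hc, bk_ff_mul, f1, hm] at a1
    generalize (‖Q 1 - Q 0‖ ^ 3)⁻¹ = r at a1 s2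
    push_cast at a1
    refine mul_left_cancel₀ (mul_ne_zero (pow_ne_zero 2 n) x0) ?_
    rw [h1]
    linear_combination a1 + (Q 1 - Q 0) * (μ 0 + μ 1 + μ 2 * (ff c - ff (c - 1))) * s2
  rw [e]
  exact ⟨eqz_of hμ c0 c1 (k.trans h1) (k ▸ h2), _, hs', by simpa [rig] using hu⟩

/-- The signs. -/
def sg (z : Z3) : Fin 5 → ℝ :=
  ![z.1.im, z.2.1.im - 1 / 4, z.2.1.im + 1 / 4, z.2.1.re - 1 / 2, z.2.1.re + 1 / 2]

lemma sg_cont (i : Fin 5) : Continuous fun z => sg z i := by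
  fin_cases i <;> simp [sg] <;> fun_prop

lemma cL_eq : cL.re = 0 ∧ 1 / 4 < cL.im := by
  have : (1 : ℝ) < √3 := Real.lt_sqrt_of_sq_lt (by norm_num)
  simp only [cL, mul_re, mul_im, I_re, I_im, ofReal_re, ofReal_im]
  constructor <;> linarith

lemma EqZ.ne {μ : Fin 3 → ℝ} {z : Z3} (h : EqZ μ z) (i : Fin 5) : sg z i ≠ 0 := by
  obtain ⟨k1, k2⟩ := cL_eq
  obtain ⟨Y, w, rfl, w0, ⟨a, b, -⟩ | ⟨rfl | rfl, -⟩⟩ := h <;> fin_cases i <;>
    simp only [sg, rig] <;> simp [*] <;> intro e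
  · exact b (by rw [show Y.re = 1 / 2 by linarith]; norm_num)
  · exact b (by rw [show Y.re = -(1 / 2) by linarith]; norm_num)
  all_goals linarith

/-- An equilibrium is determined by its signs unless the third body is in the middle. -/
lemma EqZ.uniq {μ : Fin 3 → ℝ} (hμ : RS.Ms μ) {z e : Z3} (h : EqZ μ z) (g : EqZ μ e)
    (s : ∀ i, 0 < sg z i * sg e i) (n : e.2.1.im = 0 → 1 / 2 < |e.2.1.re|) : z = e := by
  obtain ⟨k1, k2⟩ := cL_eq
  have s0 := s 0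
  have s1 := s 1
  have s2 := s 2
  have s3 := s 3
  have s4 := s 4
  obtain ⟨Y, w, rfl, -, h⟩ := h
  obtain ⟨Z, u, rfl, -, g⟩ := g
  simp only [sg, rig] at s0 s1 s2 s3 s4 n
  simp only [Matrix.cons_val, mul_im, ofReal_re, ofReal_im, I_re, I_im, mul_one, mul_zero,
    add_zero] at s0 s1 s2 s3 s4
  have f : Y = Z → w ^ 2 = u ^ 2 → rig Y w = rig Z u := fun a b => by
    rcases sq_eq_sq_iff_eq_or_eq_neg.1 b with rfl | rfl
    · rw [a]
    · nlinarith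
  have m0 := hμ.1 0
  have m1 := hμ.1 1
  have m2 := (hμ.1 2).le
  have m3 := hμ.2
  have hk : |(μ 0 - μ 1) / 2| ≤ 1 / 2 := abs_le.2 ⟨by linarith, by linarith⟩
  have p : ∀ k a b : ℝ, |k| ≤ 1 / 2 → 1 / 2 < a → 1 / 2 < b → phi k (μ 2) a = 0 →
      phi k (μ 2) b = 0 → a = b := fun k a b hk ha hb pa pb => by
    obtain ⟨c, d⟩ := phi_loc hk m2 (by linarith) ha pa hb pb.le pb.ge
    exact le_antisymm d c
  rcases h with ⟨a, -, b⟩ | ⟨a, b⟩ <;> rcases g with ⟨c, -, d⟩ | ⟨c, d⟩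
  · rcases lt_abs.1 (n c) with j | j
    · have i : 1 / 2 < Y.re := by nlinarith
      obtain ⟨x1, x2⟩ := eul_pos i (b w rfl)
      obtain ⟨y1, y2⟩ := eul_pos j (d u rfl)
      have r := p _ _ _ hk i j x1 y1
      exact f (Complex.ext r (a.trans c.symm)) (by rw [x2, y2, r])
    · have i : Y.re < -(1 / 2) := by nlinarith
      obtain ⟨x1, x2⟩ := eul_neg i (b w rfl)
      obtain ⟨y1, y2⟩ := eul_neg (by linarith) (d u rfl)
      have r := p _ _ _ (abs_neg ((μ 0 - μ 1) / 2) ▸ hk) (by linarith) j x1 y1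
      exact f (Complex.ext (neg_injective r) (a.trans c.symm)) (by rw [x2, y2, r])
  · rcases c with rfl | rfl <;> simp only [a, neg_im] at s1 s2 <;> exfalso <;> linarith
  · rcases a with rfl | rfl <;> simp only [c, neg_im] at s1 s2 <;> exfalso <;> linarith
  · refine f ?_ (by rcases b with rfl | rfl <;> rcases d with rfl | rfl <;> norm_num)
    rcases a with rfl | rfl <;> rcases c with rfl | rfl
    · rfl
    · exfalso; simp only [neg_im] at s1; nlinarith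
    · exfalso; simp only [neg_im] at s1; nlinarith
    · rfl

lemma EqZ.dir {μ : Fin 3 → ℝ} (G : GoodS μ) {z : Z3} (h : EqZ μ z) :
    (St μ z ∧ (z.2.1.im = 0 → 1 / 2 < |z.2.1.re|)) ∨
      (z.2.1.im = 0 ∧ |z.2.1.re| < 1 / 2 ∨ z.1.im * z.2.1.im < 0) := by
  obtain ⟨k1, k2⟩ := cL_eq
  have k3 := bk_cL.2
  have l : St μ (rig cL 1) := by simpa [lag, rig] using G.1
  obtain ⟨Y, w, rfl, w0, ⟨a, b, f⟩ | ⟨rfl | rfl, rfl | rfl⟩⟩ := h
  · obtain ⟨Y, rfl⟩ : ∃ y : ℝ, Y = y := ⟨Y.re, Complex.ext rfl a⟩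
    rcases lt_or_gt_of_ne b with b | b
    · exact .inr (.inl ⟨a, b⟩)
    refine .inl ⟨?_, fun _ => b⟩
    rcases lt_or_gt_of_ne w0 with d | d
    · exact St.cj (by simpa [cj, rig] using G.2 Y (-w) (by linarith) b (f _ (by ring)))
    · exact G.2 Y w d b (f _ rfl)
  · exact .inl ⟨l, fun h => by simp only [rig] at h; linarith⟩
  · exact .inr (.inr (by simp [rig]; linarith))
  · exact .inr (.inr (by simp [rig]; linarith))
  · exact .inl ⟨St.cj (by simpa [cj, rig, k3] using l), fun h => by simp [rig] at h; linarith⟩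

end Pool.Agent.Lib.MP_6e7c44_mp.ER
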