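import Pool.Agent.Lib.MP_6e7c44_mp.ER.SemB

/-! The vector field near the centre of a core. -/

set_option autoImplicit false

open Set Filter Topology

noncomputable section

namespace Pool.Agent.Lib.MP_6e7c44_mp.ER

open LA hiding TM Rep Pt Raw mX mA mB Traj Out Chain escape exists_step
open MR

lemma inv_err' {H n ε : ℝ} (h0 : 0 ≤ H) (n0 : 0 ≤ n) (h1 : |H * H * n ^ 2 - 1| ≤ ε)
    (h2 : ε ≤ 1 / 17) : 0 < n ∧ |n⁻¹ - H| ≤ 9 / 16 * ε * H ∧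
      |n⁻¹ ^ 2 - H * H| ≤ 17 / 16 * ε * (H * H) := by
  obtain ⟨h3, h4⟩ := abs_le.1 h1
  have np : 0 < n := n0.lt_of_ne fun h => by rw [← h] at h3; nlinarith
  obtain ⟨z, rfl⟩ : ∃ z, H = z * n⁻¹ := ⟨H * n, by field_simp⟩
  have ip : 0 < n⁻¹ := inv_pos.2 np
  have z0 : 0 ≤ z := nonneg_of_mul_nonneg_left h0 ip
  have e1 : z * n⁻¹ * (z * n⁻¹) * n ^ 2 = z ^ 2 := by field_simp
  rw [e1] at h3 h4
  have e0 : 0 ≤ ε := by linarith
  have z2 : 97 / 100 ≤ z := by nlinarith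
  have z1 : |1 - z| ≤ 100 / 197 * ε := abs_le.2 ⟨by nlinarith, by nlinarith⟩
  refine ⟨np, ?_, ?_⟩
  · rw [show n⁻¹ - z * n⁻¹ = (1 - z) * n⁻¹ by ring, abs_mul, abs_of_pos ip]
    have : 100 / 197 * ε ≤ 9 / 16 * ε * z := by nlinarith
    nlinarith [mul_le_mul_of_nonneg_right (z1.trans this) ip.le]
  · rw [show n⁻¹ ^ 2 - z * n⁻¹ * (z * n⁻¹) = (1 - z ^ 2) * n⁻¹ ^ 2 by ring, abs_mul,
      abs_of_pos (pow_pos ip 2)]
    have a1 : |1 - z ^ 2| ≤ ε := abs_le.2 ⟨by linarith, by linarith⟩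
    have a2 : ε ≤ 17 / 16 * ε * z ^ 2 := by nlinarith
    nlinarith [mul_le_mul_of_nonneg_right (a1.trans a2) (pow_pos ip 2).le]

lemma err_dn' {π : Pt} {e dx dp dr : ℕ} {t : TM} {v w ε : ℝ} {n : ℕ} (c : ℕ)
    (hk : Rep π e dx dp dr t v) (h : |w - v| ≤ c / 16 * ε * v) (h0 : 0 ≤ v) (e0 : 0 ≤ ε)
    (hn : ε * 2 ^ 136 = n) :
    Rep π e dx dp dr (t.err (dn (Nat.mul (Nat.mul c n) t.bd0) 140)) w := by
  refine hk.err (le_trans ?_ (le_dn _ _))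
  have h1 := hk.le0
  rw [abs_of_nonneg h0] at h1
  rw [Nat.mul_eq, Nat.mul_eq, Nat.cast_mul, Nat.cast_mul, ← hn, le_div_iff₀ (by positivity)]
  calc |w - v| * 2 ^ e * 2 ^ 140 ≤ c / 16 * ε * v * 2 ^ e * 2 ^ 140 := by gcongr
    _ = c * (ε * 2 ^ 136) * (v * 2 ^ e) := by ring
    _ ≤ _ := by gcongr

/-- Minus the attraction to first order, real part. -/
def mre (X e : I6 → ℝ) (g h a c : ℝ) : ℝ :=
  (2 * (a * g ^ 3 + c * h ^ 3) - 3 * (a * g ^ 5 + c * h ^ 5) * X .i3 ^ 2) * e .i2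
    + 3 * ((a * g ^ 5 + c * h ^ 5) * X .i2 + (a * g ^ 5 - c * h ^ 5) / 2) * X .i3 * e .i3
    - ((a * g ^ 3 + c * h ^ 3) * X .i2 + (a * g ^ 3 - c * h ^ 3) / 2)

/-- Minus the attraction to first order, imaginary part. -/
def mim (X e : I6 → ℝ) (g h a c : ℝ) : ℝ :=
  3 * ((a * g ^ 5 + c * h ^ 5) * X .i2 + (a * g ^ 5 - c * h ^ 5) / 2) * X .i3 * e .i2
    - ((a * g ^ 3 + c * h ^ 3 - 3 * (a * g ^ 5 + c * h ^ 5) * X .i3 ^ 2) * e .i3
      + (a * g ^ 3 + c * h ^ 3) * X .i3)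

/-- The vector field to first order. -/
def rv (k ν : ℝ) (X e : I6 → ℝ) (g h : ℝ) : I6 → ℝ
  | .i0 => X .i0 * (e .i0 + X .i0 / 2) + 2 * X .i1 * (e .i1 + X .i1 / 2) + ν - 1
      + mre X e g h ν (-ν)
  | .i1 => mim X e g h ν (-ν) - (X .i1 * (e .i0 + X .i0 / 2) + X .i0 * (e .i1 + X .i1 / 2)) / 2
  | .i2 => e .i4 + X .i4 + X .i1 * (e .i3 + X .i3 / 2) + X .i3 * (e .i1 + X .i1 / 2)
      - (X .i0 * (e .i2 + X .i2 / 2) + X .i2 * (e .i0 + X .i0 / 2))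
  | .i3 => e .i5 + X .i5 - (X .i0 * (e .i3 + X .i3 / 2) + X .i1 * (e .i2 + X .i2 / 2)
      + X .i3 * (e .i0 + X .i0 / 2) + X .i2 * (e .i1 + X .i1 / 2))
  | .i4 => (X .i0 * (e .i4 + X .i4 / 2) + X .i4 * (e .i0 + X .i0 / 2)) / 2
      + (X .i1 * (e .i5 + X .i5 / 2) + X .i5 * (e .i1 + X .i1 / 2)) + k
      + mre X e g h (1 / 2 + k) (1 / 2 - k)
  | .i5 => (X .i0 * (e .i5 + X .i5 / 2) + X .i5 * (e .i0 + X .i0 / 2)) / 2
      - (X .i1 * (e .i4 + X .i4 / 2) + X .i4 * (e .i1 + X .i1 / 2))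
      + mim X e g h (1 / 2 + k) (1 / 2 - k)

/-- The weighted remainder of the attraction. -/
def rm (X e : I6 → ℝ) (a c : ℝ) : ℂ := a • rem X e true + c • rem X e false

/-- The terms of higher order. -/
def qd (k ν : ℝ) (X e : I6 → ℝ) : I6 → ℝ
  | .i0 => e .i0 * e .i0 / 2 + e .i1 * e .i1 - (rm X e ν (-ν)).re
  | .i1 => -(e .i0 * e .i1) / 2 - (rm X e ν (-ν)).im
  | .i2 => e .i1 * e .i3 - e .i0 * e .i2
  | .i3 => -(e .i0 * e .i3) - e .i1 * e .i2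
  | .i4 => e .i0 * e .i4 / 2 + e .i1 * e .i5 - (rm X e (1 / 2 + k) (1 / 2 - k)).re
  | .i5 => e .i0 * e .i5 / 2 - e .i1 * e .i4 - (rm X e (1 / 2 + k) (1 / 2 - k)).im

lemma tayF (X e : I6 → ℝ) (h : ∀ j, 0 < ‖LA.Raw.yj X j‖) (a c : ℝ) :
    (Fc a c (yc (X + e))).re
        = (rm X e a c).re - mre X e ‖LA.Raw.yj X true‖⁻¹ ‖LA.Raw.yj X false‖⁻¹ a c ∧
      (Fc a c (yc (X + e))).im
        = (rm X e a c).im - mim X e ‖LA.Raw.yj X true‖⁻¹ ‖LA.Raw.yj X false‖⁻¹ a c := by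
  have k : ∀ j, ‖LA.Raw.yj X j‖⁻¹ ^ 2 * ‖LA.Raw.yj X j‖ ^ 2 = 1 := fun j => by
    have := (h j).ne'; field_simp
  have k0 := k true
  have k1 := k false
  have e0 : Fc a c (yc (X + e))
      = a • ff (LA.Raw.yj X true + yc e) + c • ff (LA.Raw.yj X false + yc e) := by
    rw [← yj_add, ← yj_add]; rfl
  rw [sq_norm' (LA.Raw.yj X _)] at k0 k1
  have a1 : (LA.Raw.yj X true).re = X .i2 + 1 / 2 := by simp [LA.Raw.yj, yc]
  have a2 : (LA.Raw.yj X false).re = X .i2 - 1 / 2 := by simp [LA.Raw.yj, yc]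
  have a3 : ∀ j, (LA.Raw.yj X j).im = X .i3 := fun j => by cases j <;> simp [LA.Raw.yj, yc]
  have a4 : (yc e).re = e .i2 := rfl
  have a5 : (yc e).im = e .i3 := rfl
  have f1 : ∀ y : ℂ, (ff y).re = ‖y‖⁻¹ ^ 3 * y.re ∧ (ff y).im = ‖y‖⁻¹ ^ 3 * y.im := fun y => by
    simp only [ff, Complex.smul_re, Complex.smul_im, smul_eq_mul, inv_pow, and_self]
  have f2 : ∀ y z : ℂ, (dff y z).re = ‖y‖⁻¹ ^ 3 * z.re - 3 * ‖y‖⁻¹ ^ 5 * dot y z * y.re ∧
      (dff y z).im = ‖y‖⁻¹ ^ 3 * z.im - 3 * ‖y‖⁻¹ ^ 5 * dot y z * y.im := fun y z => by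
    simp only [dff, Complex.smul_re, Complex.smul_im, smul_eq_mul, inv_pow, Complex.sub_re,
      Complex.sub_im, and_self]
  simp only [a1, a2, a3] at k0 k1
  simp only [e0, rm, rem, mre, mim, Complex.sub_re, Complex.sub_im, Complex.add_re, Complex.add_im,
    Complex.smul_re, Complex.smul_im, smul_eq_mul, f2, f1 (LA.Raw.yj X _), dot, a1, a2, a3, a4, a5]
  constructor
  · linear_combination (-3 * a * e .i2 * ‖LA.Raw.yj X true‖⁻¹ ^ 3) * k0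
      + (-3 * c * e .i2 * ‖LA.Raw.yj X false‖⁻¹ ^ 3) * k1
  · ring

lemma tay' (k ν : ℝ) (X e : I6 → ℝ) (h : ∀ j, 0 < ‖LA.Raw.yj X j‖) (l : I6) :
    fr k ν (X + e) l
      = rv k ν X e ‖LA.Raw.yj X true‖⁻¹ ‖LA.Raw.yj X false‖⁻¹ l + qd k ν X e l := by
  cases l <;> simp only [fr, rv, qd, Pi.add_apply, (tayF X e h _ _).1, (tayF X e h _ _).2] <;> ring

lemma qd_zero (k ν : ℝ) (X : I6 → ℝ) (l : I6) : qd k ν X 0 l = 0 := by
  have h0 : yc 0 = 0 := rfl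
  have h : ∀ j, rem X 0 j = 0 := fun j => by simp [rem, h0, dff, dot]
  cases l <;> simp [qd, rm, h]

lemma rv_smul (k ν s g h : ℝ) (X e : I6 → ℝ) (l : I6) :
    rv k ν X (s • e) g h l = (1 - s) * rv k ν X 0 g h l + s * rv k ν X e g h l := by
  cases l <;> simp only [rv, mre, mim, Pi.smul_apply, smul_eq_mul, Pi.zero_apply] <;> ring

lemma tay_s (k ν s : ℝ) (X e : I6 → ℝ) (h : ∀ j, 0 < ‖LA.Raw.yj X j‖) (l : I6) :
    fr k ν (X + s • e) l - ((1 - s) * fr k ν X l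
      + s * rv k ν X e ‖LA.Raw.yj X true‖⁻¹ ‖LA.Raw.yj X false‖⁻¹ l) = qd k ν X (s • e) l := by
  have h0 := tay' k ν X 0 h l
  rw [add_zero, qd_zero, add_zero] at h0
  rw [tay' k ν X _ h, rv_smul, h0]
  ring

lemma yc_smul (s : ℝ) (e : I6 → ℝ) : yc (s • e) = s • yc e := by
  apply Complex.ext <;> simp [yc]

lemma rem_le {x e : ℂ} {s t g : ℝ} (s0 : 0 ≤ s) (s1 : s ≤ 1) (t0 : 0 ≤ t)
    (he : ‖e‖ ≤ s * (t / 2 ^ 84)) (a2 : t / 2 ^ 84 < ‖x‖) (a3 : (‖x‖ - t / 2 ^ 84)⁻¹ ≤ g / 2 ^ 20) :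
    ‖ff (x + e) - ff x - dff x e‖ * 2 ^ 248 ≤ s * (3 * (t * t) * (g * g * (g * g))) := by
  have sl : s * (t / 2 ^ 84) ≤ t / 2 ^ 84 := mul_le_of_le_one_left (by positivity) s1
  have a1 := ff2 he (sl.trans_lt a2)
  rw [div_eq_mul_inv, ← inv_pow] at a1
  have a6 : (‖x‖ - s * (t / 2 ^ 84))⁻¹ ≤ g / 2 ^ 20 :=
    (inv_anti₀ (by linarith) (by linarith)).trans a3
  have a4 := pow_le_pow_left₀ (inv_pos.2 (by linarith)).le a6 4
  have a5 := a1.trans (mul_le_mul_of_nonneg_left a4 (mul_nonneg zero_le_three (sq_nonneg _)))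
  have a7 : s * s * (3 * (t * t) * (g * g * (g * g))) ≤ s * (3 * (t * t) * (g * g * (g * g))) :=
    mul_le_mul_of_nonneg_right (mul_le_of_le_one_left s0 s1)
      (mul_nonneg (by positivity) (mul_self_nonneg _))
  linarith

namespace Cr
variable {r : Cr} {b : Pb} {k ν : ℝ} {X : I6 → ℝ} {A B : Matrix I6 I6 ℝ}

lemma ok_fld (h : r.ok = true) : r.x.ok = true ∧ r.e2 ≤ r.es * r.es ∧
    (∀ j, 17 * r.eps j ≤ 2 ^ 136 ∧ (r.H j).pos oS = true ∧ r.hb j * r.es < 2 ^ 148 ∧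
      r.gq j ≤ 2 ^ 25) ∧ ∀ i, (r.X i).bd0 * 2 ^ 20 + r.eb i ≤ 2 ^ 90 := by
  simp only [ok, okH, Bool.and_eq_true, all6_iff, okI, Nat.ble_eq, Nat.blt_eq, Nat.add_eq,
    Nat.mul_eq, p2_eq, Nat.shiftLeft_eq', Nat.shiftLeft_eq] at h
  exact ⟨h.1, h.2.1, fun j => by cases j; exacts [h.2.2.2.1, h.2.2.1], fun i => (h.2.2.2.2 i).2⟩

section reps
variable {π : Pt} {e : I6 → ℝ}

lemma rrho (hX : ∀ i, Rep π 64 15 3 0 (r.X i) (X i)) (j : Bool) :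
    Rep π 68 15 3 0 (r.rho j) (‖LA.Raw.yj X j‖ ^ 2) := by
  have hq := (Rep.t3 (e := 68) 60 (((hX .i2).mul (hX .i2) (by decide) (by decide)).add
    ((hX .i3).mul (hX .i3) (by decide) (by decide)))).add
      (Rep.cs (a := 1 / 4) 68 15 3 0 (p2 66) (by rw [p2_eq]; norm_num))
  cases j
  · exact (hq.sub ((hX .i2).up 4)).congr (by simp [LA.Raw.yj, sq_norm', yc]; ring)
  · exact (hq.add ((hX .i2).up 4)).congr (by simp [LA.Raw.yj, sq_norm', yc]; ring)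

lemma rHt (hX : ∀ i, Rep π 64 15 3 0 (r.X i) (X i)) {j : Bool} {v : ℝ}
    (a2 : Rep π 64 15 3 0 (r.H j) v) (h1 : 17 * r.eps j ≤ 2 ^ 136) (h2 : (r.H j).pos oS = true) :
    0 < ‖LA.Raw.yj X j‖ ∧ Rep π 64 15 3 0 (r.ht j) ‖LA.Raw.yj X j‖⁻¹ ∧
      Rep π 68 15 3 0 (r.kt j) (‖LA.Raw.yj X j‖⁻¹ ^ 2) := by
  have a3 : Rep π 68 15 3 0 (r.kk j) _ := (a2.mul a2 (by decide) (by decide)).t3 60
  have a4 : _ ≤ (r.eps j : ℝ) :=
    ((a3.mul (rrho hX j) (by decide) (by decide)).sub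
      (Rep.cs (a := 1) 136 30 6 0 (p2 136) (by rw [p2_eq]; norm_num))).bnd mk_S
  have a7 : 17 * (r.eps j : ℝ) ≤ 2 ^ 136 := by exact_mod_cast h1
  have H0 : 0 ≤ v := (a2.pos mk_S h2).le
  obtain ⟨b1, b2, b3⟩ := inv_err' (ε := r.eps j / 2 ^ 136) H0 (norm_nonneg _)
    (by rw [le_div_iff₀ (by positivity)]; exact a4) (by rw [div_le_iff₀ (by positivity)]; linarith)
  exact ⟨b1, err_dn' 9 a2 (by exact_mod_cast b2) H0 (by positivity) (by ring),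
    err_dn' 17 a3 (by exact_mod_cast b3) (mul_nonneg H0 H0) (by positivity) (by ring)⟩

lemma rF (hX : ∀ i, Rep π 64 15 3 0 (r.X i) (X i)) (hE : ∀ i, Rep π 84 15 1 6 (r.E i) (e i))
    {h : Bool → ℝ} (h1 : ∀ j, Rep π 64 15 3 0 (r.ht j) (h j))
    (h2 : ∀ j, Rep π 68 15 3 0 (r.kt j) (h j ^ 2)) {c c' : TM} {a a' : ℝ}
    (hc : Rep π 64 0 1 0 c a) (hc' : Rep π 64 0 1 0 c' a') :
    Rep π 152 30 6 6 (r.fre c c') (mre X e (h true) (h false) a a') ∧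
      Rep π 152 30 6 6 (r.fim c c') (mim X e (h true) (h false) a a') := by
  have aa : ∀ j, Rep π 68 15 3 0 (r.aa j) _ := fun j =>
    ((h2 j).mul (h1 j) (by decide) (by decide)).t3 64
  have bb : ∀ j, Rep π 60 15 2 0 (r.bb j) _ := fun j =>
    ((aa j).mul (h2 j) (by decide) (by decide)).t2 76
  have ca : ∀ {c : TM} {a : ℝ}, Rep π 64 0 1 0 c a → ∀ j,
      Rep π 68 15 3 0 (r.ca c j) (a * h j ^ 3) := fun hc j =>
    (Rep.t3 (e := 68) 64 (hc.mul (aa j) (by decide) (by decide))).congr (by ring)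
  have cb : ∀ {c : TM} {a : ℝ}, Rep π 64 0 1 0 c a → ∀ j,
      Rep π 60 15 2 0 (r.cb c j) (a * h j ^ 5) := fun hc j =>
    (Rep.t2 (e := 60) 64 (hc.mul (bb j) (by decide) (by decide))).congr (by ring)
  have as : Rep π 68 15 3 0 (r.as c c') _ := (ca hc true).add (ca hc' false)
  have uu : Rep π 60 15 2 0 (r.uu c c') _ :=
    (((cb hc true).add (cb hc' false)).mul (hX .i3) (by decide) (by decide)).t2 64
  have ii : Rep π 68 15 2 0 (r.ii c c') _ := Rep.t2 56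
    (((as.up 56).mono (by decide) (by decide) le_rfl).sub
      ((uu.mul (hX .i3) (by decide) (by decide)).smul 3))
  have ri : Rep π 68 15 2 0 (r.ri c c') _ := Rep.t2 57
    ((((uu.mul (hX .i2) (by decide) (by decide)).up 1).add
      ((((cb hc true).sub (cb hc' false)).mul (hX .i3) (by decide) (by decide)).scale (f := 125)
        (b := (a * h true ^ 5 - a' * h false ^ 5) * X .i3 / 2) (by ring))).smul 3)
  have m3 : ∀ {t : TM} {a : ℝ}, Rep π 68 15 3 0 t a → ∀ i,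
      Rep π 152 30 6 6 (t.mul (r.E i)) (a * e i) := fun h i =>
    (h.mul (hE i) (by decide) (by decide)).mono le_rfl (by decide) le_rfl
  have m2 : ∀ {t : TM} {a : ℝ}, Rep π 68 15 2 0 t a → Rep π 68 15 3 0 t a :=
    fun h => h.mono le_rfl (by decide) le_rfl
  have lf : ∀ i, Rep π 152 30 6 6 (((r.as c c').mul (r.X i)).up 20) _ := fun i =>
    ((as.mul (hX i) (by decide) (by decide)).up 20).mono le_rfl le_rfl (by decide)
  constructor
  · exact (((m3 (as.add (m2 ii)) _).add (m3 (m2 ri) _)).sub ((lf _).add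
      (((((ca hc true).sub (ca hc' false)).up 83).scale (f := 152)
        (b := (a * h true ^ 3 - a' * h false ^ 3) / 2) (by ring)).mono
          (by decide) (by decide) (by decide)))).congr (by simp only [mre]; push_cast; ring)
  · exact ((m3 (m2 ri) _).sub ((m3 (m2 ii) _).add (lf _))).congr
      (by simp only [mim]; push_cast; ring)

lemma rrow (hX : ∀ i, Rep π 64 15 3 0 (r.X i) (X i)) (hE : ∀ i, Rep π 84 15 1 6 (r.E i) (e i))
    {h : Bool → ℝ} (h1 : ∀ j, Rep π 64 15 3 0 (r.ht j) (h j))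
    (h2 : ∀ j, Rep π 68 15 3 0 (r.kt j) (h j ^ 2)) (cp : Rep π 64 0 1 0 r.x.cp (1 / 2 + k))
    (cm : Rep π 64 0 1 0 r.x.cm (1 / 2 - k)) (nu : Rep π 64 0 1 0 r.x.nu ν) (l : I6) :
    Rep π 152 30 6 6 (r.row l) (rv k ν X e (h true) (h false) l) := by
  have et : ∀ i, Rep π 84 15 3 6 (r.Et i) (e i + X i / 2) := fun i =>
    ((hE i).mono le_rfl (by decide) le_rfl).add
      ((((hX i).up 19).scale (by ring)).mono le_rfl le_rfl (by decide))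
  have xe : ∀ i j, Rep π 148 30 6 6 (r.xe i j) _ := fun i j =>
    (hX i).mul (et j) (by decide) (by decide)
  have li : ∀ i, Rep π 148 30 6 6 (r.li i) _ := fun i =>
    ((((hE i).mono le_rfl (by decide) le_rfl).add
      (((hX i).up 20).mono le_rfl le_rfl (by decide))).up 64).mono (by decide) (by decide) le_rfl
  have u1 : ∀ {t : TM} {a : ℝ}, Rep π 148 30 6 6 t a → Rep π 148 30 6 6 (t.up 1) (2 * a) :=
    fun h => (h.up 1).scale (by ring)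
  have u3 : ∀ {t : TM} {a : ℝ}, Rep π 148 30 6 6 t a → Rep π 152 30 6 6 (t.up 3) (a / 2) :=
    fun h => (h.up 3).scale (by ring)
  have u4 : ∀ {t : TM} {a : ℝ}, Rep π 148 30 6 6 t a → Rep π 152 30 6 6 (t.up 4) a :=
    fun h => h.up 4
  have uc : ∀ {t : TM} {a : ℝ}, Rep π 64 0 1 0 t a → Rep π 152 30 6 6 (t.up 88) a :=
    fun h => (h.up 88).mono (by decide) (by decide) (by decide)
  obtain ⟨f1, f2⟩ := rF hX hE h1 h2 nu nu.neg
  obtain ⟨f3, f4⟩ := rF hX hE h1 h2 cp cm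
  cases l
  · exact ((((u4 ((xe _ _).add (u1 (xe _ _)))).add (uc nu)).sub
      (Rep.cs (a := 1) 152 30 6 6 (p2 152) (by rw [p2_eq]; norm_num))).add f1).congr
        (by simp only [rv]; ring)
  · exact (f2.sub (u3 ((xe _ _).add (xe _ _)))).congr (by simp only [rv])
  · exact (u4 ((((li _).add (xe _ _)).add (xe _ _)).sub ((xe _ _).add (xe _ _)))).congr
      (by simp only [rv])
  · exact (u4 ((li _).sub ((((xe _ _).add (xe _ _)).add (xe _ _)).add (xe _ _)))).congr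
      (by simp only [rv])
  · exact ((((u3 (((xe _ _).add (xe _ _)).add (u1 ((xe _ _).add (xe _ _))))).add (uc cp)).sub
      (Rep.cs (a := 1 / 2) 152 30 6 6 (p2 151) (by rw [p2_eq]; norm_num))).add f3).congr
        (by simp only [rv]; ring)
  · exact ((u3 (((xe _ _).add (xe _ _)).sub (u1 ((xe _ _).add (xe _ _))))).add f4).congr
      (by simp only [rv]; ring)

end reps

lemma near {e : I6 → ℝ} {n : ℝ} {j : Bool} (h1 : r.e2 ≤ r.es * r.es)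
    (a3 : r.hb j * r.es < 2 ^ 148) (b1 : 0 < n) (b3 : |n⁻¹| * 2 ^ 64 ≤ (r.hb j : ℝ))
    (c : ∀ i, |e i| * 2 ^ 84 ≤ (r.eb i : ℝ)) : ‖yc e‖ ≤ r.es / 2 ^ 84 ∧
    (r.es : ℝ) / 2 ^ 84 < n ∧ (n - r.es / 2 ^ 84)⁻¹ ≤ (r.gq j / 2 ^ 20 : ℝ) := by
  have c2 := c .i2
  have c3 := c .i3
  have h3 : (r.eb .i2 : ℝ) * r.eb .i2 + r.eb .i3 * r.eb .i3 ≤ r.es * r.es := by exact_mod_cast h1
  have h4 : (r.hb j : ℝ) * r.es < 2 ^ 148 := by exact_mod_cast a3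
  have h5 : (r.hb j : ℝ) * 2 ^ 104 < r.gq j * (2 ^ 148 - r.hb j * r.es) := by
    have := (Nat.div_lt_iff_lt_mul (Nat.sub_pos_of_lt a3)).1
      (Nat.lt_succ_self (r.hb j * 2 ^ 104 / (2 ^ 148 - r.hb j * r.es)))
    have e : r.gq j = (r.hb j * 2 ^ 104 / (2 ^ 148 - r.hb j * r.es)).succ := by
      simp [gq, ndiv, Nat.shiftLeft_eq, p2_eq]
    rw [← e] at this
    have := (Nat.cast_lt (α := ℝ)).2 this
    rw [Nat.cast_mul, Nat.cast_mul, Nat.cast_sub a3.le] at this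
    exact_mod_cast this
  rw [abs_of_pos (inv_pos.2 b1), inv_mul_le_iff₀ b1] at b3
  have e0 : (0 : ℝ) ≤ r.es := Nat.cast_nonneg _
  have g0 : (0 : ℝ) ≤ r.gq j := Nat.cast_nonneg _
  have h0 : (0 : ℝ) ≤ r.hb j := Nat.cast_nonneg _
  clear a3 h1 c
  generalize (r.es : ℝ) = s, (r.gq j : ℝ) = q, (r.hb j : ℝ) = b,
    (r.eb .i2 : ℝ) = u, (r.eb .i3 : ℝ) = v at *
  have hp : 0 < b := by nlinarith
  have d1 : s / 2 ^ 84 < n := by
    rw [div_lt_iff₀ (by positivity)]; nlinarith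
  refine ⟨?_, d1, ?_⟩
  · refine (abs_le_of_sq_le_sq' ?_ (by positivity)).2
    rw [sq_norm', div_pow, le_div_iff₀ (by positivity)]
    simp only [yc]
    have f2 := mul_self_le_mul_self (by positivity) c2
    have f3 := mul_self_le_mul_self (by positivity) c3
    nlinarith [abs_mul_abs_self (e .i2), abs_mul_abs_self (e .i3)]
  · rw [inv_le_iff_one_le_mul₀ (by linarith)]
    refine le_of_mul_le_mul_left ?_ hp
    nlinarith [mul_le_mul_of_nonneg_left b3 g0]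

lemma rm_le {e : I6 → ℝ} {s a a' : ℝ} {c c' : TM} (s0 : 0 ≤ s)
    (w : ∀ j, ‖rem X e j‖ * 2 ^ 248 ≤ s * (3 * (r.es * r.es) * r.g4 j))
    (hc : |a| * 2 ^ 64 ≤ c.bd0) (hc' : |a'| * 2 ^ 64 ≤ c'.bd0) :
    ‖rm X e a a'‖ * 2 ^ 169 ≤ s * r.w2 c c' := by
  refine le_trans ?_ (mul_le_mul_of_nonneg_left (le_dn _ _) s0)
  have h1 : ‖rm X e a a'‖ ≤ |a| * ‖rem X e true‖ + |a'| * ‖rem X e false‖ := by
    refine (norm_add_le _ _).trans (le_of_eq ?_)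
    rw [norm_smul, norm_smul, Real.norm_eq_abs, Real.norm_eq_abs]
  have h2 := mul_le_mul hc (w true) (by positivity) (Nat.cast_nonneg _)
  have h3 := mul_le_mul hc' (w false) (by positivity) (Nat.cast_nonneg _)
  simp only [Nat.mul_eq, Nat.add_eq]
  push_cast
  linarith

theorem fld (h : r.ok = true) (hp : Par r.x k ν b.p b.q) (S : Sem r b X A B) {y : I6 → ℝ}
    (hy : ∀ j, |y j| ≤ 1) : (∀ s ∈ Icc (0 : ℝ) 1, Safe (X + s • A.mulVec y)) ∧ ∀ l, ∃ v,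
      Rep (b.pt y hy) 152 30 6 6 (r.row l) v ∧ ∀ s ∈ Icc (0 : ℝ) 1,
        |fr k ν (X + s • A.mulVec y) l - ((1 - s) * fr k ν X l + s * v)| * 2 ^ 169 ≤ s * r.nl l := by
  obtain ⟨o1, o2, o3, o4⟩ := ok_fld h
  obtain ⟨cp, cm, nu, -⟩ := Par.reps (π := b.pt y hy) hp o1
  have hX := S.rX y hy
  have hE := S.rE y hy
  have a := fun j => (S.rH y hy j).elim fun v hv => rHt hX hv (o3 j).1 (o3 j).2.1
  generalize A.mulVec y = e at *
  have eb : ∀ i, |e i| * 2 ^ 84 ≤ (r.eb i : ℝ) := fun i => (hE i).le0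
  have nr := fun j => near (e := e) o2 (o3 j).2.2.1 (a j).1 (a j).2.1.le0 eb
  have ns : ∀ s ∈ Icc (0 : ℝ) 1, ‖yc (s • e)‖ ≤ s * (r.es / 2 ^ 84) := fun s hs => by
    rw [yc_smul, norm_smul, Real.norm_eq_abs, abs_of_nonneg hs.1]
    exact mul_le_mul_of_nonneg_left (nr true).1 hs.1
  have sl : ∀ s ∈ Icc (0 : ℝ) 1, s * (r.es / 2 ^ 84 : ℝ) ≤ r.es / 2 ^ 84 := fun s hs =>
    mul_le_of_le_one_left (by positivity) hs.2
  refine ⟨fun s hs => ?_, fun l => ⟨_, rrow (h := fun j => ‖LA.Raw.yj X j‖⁻¹) hX hE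
    (fun j => (a j).2.1) (fun j => (a j).2.2) cp cm nu l, fun s hs => ?_⟩⟩
  · have h1 : ∀ j, 1 / 32 ≤ ‖LA.Raw.yj (X + s • e) j‖ := fun j => by
      obtain ⟨-, a2, a3⟩ := nr j
      have a4 : (r.gq j : ℝ) ≤ 2 ^ 25 := by exact_mod_cast (o3 j).2.2.2
      have a5 : (‖LA.Raw.yj X j‖ - r.es / 2 ^ 84)⁻¹ ≤ 32 :=
        a3.trans (by rw [div_le_iff₀ (by positivity)]; linarith)
      rw [inv_le_iff_one_le_mul₀ (by linarith)] at a5
      have := norm_sub_norm_le (LA.Raw.yj X j) (-yc (s • e))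
      rw [norm_neg, sub_neg_eq_add, ← yj_add] at this
      linarith [ns s hs, sl s hs]
    refine ⟨fun i => ?_, h1 true, h1 false⟩
    have a1 := (hX i).le0
    have a3 : ((r.X i).bd0 : ℝ) * 2 ^ 20 + r.eb i ≤ 2 ^ 90 := by exact_mod_cast o4 i
    have a4 := abs_add_le (X i) (s * e i)
    have a5 : |s * e i| ≤ |e i| := by
      rw [abs_mul, abs_of_nonneg hs.1]
      exact mul_le_of_le_one_left (abs_nonneg _) hs.2
    rw [Pi.add_apply, Pi.smul_apply, smul_eq_mul]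
    linarith [eb i]
  · rw [tay_s k ν s X e fun j => (a j).1]
    have w : ∀ j, ‖rem X (s • e) j‖ * 2 ^ 248 ≤ s * (3 * (r.es * r.es) * r.g4 j) := fun j => by
      simpa only [g4, Nat.mul_eq, Nat.cast_mul, rem] using
        rem_le hs.1 hs.2 (Nat.cast_nonneg _) (ns s hs) (nr j).2.1 (nr j).2.2
    have w1 := rm_le hs.1 w nu.le0 nu.neg.le0
    have w2 := rm_le hs.1 w cp.le0 cm.le0
    have b : ∀ i j, |(s • e) i * (s • e) j| * 2 ^ 168 ≤ s * r.ee i j := fun i j => by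
      have b1 := mul_le_mul (eb i) (eb j) (by positivity) (Nat.cast_nonneg _)
      have b2 := mul_le_mul (mul_le_of_le_one_left hs.1 hs.2) b1 (by positivity) hs.1
      simp only [ee, Nat.mul_eq, Nat.cast_mul, abs_mul, Pi.smul_apply, smul_eq_mul,
        abs_of_nonneg hs.1]
      linarith
    generalize s • e = u at *
    have c : ∀ i j, -(s * r.ee i j) ≤ u i * u j * 2 ^ 168 ∧ u i * u j * 2 ^ 168 ≤ s * r.ee i j :=
      fun i j => ⟨by linarith [b i j, neg_abs_le (u i * u j)],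
        by linarith [b i j, le_abs_self (u i * u j)]⟩
    have r1 := fun a a' => abs_le.1 (Complex.abs_re_le_norm (rm X u a a'))
    have r2 := fun a a' => abs_le.1 (Complex.abs_im_le_norm (rm X u a a'))
    rw [← le_div_iff₀ (by positivity), abs_le]
    cases l <;> simp only [qd, nl, Nat.add_eq, Nat.mul_eq] <;> push_cast <;> constructor
    · linarith [c .i0 .i0, c .i1 .i1, r1 ν (-ν)]
    · linarith [c .i0 .i0, c .i1 .i1, r1 ν (-ν)]
    · linarith [c .i0 .i1, r2 ν (-ν)]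
    · linarith [c .i0 .i1, r2 ν (-ν)]
    · linarith [c .i0 .i2, c .i1 .i3]
    · linarith [c .i0 .i2, c .i1 .i3]
    · linarith [c .i0 .i3, c .i1 .i2]
    · linarith [c .i0 .i3, c .i1 .i2]
    · linarith [c .i0 .i4, c .i1 .i5, r1 (1 / 2 + k) (1 / 2 - k)]
    · linarith [c .i0 .i4, c .i1 .i5, r1 (1 / 2 + k) (1 / 2 - k)]
    · linarith [c .i0 .i5, c .i1 .i4, r2 (1 / 2 + k) (1 / 2 - k)]
    · linarith [c .i0 .i5, c .i1 .i4, r2 (1 / 2 + k) (1 / 2 - k)]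

end Cr

end Pool.Agent.Lib.MP_6e7c44_mp.ER
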