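import Pool.Agent.Lib.MP_6e7c44_mp.MR.EFam
import Pool.Agent.Lib.MP_6e7c44_mp.ER.Cone

/-! Tools for cones with a moving base point. -/

set_option autoImplicit false

open Set Complex Filter Topology

noncomputable section

namespace Pool.Agent.Lib.MP_6e7c44_mp.ER

open LA MR

/-- Every orbit that stays close to `e` starts at a limit of escaping states. -/
def St (μ : Fin 3 → ℝ) (e : Z3) : Prop := ∃ δ : ℝ, 0 < δ ∧ ∀ b : ℝ → Z3,
  (∀ t, HasDerivAt b (GR μ (b t)) t) → (∀ t, dist (b t) e < δ) → phys (b 0) ∈ closure (Esc μ)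

/-- A cut-off flow that contains the solutions in the compact set. -/
theorem cut_flow' {E : Type} [NormedAddCommGroup E] [NormedSpace ℝ E] [FiniteDimensional ℝ E]
    {U K : Set E} (hU : IsOpen U) (hK : IsCompact K) (hKU : K ⊆ U) {F : E → E}
    (hF : ContDiffOn ℝ 1 F U) : ∃ (Φ : ℝ → E → E) (β : E → ℝ),
      Continuous (fun p : ℝ × E => Φ p.1 p.2) ∧ (∀ x, Φ 0 x = x) ∧ Continuous β ∧
      (∀ x, 0 ≤ β x ∧ β x ≤ 1) ∧ (∀ x ∈ K, β x = 1) ∧
      (∀ γ : ℝ → E, (∀ t, γ t ∈ K ∧ HasDerivAt γ (F (γ t)) t) → ∀ t, Φ t (γ 0) = γ t) ∧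
      ∀ x ∈ U, ∀ t, Φ t x ∈ U ∧ HasDerivAt (fun s => Φ s x) (β (Φ t x) • F (Φ t x)) t := by
  obtain ⟨K', k1, k2, k3⟩ := exists_compact_between hK hU hKU
  obtain ⟨β, b0, b1, b2⟩ := exists_contMDiffMap_zero_one_of_isClosed (n := 1)
    (modelWithCornersSelf ℝ E) isOpen_interior.isClosed_compl hK.isClosed
    (disjoint_left.2 fun x h1 h2 => h1 (k2 h2))
  have cβ : ContDiff ℝ 1 β := β.contMDiff.contDiff
  have z0 : ∀ x, x ∉ K' → β x • F x = 0 := fun x hx => by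
    rw [b0 fun h => hx (interior_subset h)]; simp
  have cZ : ContDiff ℝ 1 fun x => β x • F x := contDiff_iff_contDiffAt.2 fun x => by
    by_cases hx : x ∈ U
    · exact cβ.contDiffAt.smul (hF.contDiffAt (hU.mem_nhds hx))
    · exact (contDiffAt_const (c := 0)).congr_of_eventuallyEq
        (mem_of_superset (k1.isClosed.isOpen_compl.mem_nhds fun h => hx (k3 h)) z0)
  have sZ : HasCompactSupport fun x => β x • F x := HasCompactSupport.intro k1 z0
  obtain ⟨L, hL⟩ := cZ.lipschitzWith_of_hasCompactSupport sZ (by simp)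
  obtain ⟨C, hC⟩ := sZ.exists_bound_of_continuous cZ.continuous
  have := FiniteDimensional.complete ℝ E
  obtain ⟨Φ, f0, f1, f2⟩ := Hg.exists_lip_flow hL (L := ⟨C, (norm_nonneg _).trans (hC 0)⟩) hC
  have un : ∀ x y t, β y • F y = 0 → Φ t x = y → ∀ s, Φ s x = y := fun x y t h e =>
    congrFun (ODE_solution_unique_univ (v := fun _ x => β x • F x) (s := fun _ => univ)
      (f := fun s => Φ s x) (g := fun _ => y) (t₀ := t) (fun _ => hL.lipschitzOnWith)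
      (fun s => ⟨f1 x s, trivial⟩) (fun s => ⟨by rw [h]; exact hasDerivAt_const _ _, trivial⟩) e)
  refine ⟨Φ, β, continuous_iff_continuousAt.2 fun p => ?_, f0, cβ.continuous, fun x => b2 x,
    fun x hx => b1 hx, fun γ hγ => ?_, fun x hx t => ⟨?_, f1 x t⟩⟩
  · obtain ⟨C, hC⟩ := f2 (|p.1| + 1)
    exact hC.continuousOn.continuousAt ((isOpen_Ioo.prod isOpen_univ).mem_nhds
      ⟨⟨by linarith [neg_abs_le p.1], by linarith [le_abs_self p.1]⟩, trivial⟩)
  · exact congrFun (ODE_solution_unique_univ (v := fun _ x => β x • F x) (s := fun _ => univ)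
      (f := fun s => Φ s (γ 0)) (g := γ) (t₀ := 0) (fun _ => hL.lipschitzOnWith)
      (fun s => ⟨f1 _ s, trivial⟩) (fun s => ⟨by
        rw [show β (γ s) = 1 from b1 (hγ s).1, one_smul]; exact (hγ s).2, trivial⟩) (f0 _))
  · by_contra h
    exact h (un x _ t (z0 _ fun h' => h (k3 h')) rfl 0 ▸ (f0 x).symm ▸ hx)

/-- The change of time. -/
lemma clock {g : ℝ → ℝ} (hg : Continuous g) {c : ℝ} (c0 : 0 < c) (h : ∀ t, c ≤ g t) :
    ∃ σ : ℝ → ℝ, σ 0 = 0 ∧ ∀ τ, HasDerivAt σ (g (σ τ))⁻¹ τ := by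
  obtain ⟨F, F0, hF⟩ : ∃ F : ℝ → ℝ, F 0 = 0 ∧ ∀ u, HasDerivAt F (g u) u :=
    ⟨fun u => ∫ s in (0 : ℝ)..u, g s, by simp,
      fun u => (hg.integral_hasStrictDerivAt 0 u).hasDerivAt⟩
  have cF : Continuous F := continuous_iff_continuousAt.2 fun u => (hF u).continuousAt
  have m : ∀ a b, a ≤ b → F a - c * a ≤ F b - c * b := fun a b hab =>
    mono_of_deriv (F := fun u => F u - c * u) hab
      (fun u _ => (hF u).fun_sub ((hasDerivAt_id' u).const_mul c)) fun u _ => by linarith [h u]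
  have sm : StrictMono F := fun a b hab => by nlinarith [m a b hab.le]
  have sj : Function.Surjective F := fun y => mem_range_of_exists_le_of_exists_ge cF
    ⟨-(|y| / c), by
      have := m (-(|y| / c)) 0 (neg_nonpos.2 (by positivity))
      rw [mul_neg, mul_div_cancel₀ _ c0.ne'] at this
      linarith [neg_abs_le y]⟩
    ⟨|y| / c, by
      have := m 0 (|y| / c) (by positivity)
      rw [mul_div_cancel₀ _ c0.ne'] at this
      linarith [le_abs_self y]⟩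
  refine ⟨(sm.orderIsoOfSurjective F sj).symm, ?_, fun τ => ?_⟩
  · rw [OrderIso.symm_apply_eq]; exact F0.symm
  · exact (hF _).of_local_left_inverse (OrderIso.continuous _).continuousAt
      (c0.trans_le (h _)).ne' (.of_forall (sm.orderIsoOfSurjective F sj).apply_symm_apply)

/-- The estimate in a cone for a base point close to the centre. -/
lemma near_gen {k ν : ℝ} {x : I6 → ℝ} {C : Matrix I6 I6 ℝ} {lam : (I6 → ℝ) → I6 → ℝ} {d : I6 → ℝ}
    (hd : C.det ≠ 0) (l0 : lam 0 = 0)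
    (pt : ∀ (y : I6 → ℝ) (s : ℝ), s ≤ 1 → (∀ j, |y j| ≤ s) → Safe (x + C.mulVec y) ∧
      ∀ w : I6 → ℝ, C.mulVec w = fr k ν (x + C.mulVec y) - C.mulVec (lam y) → ∀ j, |w j| ≤ s * d j)
    {e : Z3} (he : co e = x) {γ : ℝ} (hγ : 0 < γ) : ∃ δ : ℝ, 0 < δ ∧ ∀ z : Z3, dist z e < δ →
      (∀ j, |C⁻¹.mulVec (co z - x) j| ≤ 1 / 1024) ∧ ∀ (y : I6 → ℝ) (s : ℝ), s ≤ 255 / 256 →
        (∀ j, |y j| ≤ s) → Safe (co z + C.mulVec y) ∧ ∀ j,
          |(C⁻¹.mulVec (fr k ν (co z + C.mulVec y)) - C⁻¹.mulVec (fr k ν (co z)) - lam y) j|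
            ≤ s * (d j + γ) := by
  have i1 : ∀ v, C.mulVec (C⁻¹.mulVec v) = v := fun v => by
    rw [Matrix.mulVec_mulVec, Matrix.mul_nonsing_inv _ hd.isUnit, Matrix.one_mulVec]
  have sf : ∀ y : I6 → ℝ, ‖y‖ ≤ 1 → Safe (x + C.mulVec y) := fun y hy =>
    (pt y 1 le_rfl fun j => (norm_le_pi_norm y j).trans hy).1
  obtain ⟨Φ, hΦ⟩ : ∃ Φ : (I6 → ℝ) → I6 → ℝ,
      Φ = fun y => C⁻¹.mulVec (fr k ν (x + C.mulVec y)) := ⟨_, rfl⟩
  have w0 : ∀ (y : I6 → ℝ) (s : ℝ), s ≤ 1 → (∀ j, |y j| ≤ s) → ∀ j,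
      |(Φ y - lam y) j| ≤ s * d j := fun y s hs hy =>
    (pt y s hs hy).2 _ (by rw [Matrix.mulVec_sub, hΦ, i1])
  have z0 : Φ 0 = 0 := funext fun j => by simpa [l0] using w0 0 0 zero_le_one (by simp) j
  obtain ⟨δ, δ0, δ1, hδ⟩ := EPt.incr (Φ := Φ) (fun y hy => by
    have a1 : ContDiffAt ℝ 1 (fun y => x + C.mulVec y) y :=
      contDiffAt_const.add (EPt.cd_mv C).contDiffAt
    rw [hΦ]
    exact (EPt.cd_mv C⁻¹).contDiffAt.comp y
      (ContDiffAt.comp (f := fun y => x + C.mulVec y) y (EPt.cd_fr k ν (sf y hy)) a1)) hγ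
  have cy : Continuous fun z => C⁻¹.mulVec (co z - x) :=
    continuous_const.matrix_mulVec (co_cont.sub continuous_const)
  obtain ⟨ε, ε0, hε⟩ := Metric.continuous_iff.1 cy e δ δ0
  refine ⟨ε, ε0, fun z hz => ?_⟩
  have hu := hε z hz
  rw [he, sub_self, Matrix.mulVec_zero, dist_zero_right] at hu
  have e1 : co z = x + C.mulVec (C⁻¹.mulVec (co z - x)) := by rw [i1, add_sub_cancel]
  generalize C⁻¹.mulVec (co z - x) = u at hu e1
  rw [e1]
  refine ⟨fun j => (norm_le_pi_norm u j).trans (hu.le.trans δ1), fun y s hs hy => ?_⟩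
  have s0 : 0 ≤ s := (abs_nonneg _).trans (hy .i0)
  have ny : ‖y‖ ≤ s := (pi_norm_le_iff_of_nonneg s0).2 hy
  rw [add_assoc, ← Matrix.mulVec_add]
  refine ⟨sf _ ((norm_add_le _ _).trans (by linarith)), fun j => ?_⟩
  have e : C⁻¹.mulVec (fr k ν (x + C.mulVec (u + y))) - C⁻¹.mulVec (fr k ν (x + C.mulVec u))
      - lam y = (Φ y - lam y) + (Φ (u + y) - Φ y - (Φ u - Φ 0)) := by
    rw [z0, hΦ]
    abel
  have a1 := w0 y s (by linarith) hy j
  have a2 := (norm_le_pi_norm _ j).trans ((hδ u y hu (ny.trans hs)).trans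
    (mul_le_mul_of_nonneg_left ny hγ.le))
  rw [e]
  exact (abs_add_le _ _).trans ((add_le_add a1 a2).trans (le_of_eq (by ring)))

/-- The flow of the states together with the clock of a base orbit. -/
theorem pair_flow (μ : Fin 3 → ℝ) {b : ℝ → Z3} (hb : ∀ t, HasDerivAt b (GR μ (b t)) t)
    {V K : Set (Z3 × ℝ)} (hV : IsOpen V) (hK : IsClosed K) (KV : K ⊆ V)
    (sf : ∀ q ∈ V, Safe (co q.1)) (T : ℝ) : ∃ (Φ : ℝ → Z3 → Z3 × ℝ) (β : Z3 × ℝ → ℝ),
      Continuous (fun p : ℝ × Z3 => Φ p.1 p.2) ∧ (∀ z, Φ 0 z = (z, 0)) ∧ Continuous β ∧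
      (∀ x, 0 ≤ β x) ∧ ∀ z, (z, 0) ∈ V → (∀ t ∈ Icc 0 T, Φ t z ∈ K → β (Φ t z) = 1) ∧ ∀ t,
        Φ t z ∈ V ∧ HasDerivAt (fun s => (Φ s z).1) (β (Φ t z) • GR μ (Φ t z).1) t ∧
        HasDerivAt (fun s => b (Φ s z).2) (β (Φ t z) • GR μ (b (Φ t z).2)) t := by
  obtain ⟨Φ, β, c1, f0, c2, b0, b1, -, hf⟩ := cut_flow' (K := K ∩ univ ×ˢ Icc 0 T) hV
    (F := fun q => (GR μ q.1, (1 : ℝ)))
    ((safe_cpt.prod isCompact_Icc).of_isClosed_subset (hK.inter (isClosed_univ.prod isClosed_Icc))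
      fun q hq => ⟨sf q (KV hq.1), hq.2.2⟩) (fun q hq => KV hq.1)
    (((cd_GR μ).comp contDiffOn_fst fun q hq => safe_nc (sf q hq)).prodMk contDiffOn_const)
  refine ⟨fun t z => Φ t (z, 0), β,
    c1.comp (continuous_fst.prodMk (continuous_snd.prodMk continuous_const)), fun z => f0 _, c2,
    fun x => (b0 x).1, fun z hz => ?_⟩
  have d : ∀ t, HasDerivAt (fun s => (Φ s (z, 0)).2) (β (Φ t (z, 0))) t := fun t =>
    HasDerivAt.congr_deriv (hf _ hz t).2.snd (by simp)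
  refine ⟨fun t ht h => b1 _ ⟨h, trivial, ?_, ?_⟩,
    fun t => ⟨(hf _ hz t).1, (hf _ hz t).2.fst, (hb _).scomp t (d t)⟩⟩
  · simpa [f0] using mono_of_deriv ht.1 (fun s _ => d s) fun s _ => (b0 _).1
  · have := mono_of_deriv (F := fun s => s - (Φ s (z, 0)).2) ht.1
      (fun s _ => (hasDerivAt_id' s).fun_sub (d s)) fun s _ => sub_nonneg.2 (b0 _).2
    simp only [f0] at this
    linarith [ht.2]

lemma phys_cont : Continuous phys := by
  unfold phys
  refine Continuous.prodMk (continuous_pi fun i => ?_) (continuous_pi fun i => ?_) <;>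
    fin_cases i <;> simp <;> fun_prop

end Pool.Agent.Lib.MP_6e7c44_mp.ER
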