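import Pool.Agent.Lib.MP_6e7c44_mp.ER.Core

/-! Soundness of the checker of the links. -/

set_option autoImplicit false

open Set Filter Topology

noncomputable section

namespace Pool.Agent.Lib.MP_6e7c44_mp.ER

open LA hiding TM Rep Pt Raw mX mA mB Traj Out Chain escape exists_step
open MR

variable {r r' : Raw} {x : Bx} {k ν p q : ℝ}

lemma Raw.cr_ok (h : r.ok x = true) : (r.cr x).ok = true ∧ ∀ i, r.R i < 2 ^ 24 := by
  simp only [Raw.ok, Bool.and_eq_true, all6_iff, Raw.okR, Nat.blt_eq, p2_eq, Nat.add_eq] at h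
  exact ⟨h.2.1, fun i => by have := (h.2.2 i).2; omega⟩

def Par.bm (hp : Par x k ν p q) : Pb := ⟨-1, p, q, by simp, hp.hp, hp.hq⟩
def Par.bp (hp : Par x k ν p q) : Pb := ⟨1, p, q, by simp, hp.hp, hp.hq⟩

/-- The state at the end of a step as a model without time. -/
lemma Par.rS (hp : Par x k ν p q) {c : Cr} {X : I6 → ℝ} {A B : Matrix I6 I6 ℝ}
    (S : Sem c hp.bp X A B) {y : I6 → ℝ} (hy : ∀ j, |y j| ≤ 1) (l : I6) :
    Rep (hp.bm.pt y hy) 84 0 3 6 (tE 0 ((c.E l).add ((c.X l).up 20)).ev1) ((X + A.mulVec y) l) :=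
  ((((((S.rE y hy l).mono le_rfl (by decide : 1 ≤ 5) le_rfl).add (((S.rX y hy l).up 20).mono le_rfl
    (by decide) (by decide))).ev1 le_rfl le_rfl rfl).congr (add_comm _ _)).tE 0).ctx rfl rfl rfl

lemma Raw.lg_le (h : (r.cr x).ok = true) (hp : Par x k ν p q) {y : I6 → ℝ} (hy : ∀ j, |y j| ≤ 1)
    {S : I6 → TM} {z : I6 → ℝ} (hS : ∀ l, Rep (hp.bm.pt y hy) 84 0 3 6 (S l) (z l)) (i : I6) :
    |(r.Bs p q (-1)).mulVec ((r.As p q (-1)).mulVec
      fun j => r.yy p q (-1) z j - r.kn j / 2 ^ 10 * y j) i| * 2 ^ 84 / 2 ^ r.t i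
      ≤ (r.lg x S i : ℝ) / 2 ^ 24 := by
  have M := r.sem x hp.bm
  have hd : IsUnit (r.As p q (-1)).det := (Cr.det_ne h M).isUnit
  have a : ∀ l, Rep (hp.bm.pt y hy) 94 15 5 6 (r.lr S l) ((r.As p q (-1)).mulVec
      (fun j => r.yy p q (-1) z j - r.kn j / 2 ^ 10 * y j) l) := fun l => by
    refine ((((hS l).up 10).mono (by decide) (by decide) le_rfl).sub ((((Rep.ad6 fun j =>
      ((r.rcy _ l j j).smul (r.kn j)).scale (f := 94)
        (b := r.As p q (-1) l j * (r.kn j / 2 ^ 10 * y j)) ?_).mono le_rfl (by decide) le_rfl).add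
          (((M.rX y hy l).up 30).mono le_rfl (by decide) (by decide))).evm le_rfl le_rfl
            rfl)).congr ?_
    · simp only [Pb.pt, Par.bm]; ring
    · have e : (r.As p q (-1)).mulVec (r.yy p q (-1) z) l = z l - r.xs p q (-1) l := by
        rw [Raw.yy, Matrix.mulVec_mulVec, Matrix.mul_nonsing_inv _ hd, Matrix.one_mulVec]; rfl
      simp only [Matrix.mulVec, dotProduct, mul_sub, Finset.sum_sub_distrib, Par.bm] at e ⊢
      linarith
  have c := ((Cr.rdB M hy a (by decide) le_rfl i).evm (by decide) (by decide) rfl).bnd mk_V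
  rw [le_div_iff₀ (by positivity)]
  refine le_trans ?_ (le_dn _ _)
  simp only [Nat.shiftLeft_eq', Nat.shiftLeft_eq, Nat.cast_mul, Nat.cast_pow, Nat.cast_ofNat]
  rw [div_mul_eq_mul_div]
  refine div_le_div_of_nonneg_right ?_ (by positivity)
  simp only [Par.bm] at c
  linarith

lemma Raw.lD_le (h : (r.cr x).ok = true) (hp : Par x k ν p q) {y : I6 → ℝ} (hy : ∀ j, |y j| ≤ 1)
    {S : I6 → TM} {z : I6 → ℝ} (hS : ∀ l, Rep (hp.bm.pt y hy) 84 0 3 6 (S l) (z l)) (i : I6) :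
    |r.yy p q (-1) z i - r.kn i / 2 ^ 10 * y i| ≤ (r.lD x S i : ℝ) / 2 ^ 24 :=
  Cr.solve h (r.sem x hp.bm) (Raw.lg_le h hp hy hS) i

lemma lkR_ok {c : Bool} {n R d R' D : ℕ} (h : lkR c n R d R' D = true) :
    if c = true then (R' / 2 ^ 24 + D / 2 ^ 24 : ℝ) ≤ n / 2 ^ 10 * (R / 2 ^ 24 - d / 2 ^ 24)
    else (n / 2 ^ 10 * (R / 2 ^ 24 + d / 2 ^ 24) + D / 2 ^ 24 : ℝ) ≤ R' / 2 ^ 24 := by
  cases c <;> simp only [lkR, cond_true, cond_false, Nat.ble_eq, Nat.add_eq, Nat.mul_eq,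
    Nat.shiftLeft_eq', Nat.shiftLeft_eq] at h <;>
    have h2 := (Nat.cast_le (α := ℝ)).2 h <;> push_cast at h2
  · rw [if_neg (by simp)]; linarith
  · rw [if_pos rfl]; linarith

theorem link_ok {w : Bool} (h : link x w r r' = true) (h' : r'.ok x = true) (hp : Par x k ν p q) :
    Lk w (r.ss p q x) (r'.ss p q x) := fun j => by
  refine ⟨r'.kn j / 2 ^ 10, r'.lD x r.S1 j / 2 ^ 24, by positivity, ?_, ?_⟩
  · rintro z ⟨y, hy, e1, e2⟩
    have := Raw.lD_le (Raw.cr_ok h').1 hp hy (hp.rS (r.sem x hp.bp) hy) j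
    simp only [Raw.ss, e2]
    rw [e1]
    exact this
  · have e : (w && isU j) = true ↔ w = true ∧ (j = .i0 ∨ j = .i1) := by cases j <;> simp [isU]
    simp only [← e]
    exact lkR_ok (all6_iff.1 h j)

lemma iq_le {a n : ℕ} (hn : 0 < n) : (a : ℝ) / 2 ^ 24 / (n / 2 ^ 10) * 2 ^ 24
    ≤ (Nat.add (Nat.div (Nat.shiftLeft a 10) n) 1 : ℕ) := by
  have h0 : (0 : ℝ) < n := by exact_mod_cast hn
  have h1 : ((a * 2 ^ 10 : ℕ) : ℝ) < ((a * 2 ^ 10 / n + 1) * n : ℕ) :=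
    Nat.cast_lt.2 ((Nat.div_lt_iff_lt_mul hn).1 (Nat.lt_succ_self _))
  simp only [Nat.shiftLeft_eq', Nat.shiftLeft_eq, Nat.add_eq, ndiv]
  rw [show (a : ℝ) / 2 ^ 24 / (n / 2 ^ 10) * 2 ^ 24 = a * 2 ^ 10 / n by field_simp, div_le_iff₀ h0]
  push_cast at h1 ⊢
  linarith

/-- The coordinates are controlled by those that are not a priori bounded. -/
lemma Cr.entry {c : Cr} {b : Pb} {X : I6 → ℝ} {A B : Matrix I6 I6 ℝ} (h : c.ok = true)
    (S : Sem c b X A B) {w g : I6 → ℝ} (hw : ∀ j, |w j| ≤ 2 ∨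
      |B.mulVec (A.mulVec w) j| * 2 ^ 84 / 2 ^ c.t j ≤ g j ∧ g j ≤ 1) (j : I6)
    (hj : |B.mulVec (A.mulVec w) j| * 2 ^ 84 / 2 ^ c.t j ≤ g j) :
    |w j| ≤ g j + 2 * (c.dl j / 2 ^ 20) := by
  obtain ⟨i, -, hi⟩ := Finset.exists_max_image Finset.univ (fun j => |w j|) ⟨j, Finset.mem_univ j⟩
  obtain ⟨s, hs⟩ : ∃ s, s = max 2 |w i| := ⟨_, rfl⟩
  have s2 : 2 ≤ s := hs ▸ le_max_left _ _
  have s0 : 0 < s := by linarith
  have a : ∀ j, |w j| ≤ |B.mulVec (A.mulVec w) j| * 2 ^ 84 / 2 ^ c.t j + s * (c.dl j / 2 ^ 20) :=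
    fun j => by
    have a1 := (Cr.inv h S j).2 (s⁻¹ • w) fun l => by
      rw [Pi.smul_apply, smul_eq_mul, abs_mul, abs_inv, abs_of_pos s0, inv_mul_le_one₀ s0]
      exact (hi l (Finset.mem_univ l)).trans (hs ▸ le_max_right _ _)
    simp only [Matrix.mulVec_smul, Pi.smul_apply, smul_eq_mul] at a1
    rw [mul_assoc, mul_div_assoc, ← mul_sub, abs_mul, abs_inv, abs_of_pos s0,
      inv_mul_le_iff₀ s0] at a1
    have a2 := abs_sub_abs_le_abs_sub (w j) (B.mulVec (A.mulVec w) j * 2 ^ 84 / 2 ^ c.t j)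
    rw [abs_div, abs_mul, abs_of_pos (a := (2 : ℝ) ^ 84) (by positivity),
      abs_of_pos (a := (2 : ℝ) ^ c.t j) (by positivity)] at a2
    linarith
  have e : s ≤ 2 := by
    rcases hw i with h1 | h1
    · rw [hs]; exact max_le le_rfl h1
    · have a1 : s * (c.dl i / 2 ^ 20) ≤ s * (1 / 2) :=
        mul_le_mul_of_nonneg_left (by linarith [Cr.dl_le h i]) s0.le
      rcases le_total 2 |w i| with h2 | h2
      · rw [max_eq_right h2] at hs
        linarith [a i, h1.1, h1.2]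
      · rw [hs, max_eq_left h2]
  have := mul_le_mul_of_nonneg_right e (by positivity : (0 : ℝ) ≤ c.dl j / 2 ^ 20)
  linarith [a j]

lemma sq_le {a b c d m n u v : ℕ} (hm : 0 < m) (hn : 0 < n)
    (hu : u = Nat.add (Nat.div (Nat.shiftLeft (Nat.add a b) 10) m) 1)
    (hv : v = Nat.add (Nat.div (Nat.shiftLeft (Nat.add c d) 10) n) 1)
    (h : Raw.sq2 u v 16515072 = true) : (((a : ℝ) / 2 ^ 24 + b / 2 ^ 24) / (m / 2 ^ 10)) ^ 2
      + (((c : ℝ) / 2 ^ 24 + d / 2 ^ 24) / (n / 2 ^ 10)) ^ 2 ≤ (63 / 64) ^ 2 := by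
  have a0 := iq_le (a := Nat.add a b) hm
  have a1 := iq_le (a := Nat.add c d) hn
  rw [← hu] at a0
  rw [← hv] at a1
  rw [Nat.add_eq, Nat.cast_add, add_div] at a0 a1
  have b0 := mul_self_le_mul_self (by positivity) a0
  have b1 := mul_self_le_mul_self (by positivity) a1
  have h3 : (u : ℝ) * u + v * v ≤ 16515072 * 16515072 := by
    exact_mod_cast (show u * u + v * v ≤ 16515072 * 16515072 from Nat.le_of_ble_eq_true h)
  linarith

theorem init_ok (h : init x r r' = true) (h' : r'.ok x = true) (hp : Par x k ν p q) :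
    (r.cone p q x).Init (r'.ss p q x) := by
  simp only [init, Bool.and_eq_true, Nat.blt_eq, all6_iff] at h
  obtain ⟨h0, h1, h2, h3⟩ := h
  refine ⟨r'.kn .i0 / 2 ^ 10, r'.kn .i1 / 2 ^ 10, r'.lD x r.S0 .i0 / 2 ^ 24,
    r'.lD x r.S0 .i1 / 2 ^ 24, by positivity, by positivity, sq_le h0 h1 rfl rfl h2, fun y hy => ?_⟩
  have c := Raw.cr_ok h'
  have hS : ∀ l, Rep (hp.bm.pt y hy) 84 0 3 6 (r.S0 l) ((xL + (r.As p q 1).mulVec y) l) :=
    hp.rS (r.semL x hp.bp) hy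
  refine ⟨Raw.lD_le c.1 hp hy hS .i0, Raw.lD_le c.1 hp hy hS .i1, fun b0 b1 j => ?_⟩
  have b : ∀ j, isU j = true → |r'.yy p q (-1) (xL + (r.As p q 1).mulVec y) j|
      ≤ r'.R j / 2 ^ 24 := fun j hj => by
    cases j
    · exact b0
    · exact b1
    all_goals cases hj
  show |r'.yy p q (-1) (xL + (r.As p q 1).mulVec y) j| ≤ r'.R j / 2 ^ 24
  clear b0 b1
  generalize xL + (r.As p q 1).mulVec y = z at *
  have R : ∀ j, (r'.R j : ℝ) < 2 ^ 24 := fun j => by exact_mod_cast c.2 j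
  have g := fun j => Raw.lg_le (r := {r' with kn := fun _ => 0}) c.1 hp hy hS j
  simp only [Nat.cast_zero, zero_div, zero_mul, sub_zero] at g
  simp only [ie] at h3
  generalize Raw.lg {r' with kn := fun _ => 0} x r.S0 = n at *
  have a : ∀ j, isU j = false → (n j : ℝ) + (r'.cr x).dl j * 2 ^ 5 ≤ r'.R j := fun j hj => by
    have := h3 j
    simp only [hj, Bool.false_or, Nat.ble_eq, Nat.add_eq, Nat.shiftLeft_eq',
      Nat.shiftLeft_eq] at this
    exact_mod_cast this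
  cases hj : isU j
  · have e := Cr.entry c.1 (r'.sem x hp.bm) (w := r'.yy p q (-1) z) (g := fun j => n j / 2 ^ 24)
      (fun j => ?_) j (g j)
    · linarith [a j hj]
    · cases hj : isU j
      · have h0 : (0 : ℝ) ≤ (r'.cr x).dl j := Nat.cast_nonneg _
        exact .inr ⟨g j, by linarith [a j hj, R j]⟩
      · exact .inl (by linarith [b j hj, R j])
  · exact b j hj

end Pool.Agent.Lib.MP_6e7c44_mp.ER
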