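import Pool.Agent.Lib.MP_6e7c44_mp.ER.Loc
import Pool.Agent.Lib.MP_6e7c44_mp.ER.Link
import Pool.Agent.Lib.MP_6e7c44_mp.ER.Cone

/-! Soundness of the checker of the cone at a collinear state. -/

set_option autoImplicit false

open Set Filter Topology

noncomputable section

namespace Pool.Agent.Lib.MP_6e7c44_mp.ER

open LA hiding TM Rep Pt Raw mX mA mB Traj Out Chain escape exists_step
open MR

/-- The state `z` lies in the box. -/
def Ce.In (c : Ce) (z : I6 → ℝ) : Prop := ∀ i, |z i * 2 ^ 64 - (c.P i - c.N i)| ≤ (c.e : ℝ)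

lemma Ce.rep {c : Ce} {z : I6 → ℝ} (h : c.In z) (π : Pt) (i : I6) :
    Rep π 64 15 3 0 (c.X i) (z i) := by
  refine ((Rep.cst π 64 15 3 0 _).sub (Rep.cst π 64 15 3 0 _)).err (le_of_eq_of_le ?_ (h i))
  rw [← abs_of_pos (a := (2 : ℝ) ^ 64) (by positivity), ← abs_mul, abs_of_pos (a := (2 : ℝ) ^ 64)
    (by positivity)]
  exact congrArg _ (by ring)

namespace Raw
variable {r r' : Raw} {x : Bx} {c : Ce} {z : I6 → ℝ} {k ν p q : ℝ}

/-- The cone described by the data. -/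
def coneE (r : Raw) (p q : ℝ) (x : Bx) (c : Ce) (z : I6 → ℝ) : EC := ⟨z, r.As p q 1, r.xs p q 1 .i0,
  r.xs p q 1 .i1, r.xs p q 1 .i2, r.xs p q 1 .i3, fun i => r.de x c i / 2 ^ 24⟩

theorem semE (h : c.In z) (b : Pb) :
    Sem (r.le x c) b z (r.As b.p b.q b.x) (r.Bs b.p b.q b.x) :=
  ⟨fun y hy i => Ce.rep h (b.pt y hy) i, fun y hy i => r.repE (b.pt y hy) i,
    fun y hy _ => ⟨_, Rep.cst (b.pt y hy) 64 15 3 0 _⟩, fun y hy i l => r.repB (b.pt y hy) i l⟩

lemma rdE (π : Pt) (hx : π.x = 1) (l : I6) : Rep π 148 30 4 6 (r.dE l)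
    ((r.coneE π.p π.q x c z).C.mulVec ((r.coneE π.p π.q x c z).lam π.y) l) := by
  have hX : ∀ i, Rep π 64 15 3 0 (r.X i) (r.xs π.p π.q π.x i) := fun i => Raw.repX π _ _
  have hc := r.rcy π l
  have m : ∀ (i : I6) {t : TM} {a : ℝ}, Rep π 84 15 1 6 t a →
      Rep π 148 30 4 6 ((r.X i).mul t) (r.xs π.p π.q π.x i * a) := fun i _ _ h =>
    (hX i).mul h (by decide) (by decide)
  refine ((((m .i0 (hc .i0 .i0)).add (m .i2 ((hc .i3 .i2).sub (hc .i2 .i3)))).add
    (m .i3 ((hc .i5 .i4).sub (hc .i4 .i5)))).sub (m .i1 (hc .i1 .i1))).congr ?_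
  simp only [hx, coneE, Matrix.mulVec, dotProduct, I6.sum, EC.lam]
  ring

theorem coneE_ok (h : r.okE x c = true) (hp : Par x k ν p q) (hz : c.In z) (f0 : fr k ν z = 0) :
    (r.coneE p q x c z).OK k ν := by
  simp only [okE, Bool.and_eq_true] at h
  obtain ⟨h0, h2, h3, h4, h5⟩ := h
  let b : Pb := ⟨1, p, q, by simp, hp.hp, hp.hq⟩
  have S : Sem (r.le x c) b z (r.As p q 1) (r.Bs p q 1) := semE hz b
  have hd := Cr.det_ne h0 S
  have hX : ∀ i, Rep (b.pt 0 (by simp)) 64 15 3 0 (r.X i) (r.xs p q 1 i) := fun i =>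
    Raw.repX _ _ _
  have ka : (r.de x c .i0 : ℝ) / 2 ^ 24 + r.R .i0 / 2 ^ 24 < r.xs p q 1 .i0 := by
    have := ((hX .i0).sub (Rep.cs (a := r.de x c .i0 / 2 ^ 24 + r.R .i0 / 2 ^ 24) _ _ _ _ _ ?_)).pos
      mk_S h4
    · exact sub_pos.1 this
    · simp only [Nat.shiftLeft_eq', Nat.shiftLeft_eq, Nat.add_eq]
      push_cast
      ring
  refine ⟨hd, fun u s s1 hu => ?_, r.R .i0 / 2 ^ 24, r.R .i0 / 2 ^ 24, by positivity, by positivity,
    sq2_le h2, sq2_le h3, ka, ka, ?_⟩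
  · have s0 : 0 ≤ s := (abs_nonneg _).trans (hu .i0)
    obtain ⟨y, hy, rfl⟩ : ∃ y : I6 → ℝ, (∀ j, |y j| ≤ 1) ∧ u = s • y := by
      rcases s0.eq_or_lt with rfl | s0
      · exact ⟨0, by simp, funext fun j => by simpa using hu j⟩
      · refine ⟨s⁻¹ • u, fun j => ?_, (smul_inv_smul₀ s0.ne' u).symm⟩
        rw [Pi.smul_apply, smul_eq_mul, abs_mul, abs_of_pos (inv_pos.2 s0), inv_mul_le_iff₀ s0,
          mul_one]
        exact hu j
    obtain ⟨f1, f2⟩ := Cr.fld (b := b) h0 hp S hy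
    have ls : (r.coneE p q x c z).lam (s • y) = s • (r.coneE p q x c z).lam y :=
      funext fun i => by cases i <;> simp only [EC.lam, Pi.smul_apply, smul_eq_mul] <;> ring
    rw [Matrix.mulVec_smul]
    refine ⟨f1 s ⟨s0, s1⟩, fun w hw j => ?_⟩
    rw [ls, Matrix.mulVec_smul] at hw
    change (r.As p q 1).mulVec w = fr k ν (z + s • (r.As p q 1).mulVec y) - _ at hw
    rcases s0.eq_or_lt with rfl | s0
    · simp only [zero_smul, add_zero, f0, sub_zero] at hw
      by_contra hn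
      exact hd (Matrix.exists_mulVec_eq_zero_iff.1 ⟨w, fun e => hn (by simp [e]), hw⟩)
    · have g := Cr.gg_le h0 S hy (v := r.GE x c) (w := s⁻¹ • w) (fun l => by
        obtain ⟨v, v1, v2⟩ := f2 l
        refine (Rep.tG 44 (v1.sub (((rdE (r := r) (x := x) (c := c) (z := z) (b.pt y hy) rfl l).up
          4).mono le_rfl (by decide) le_rfl))).err (le_trans ?_ (le_dn _ _))
        have v3 := v2 s ⟨s0.le, s1⟩
        have e := congrFun hw l
        simp only [f0, Pi.zero_apply, mul_zero, zero_add, Pi.sub_apply, Pi.smul_apply,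
          smul_eq_mul] at v3 e
        rw [Matrix.mulVec_smul, Pi.smul_apply, smul_eq_mul, e]
        change |s⁻¹ * (fr k ν (z + s • (r.As p q 1).mulVec y) l - s * (r.coneE p q x c z).C.mulVec
          ((r.coneE p q x c z).lam y) l) - (v - (r.coneE p q x c z).C.mulVec
            ((r.coneE p q x c z).lam y) l)| * _ ≤ _
        generalize fr k ν (z + s • (r.As p q 1).mulVec y) l = F at v3
        generalize (r.coneE p q x c z).C.mulVec ((r.coneE p q x c z).lam y) l = G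
        rw [show s⁻¹ * (F - s * G) - (v - G) = s⁻¹ * (F - s * v) by field_simp; ring, abs_mul,
          abs_of_pos (inv_pos.2 s0), mul_assoc, inv_mul_le_iff₀ s0]
        linarith) j
      rw [Pi.smul_apply, smul_eq_mul, abs_mul, abs_of_pos (inv_pos.2 s0), inv_mul_le_iff₀ s0] at g
      exact g
  · have := (((((hX .i1).mul ((hX .i0).sub (Rep.cs (a := r.de x c .i0 / 2 ^ 24) _ _ _ _ _ ?_))
      (by decide) (by decide)).up 2).scale (f := 128)
      (b := 4 * r.xs p q 1 .i1 * (r.xs p q 1 .i0 - r.de x c .i0 / 2 ^ 24)) (by ring)).sub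
      (Rep.cs (a := (r.de x c .i1 / 2 ^ 24) ^ 2) _ _ _ _ _ ?_)).pos mk_S h5
    · exact sub_pos.1 this
    all_goals
      simp only [Nat.shiftLeft_eq', Nat.shiftLeft_eq, Nat.mul_eq]
      push_cast
      ring

lemma rcc (r : Raw) (π : Pt) (l j : I6) : Rep π 84 15 1 0 (r.cc l j) (r.As π.p π.q π.x l j) := by
  rw [cc, e_mC]
  refine ((ex0 π (b := 63) (dp := 1) (by decide) (h_cl 15) 0 (sl (r.ap l) j)
    (sl (r.an l) j)).up r.u).scale ?_
  simp only [As, Matrix.of_apply, pol, pw_sl]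
  ring

theorem iniE_ok (h : iniE x c r r' = true) (h' : r'.ok x = true) (hp : Par x k ν p q)
    (hz : c.In z) (y : I6 → ℝ) (y0 : y .i0 = 63 / 64) (h2 : ∀ j, |y j| ≤ 1) :
    (r'.ss p q x).Box (z + (r.As p q 1).mulVec y) := fun j => by
  have hS : ∀ l, Rep (hp.bm.pt _ h2) 84 0 3 6 (r.SE c l) ((z + (r.As p q 1).mulVec y) l) :=
    fun l => by
    have a := (((((((r.repE (hp.bp.pt _ h2) l).sub (r.rcy _ l .i0 .i0)).up 6).add
      ((((r.rcc _ l .i0).smul 63).scale (b := 63 / 64 * r.As p q 1 l .i0) (by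
        simp only [Pb.pt, Par.bp]; push_cast; ring)).mono le_rfl le_rfl (by decide))).mono le_rfl
      (by decide : 1 ≤ 5) le_rfl).add (((Ce.rep hz _ l).up 26).mono le_rfl (by decide)
        (by decide))).ev1 le_rfl le_rfl rfl)
    refine (Rep.tE 6 (a.congr ?_)).ctx rfl rfl rfl
    simp only [Pb.pt, Par.bp, Pi.add_apply, y0]
    ring
  have a := Raw.lD_le (r := {r' with kn := fun _ => 0}) (Raw.cr_ok h').1 hp h2 hS j
  simp only [Nat.cast_zero, zero_div, zero_mul, sub_zero] at a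
  exact a.trans (div_le_div_of_nonneg_right
    (Nat.cast_le.2 (Nat.le_of_ble_eq_true (all6_iff.1 h j))) (by positivity))

end Raw

end Pool.Agent.Lib.MP_6e7c44_mp.ER
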