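import Pool.Agent.Lib.MP_6e7c44_mp.ER.SemB

/-! Soundness of the checker of the escape criterion. -/

set_option autoImplicit false

open Set Filter Topology

noncomputable section

namespace Pool.Agent.Lib.MP_6e7c44_mp.ER

open LA hiding TM Rep Pt Raw mX mA mB Traj Out Chain escape exists_step
open MR

lemma Rep.mc {π : Pt} {a b : TM} {u v : ℝ} (ha : Rep π 44 15 3 0 a u) (hb : Rep π 44 15 3 0 b v) :
    Rep π 44 15 3 0 (mc a b) (u * v) := Rep.t3 44 (ha.mul hb (by decide) (by decide))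

/-- The pair of models represents the number `v`. -/
def PR (π : Pt) (a : PM) (v : ℝ) : Prop :=
  ∃ c e : ℝ, Rep π 44 15 3 0 a.c c ∧ Rep π 44 0 3 6 a.e e ∧ v = c + e

namespace PR
variable {π : Pt} {a b : PM} {u v : ℝ}

lemma congr (h : PR π a u) (e : u = v) : PR π a v := e ▸ h

lemma add (ha : PR π a u) (hb : PR π b v) : PR π (a.add b) (u + v) := by
  obtain ⟨c, e, h1, h2, rfl⟩ := ha
  obtain ⟨c', e', h3, h4, rfl⟩ := hb
  exact ⟨_, _, h1.add h3, h2.add h4, by ring⟩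

lemma neg (ha : PR π a u) : PR π a.neg (-u) := by
  obtain ⟨c, e, h1, h2, rfl⟩ := ha
  exact ⟨_, _, h1.neg, h2.neg, by ring⟩

lemma sm {k : TM} (hk : Rep π 44 15 3 0 k v) (ha : PR π a u) : PR π (.sm k a) (v * u) := by
  obtain ⟨c, e, h1, h2, rfl⟩ := ha
  exact ⟨_, _, hk.mc h1, Rep.tE 44 (hk.mul h2 (by decide) (by decide)), by ring⟩

lemma mul (ha : PR π a u) (hb : PR π b v) : PR π (a.mul b) (u * v) := by
  obtain ⟨c, e, h1, h2, rfl⟩ := ha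
  obtain ⟨c', e', h3, h4, rfl⟩ := hb
  refine ⟨_, c * e' + c' * e + e * e', h1.mc h3, (Rep.tE 44 ((h1.mul h4 (by decide) (by decide)).add
    (h3.mul h2 (by decide) (by decide)))).err (le_trans ?_ (le_dn _ _)), by ring⟩
  have := mul_le_mul (h2.bnd mk_V) (h4.bnd mk_V) (by positivity) (by positivity)
  rw [add_sub_cancel_left, abs_mul, le_div_iff₀ (by positivity), Nat.mul_eq, Nat.cast_mul]
  linarith

lemma fl (ha : PR π a u) : Rep π 44 15 3 6 a.fl u := by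
  obtain ⟨c, e, h1, h2, rfl⟩ := ha
  exact (h1.mono le_rfl le_rfl (by decide)).add (h2.mono (by decide) le_rfl le_rfl)

lemma sq (ha : PR π a u) : ∃ s, s ≤ u ^ 2 ∧ Rep π 88 30 6 6 a.sq s := by
  have h := ha.fl
  obtain ⟨c, e, h1, h2, rfl⟩ := ha
  exact ⟨_, by nlinarith [sq_nonneg e],
    h1.mul (h.add (h2.mono (by decide) le_rfl le_rfl)) (by decide) (by decide)⟩

end PR

variable {x : Bx} {k ν : ℝ} {π : Pt}

lemma Bx.rka (h : Par x k ν π.p π.q) (hx : x.ok = true) : Rep π 44 15 3 0 x.ka (k / (1 - ν)) := by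
  obtain ⟨h1, -, h3, h4, h5, h6, h7⟩ := h.reps hx
  have one : Rep π 64 0 1 0 (.cst (p2 64)) 1 := Rep.cs _ _ _ _ _ (by rw [p2_eq]; norm_num)
  have hk : Rep π 64 0 1 0 (x.cp.sub (.cst (p2 63))) k :=
    (h1.sub (Rep.cs (a := 1 / 2) _ _ _ _ _ (by rw [p2_eq]; norm_num))).congr (by ring)
  obtain ⟨a, ha⟩ : ∃ a, ∀ dx dp, Rep π 44 dx dp 0 x.kq a := ⟨_, fun _ _ => Rep.cst π 44 _ _ 0 _⟩
  have c := (((ha 0 0).mul (one.sub h3) (by decide) (by decide)).sub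
    ((hk.up 44).scale (f := 44 + 64) (b := k) (by ring))).bnd mk_S
  refine (ha 15 3).err (le_trans ?_ (le_dn _ _))
  have p : 0 < 1 - ν := by linarith
  have e : a * (1 - ν) - k = -((k / (1 - ν) - a) * (1 - ν)) := by field_simp; ring
  rw [e, abs_neg, abs_mul, abs_of_pos p] at c
  have := mul_le_mul_of_nonneg_left (show 1 / 2 ≤ 1 - ν by linarith) (abs_nonneg (k / (1 - ν) - a))
  rw [le_div_iff₀ (by positivity)]
  linarith

lemma Raw.rZ (r : Raw) (hx : π.x = 1) (l : I6) :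
    PR π (r.Z l) ((r.xs π.p π.q 1 + (r.As π.p π.q 1).mulVec π.y) l) :=
  ⟨_, _, Rep.t3 20 (((Raw.repX π (r.xp l) (r.xn l)).mono le_rfl (by decide) (by decide)).ev1
      le_rfl le_rfl hx),
    Rep.tE 40 (((r.repE π l).mono le_rfl (by decide) le_rfl).ev1 le_rfl le_rfl hx), by
      rw [hx]; rfl⟩

lemma outC_mk {a ν : ℝ} {η y w : ℂ} {α ρ β c κ j φ dL lm m q rc cc l : ℝ}
    (h1 : 1 < α) (h2 : (1 / 2 + a) * α ≤ β) (h3 : (1 / 2 - a) * α ≤ β) (h4 : β + 1 / 2 ≤ ρ)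
    (h5 : ρ ^ 2 ≤ ‖y‖ ^ 2) (h6 : 0 ≤ dot y w) (h7 : 3 * α ^ 2 * (1 / 4 - a * a) ≤ c) (h8 : 0 < κ)
    (h9 : 0 < j) (h10 : 2 * (κ * (ρ - β)) + j * j ≤ 4 * j * (κ * φ) * ((ρ - β) * (ρ - β)))
    (h11 : 0 ≤ l) (h12 : l ≤ lm) (h13 : κ * (ρ * ρ) + lm * lm * (ρ - β) ≤ 2 * (ρ * (ρ - β)))
    (h14 : l + dL ≤ |cr y w|) (h15 : c * (ρ * φ) ≤ dL * (ρ - β)) (h16 : 0 < rc)
    (h17 : 1 / 800 + c / (3 * (ρ - β) ^ 3) + 1 / (2 * rc) ≤ cc)
    (h18 : 2 * cc * ‖y‖ ^ 2 + rc ≤ dot y w ^ 2 + l ^ 2) (h19 : ν ≤ 1 / 2) (h20 : 3 / 20 ≤ m)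
    (h21 : m ^ 2 ≤ α) (h22 : m + 2 * ν * α ^ 2 * φ ≤ η.im) (h23 : 0 ≤ q) (h24 : 2 * α ≤ q ^ 2)
    (h25 : ‖η‖ ^ 2 + 4 * ν * q * φ < 2 * ((1 - ν) * (1 - 1 / α)) + m ^ 2 / α ^ 2) :
    OutC (1 / 2 + a) ν η y w := by
  have s0 : 0 < ρ - β := by linarith
  have r0 : 0 < ρ := by linarith
  have y1 : ρ ≤ ‖y‖ := (pow_le_pow_iff_left₀ r0.le (norm_nonneg _) two_ne_zero).1 h5
  have y0 : 0 < ‖y‖ := r0.trans_le y1
  refine ⟨α, ρ, β, c, κ, j, φ, l, m, q, h1, h2, by linarith, h4, y1, h6, by linarith, h8, h9, ?_,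
    h11, ?_, ?_, ?_, h19, h20, h21, h22, h23, h24, ?_⟩
  · rw [div_add_div _ _ (by positivity) (by positivity), div_le_iff₀ (by positivity)]
    have := mul_le_mul_of_nonneg_left h10 (show 0 ≤ 2 * (ρ - β) by positivity)
    linarith
  · have := mul_le_mul_of_nonneg_right (mul_self_le_mul_self h11 h12) s0.le
    linarith
  · have : c * ρ / (ρ - β) * φ ≤ dL := by
      rw [div_mul_eq_mul_div, div_le_iff₀ s0]; linarith
    linarith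
  · have e : 1 / (2 * rc) + rc / (2 * ‖y‖ ^ 2) - 1 / ‖y‖
        = (‖y‖ - rc) ^ 2 / (2 * rc * ‖y‖ ^ 2) := by field_simp; ring
    have e0 : 0 ≤ (‖y‖ - rc) ^ 2 / (2 * rc * ‖y‖ ^ 2) := by positivity
    have e1 : cc + rc / (2 * ‖y‖ ^ 2) ≤ (dot y w ^ 2 + l ^ 2) / (2 * ‖y‖ ^ 2) := by
      rw [le_div_iff₀ (by positivity), add_mul, div_mul_cancel₀ _ (by positivity)]; linarith
    linarith
  · have e : m ^ 2 / (2 * α ^ 2) = m ^ 2 / α ^ 2 / 2 := by rw [div_div, mul_comm]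
    rw [e]; linarith

lemma div_lt' (a : ℕ) {b : ℕ} (hb : 0 < b) : (a : ℝ) / b ≤ (a / b : ℕ) + 1 := by
  have h : (a : ℝ) < ((a / b + 1 : ℕ) : ℝ) * b := by
    exact_mod_cast (Nat.div_lt_iff_lt_mul hb).1 (Nat.lt_succ_self _)
  rw [div_le_iff₀ (by exact_mod_cast hb)]
  push_cast at h
  exact h.le

theorem Oc.out_ok {o : Oc} {r : Raw} {x : Bx} {k ν p q : ℝ} (h : o.ok r x = true)
    (hp : Par x k ν p q) : r.ok x = true ∧ ∀ z, (r.ss p q x).out z → Out k ν z := by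
  simp only [Oc.ok, Bool.and_eq_true] at h
  obtain ⟨h0, hn, hs⟩ := h
  refine ⟨h0, ?_⟩
  rintro z ⟨y, hy, hz, -⟩
  have hx : x.ok = true := by
    simp only [Raw.ok, Cr.ok, Bool.and_eq_true] at h0
    exact h0.2.1.1
  obtain ⟨π, πx, rfl, rfl, rfl⟩ : ∃ π : Pt, π.x = 1 ∧ π.p = p ∧ π.q = q ∧ π.y = y :=
    ⟨⟨1, p, q, y, by simp, hp.hp, hp.hq, hy⟩, rfl, rfl, rfl, rfl⟩
  have Z : ∀ l, PR π (r.Z l) (z l) := fun l => hz ▸ r.rZ πx l
  have ka := Bx.rka hp hx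
  obtain ⟨-, -, rν, -, ν0, ν1, νd⟩ := hp.reps hx
  unfold Out
  generalize k / (1 - ν) = a at ka ⊢
  have yr : PR π (r.yr x) (z .i2 + a) := by
    obtain ⟨c, e, h1, h2, h3⟩ := Z .i2
    exact ⟨_, _, h1.add ka, h2, by rw [h3]; ring⟩
  have wr : PR π (r.wr x) _ := (Z .i4).add ((Z .i0).sm ka)
  have wi : PR π (r.wi x) _ := (Z .i5).add ((Z .i1).sm ka)
  generalize hη : (⟨z .i0, z .i1⟩ : ℂ) = η
  generalize hY : (⟨z .i2 + a, z .i3⟩ : ℂ) = Y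
  generalize hW : (⟨z .i4 + a * z .i0, z .i5 + a * z .i1⟩ : ℂ) = W
  have oD : PR π (r.oD x) (dot Y W) := ((yr.mul wr).add ((Z .i3).mul wi)).congr (by
    rw [← hY, ← hW]; rfl)
  have oL : PR π (r.oL x) (cr Y W) := ((yr.mul wi).add ((Z .i3).mul wr).neg).congr (by
    rw [← hY, ← hW, ← sub_eq_add_neg]; rfl)
  have oQ : PR π (r.oQ x) (‖Y‖ ^ 2) := ((yr.mul yr).add ((Z .i3).mul (Z .i3))).congr (by
    rw [sq_norm', ← hY]; ring)
  have oH : PR π r.oH (‖η‖ ^ 2) := (((Z .i0).mul (Z .i0)).add ((Z .i1).mul (Z .i1))).congr (by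
    rw [sq_norm', ← hη]; ring)
  have z1 : PR π (r.Z .i1) η.im := (Z .i1).congr (by rw [← hη])
  obtain ⟨l, ol, hl⟩ : ∃ l, PR π (o.l r x) l ∧ l + o.dL / 2 ^ 16 ≤ |cr Y W| := by
    have c : PR π ⟨(TM.cst (Nat.shiftLeft o.dL 28)).neg, .cst 0⟩ (-(o.dL / 2 ^ 16)) :=
      ⟨_, _, (Rep.cs (a := o.dL / 2 ^ 16) _ _ _ _ _ (by
        simp only [Nat.shiftLeft_eq', Nat.shiftLeft_eq]; push_cast; ring)).neg,
        Rep.cs (a := 0) _ _ _ _ _ (by simp), by ring⟩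
    unfold Oc.l
    cases o.s
    · exact ⟨_, oL.neg.add c, by linarith [neg_le_abs (cr Y W)]⟩
    · exact ⟨_, oL.add c, by linarith [le_abs_self (cr Y W)]⟩
  obtain ⟨sD, sD1, sD2⟩ := oD.sq
  obtain ⟨sl, sl1, sl2⟩ := ol.sq
  simp only [Oc.ps, List.all_cons, List.all_nil, Bool.and_eq_true, Bool.and_true] at hs
  obtain ⟨s0, s1, s2, s3, s4, s5, s6, s7, s8, s9⟩ := hs
  have t0 := ((Rep.cst π 44 15 3 0 _).sub (((Rep.cst π 44 15 3 0 _).add ka).smul _)).pos mk_V s0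
  have t1 := ((Rep.cst π 44 15 3 0 _).sub (((Rep.cst π 44 15 3 0 _).sub ka).smul _)).pos mk_V s1
  have t2 := ((Rep.cst π 44 15 3 0 _).sub
    (((Rep.cst π 44 15 3 0 _).sub (ka.mc ka)).smul _)).pos mk_V s2
  have t3 := (oQ.fl.sub (Rep.cst π 44 15 3 6 _)).pos mk_V s3
  have t4 := oD.fl.pos mk_V s4
  have t5 := ol.fl.pos mk_V s5
  have t6 := ((Rep.cst π 44 15 3 6 _).sub ol.fl).pos mk_V s6
  have t7 := ((sD2.add sl2).sub (((((oQ.fl.smul o.cc).up 29).mono (by decide) (by decide)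
    le_rfl).scale (b := o.cc * ‖Y‖ ^ 2 / 2 ^ 15) (by ring)).add (Rep.cst π 88 30 6 6 _))).pos
      mk_V s7
  have t8 := (z1.fl.sub (Rep.cst π 44 15 3 6 _)).pos mk_V s8
  have t9 := (((((((Rep.cst π 21 15 3 6 _).sub ((Rep.t3 (e := 21) 43 rν).mono le_rfl le_rfl
    (by decide))).smul
    (Nat.div (Nat.shiftLeft (Nat.sub o.al 65536) 16) o.al)).up 8).scale (f := 44)
    (b := (Nat.div (Nat.shiftLeft (Nat.sub o.al 65536) 16) o.al : ℕ) * (1 - ν) / 2 ^ 15)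
    (by rw [p2_eq]; push_cast; ring)).add (Rep.cst π 44 15 3 6 _)).sub
    (oH.fl.add (Rep.cst π 44 15 3 6 _))).pos mk_V s9
  clear s0 s1 s2 s3 s4 s5 s6 s7 s8 s9 sD2 sl2 ol z1 oH oQ oL oD wi wr yr ka Z rν h0 hz
  simp only [Oc.nat, Bool.and_eq_true, Nat.blt_eq, Nat.ble_eq, Nat.add_eq, Nat.mul_eq,
    Nat.shiftLeft_eq', Nat.shiftLeft_eq] at hn
  obtain ⟨n0, n1, n2, n3, n4, n5, n6, n7, n8, n9, n10⟩ := hn
  have sg : (o.sg : ℝ) = o.rho - o.be := Nat.cast_sub (by omega)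
  have sg0 : 0 < o.sg := by unfold Oc.sg; rw [Nat.sub_eq]; omega
  have d8 := le_dn (Nat.mul (Nat.mul x.d o.a2) o.ph) 23
  have d9 := le_dn (Nat.mul (Nat.mul x.d o.q) o.ph) 6
  have c1 := div_lt' (Nat.shiftLeft o.c 48) (b := Nat.mul 3 (Nat.mul o.sg (Nat.mul o.sg o.sg)))
    (by simp only [Nat.mul_eq]; positivity)
  have c2 := div_lt' (p2 31) n4
  have c3 : ((Nat.div (Nat.shiftLeft (Nat.sub o.al 65536) 16) o.al : ℕ) : ℝ) ≤ _ := Nat.cast_div_le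
  have c4 : ((Nat.div (Nat.shiftLeft (Nat.mul o.m o.m) 44) o.a2 : ℕ) : ℝ) ≤ _ := Nat.cast_div_le
  have cc : (o.cc : ℝ) = 84 + (Nat.shiftLeft o.c 48 / Nat.mul 3 (Nat.mul o.sg (Nat.mul o.sg o.sg)) : ℕ)
      + (p2 31 / o.rc : ℕ) := by
    simp only [Oc.cc, Nat.add_eq, ndiv]; push_cast; rfl
  generalize dn (Nat.mul (Nat.mul x.d o.a2) o.ph) 23 = e8 at d8 t8
  generalize dn (Nat.mul (Nat.mul x.d o.q) o.ph) 6 = e9 at d9 t9
  generalize (Nat.shiftLeft o.c 48 / Nat.mul 3 (Nat.mul o.sg (Nat.mul o.sg o.sg)) : ℕ) = f1 at c1 cc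
  generalize (p2 31 / o.rc : ℕ) = f2 at c2 cc
  generalize Nat.div (Nat.shiftLeft (Nat.sub o.al 65536) 16) o.al = f3 at c3 t9
  generalize Nat.div (Nat.shiftLeft (Nat.mul o.m o.m) 44) o.a2 = f4 at c4 t9
  have as : ((Nat.sub o.al 65536 : ℕ) : ℝ) = o.al - 65536 := Nat.cast_sub n0.le
  simp only [Oc.a2, p2_eq, Nat.add_eq, Nat.mul_eq, Nat.shiftLeft_eq', Nat.shiftLeft_eq, Nat.cast_add,
    Nat.cast_mul, Nat.cast_pow, Nat.cast_ofNat, as, sg] at t0 t1 t2 t3 t6 t7 t8 d8 d9 c1 c2 c3 c4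
  have m0 : (65536 : ℝ) < o.al := by exact_mod_cast n0
  have m1 : (o.be : ℝ) + 32768 ≤ o.rho := by exact_mod_cast n1
  have m2 : (0 : ℝ) < o.kp := by exact_mod_cast n2
  have m3 : (0 : ℝ) < o.j := by exact_mod_cast n3
  have m4 : (0 : ℝ) < o.rc := by exact_mod_cast n4
  have m5 := (Nat.cast_le (α := ℝ)).2 n5
  have m6 := (Nat.cast_le (α := ℝ)).2 n6
  have m7 := (Nat.cast_le (α := ℝ)).2 n7
  have m8 := (Nat.cast_le (α := ℝ)).2 n8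
  have m9 := (Nat.cast_le (α := ℝ)).2 n9
  have m10 := (Nat.cast_le (α := ℝ)).2 n10
  simp only [Nat.cast_add, Nat.cast_mul, Nat.cast_pow, Nat.cast_ofNat, sg] at m5 m6 m7 m8 m9 m10
  have ph0 : (0 : ℝ) ≤ o.ph := Nat.cast_nonneg _
  have q0 : (0 : ℝ) ≤ o.q := Nat.cast_nonneg _
  have k8 := mul_le_mul_of_nonneg_right νd (mul_nonneg (mul_self_nonneg (o.al : ℝ)) ph0)
  have k9 := mul_le_mul_of_nonneg_right νd (mul_nonneg q0 ph0)
  have k3 := mul_le_mul_of_nonneg_right c3 (show 0 ≤ 1 - ν by linarith)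
  have s0 : (0 : ℝ) < o.rho - o.be := by linarith
  have a0 : (0 : ℝ) < o.al := by linarith
  refine outC_mk (α := o.al / 2 ^ 16) (ρ := o.rho / 2 ^ 16) (β := o.be / 2 ^ 16) (c := o.c / 2 ^ 16)
    (κ := o.kp / 2 ^ 16) (j := o.j / 2 ^ 16) (φ := o.ph / 2 ^ 16) (lm := o.lm / 2 ^ 16)
    (m := o.m / 2 ^ 16) (q := o.q / 2 ^ 16) (rc := o.rc / 2 ^ 16) (cc := o.cc / 2 ^ 16)
    (by linarith) (by linarith) (by linarith) (by linarith) (by linarith) t4.le (by linarith)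
    (by linarith) (by linarith) (by linarith) t5.le (by linarith) (by linarith) hl
    (by linarith) (by linarith) ?_ (by linarith) ν1 (by linarith) (by linarith) (by linarith)
    (by linarith) (by linarith) ?_
  · have e1 : (o.c : ℝ) / 2 ^ 16 / (3 * ((o.rho : ℝ) / 2 ^ 16 - o.be / 2 ^ 16) ^ 3) = o.c * 2 ^ 48 /
        (3 * ((o.rho - o.be) * ((o.rho - o.be) * (o.rho - o.be)))) / 2 ^ 16 := by
      rw [← sub_div]; field_simp
    have e2 : 1 / (2 * ((o.rc : ℝ) / 2 ^ 16)) = 2 ^ 31 / o.rc / 2 ^ 16 := by field_simp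
    rw [e1, e2, cc]
    linarith
  · have e1 : 1 - 1 / ((o.al : ℝ) / 2 ^ 16) = (o.al - 65536) * 2 ^ 16 / o.al / 2 ^ 16 := by
      field_simp; norm_num
    have e2 : ((o.m : ℝ) / 2 ^ 16) ^ 2 / (o.al / 2 ^ 16) ^ 2
        = o.m * o.m * 2 ^ 44 / (o.al * o.al) / 2 ^ 44 := by field_simp
    rw [e1, e2]
    linarith

end Pool.Agent.Lib.MP_6e7c44_mp.ER
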