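import Pool.Agent.Lib.MP_6e7c44_mp.ER.Step
import Pool.Agent.Lib.MP_6e7c44_mp.ER.LocE
import Pool.Agent.Lib.MP_6e7c44_mp.ER.OutC
import Pool.Agent.Lib.MP_6e7c44_mp.MR.Fam

/-! From the data to escaping orbits. -/

set_option autoImplicit false

open Set Filter Topology

noncomputable section

namespace Pool.Agent.Lib.MP_6e7c44_mp.ER

open LA hiding TM Rep Pt Raw mX mA mB Traj Out Chain escape exists_step
open MR

/-- The step `D` starts a chain of plain links that ends in escape. -/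
def Gd (x : Bx) (D : DT) : Prop := D.un.ok x = true ∧ ∀ k ν, Par x k ν 0 0 →
  ∃ l, Chain k ν 0 (D.un.ss 0 0 x) l

theorem fin_ok {x : Bx} {D : DT} (o : ℕ) (h : (unO o).ok D.un x = true) : Gd x D := by
  have h0 : D.un.ok x = true := by
    simp only [Oc.ok, Bool.and_eq_true] at h
    exact h.1
  exact ⟨h0, fun k ν hp => ⟨[], Raw.ss_ok h0 hp, (Oc.out_ok h hp).2⟩⟩

theorem run_ok {x : Bx} {D D' : DT} (l : List DT) (h : run x 0 D l = true)
    (e' : l.getLastD D = D') (g : Gd x D') : Gd x D := by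
  induction l generalizing D with
  | nil =>
    obtain rfl : D = D' := e'
    exact g
  | cons E l ih =>
    simp only [run, Bool.and_eq_true] at h
    obtain ⟨h1, h2, h3⟩ := h
    have g' := ih h3 (by rw [← e', List.getLastD_cons])
    refine ⟨h1, fun k ν hp => ?_⟩
    obtain ⟨L, hL⟩ := g'.2 k ν hp
    exact ⟨_ :: L, Raw.ss_ok h1 hp, link_ok h2 g'.1 hp, hL⟩

variable {x : Bx} {μ : Fin 3 → ℝ}

/-- The state `z` has a cone and a tube that ends in escape. -/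
def CertE (μ : Fin 3 → ℝ) (z : I6 → ℝ) : Prop := ∃ (c : EC) (s : SS) (l : List SS), c.x = z ∧
  c.OK ((μ 0 - μ 1) / 2) (μ 2) ∧ (∀ y : I6 → ℝ, y .i0 = 63 / 64 → (∀ j, |y j| ≤ 1) →
    s.Box (c.x + c.C.mulVec y)) ∧ Chain ((μ 0 - μ 1) / 2) (μ 2) 0 s l

theorem lag_ok (C : DT) {D : DT} (h : (C.un.okL x && init x C.un D.un) = true) (g : Gd x D)
    (hp : Par x ((μ 0 - μ 1) / 2) (μ 2) 0 0) : MR.Cert μ := by
  rw [Bool.and_eq_true] at h
  obtain ⟨l, hl⟩ := g.2 _ _ hp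
  exact ⟨_, 0, _, l, Raw.cone_ok h.1 hp, init_ok h.2 g.1 hp, hl⟩

theorem eul_ok (C : DT) {D : DT} {c : Ce} (h : (C.un.okE x c && iniE x c C.un D.un) = true)
    (g : Gd x D) (hp : Par x ((μ 0 - μ 1) / 2) (μ 2) 0 0) {z : I6 → ℝ}
    (hz : c.In z) (f0 : fr ((μ 0 - μ 1) / 2) (μ 2) z = 0) : CertE μ z := by
  rw [Bool.and_eq_true] at h
  obtain ⟨l, hl⟩ := g.2 _ _ hp
  exact ⟨_, _, l, rfl, Raw.coneE_ok h.1 hp hz f0, Raw.iniE_ok h.2 g.1 hp hz, hl⟩

end Pool.Agent.Lib.MP_6e7c44_mp.ER
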