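import Pool.Agent.Lib.MP_6e7c44_mp.ER.Cls

/-! The equation of Euler and the location of its root. -/

set_option autoImplicit false

open Set Complex Filter Topology

noncomputable section

namespace Pool.Agent.Lib.MP_6e7c44_mp.ER

open LA MR

/-- The function whose root is the shape of the collinear relative equilibrium. -/
def phi (k ν Y : ℝ) : ℝ := (1 - ν) * Y - ν * ((Y - 1 / 2)⁻¹ + (Y + 1 / 2)⁻¹) ^ 2 / 2 + k
  - (1 / 2 + k) * (Y + 1 / 2)⁻¹ ^ 2 - (1 / 2 - k) * (Y - 1 / 2)⁻¹ ^ 2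

/-- The square of the angular velocity. -/
def om2 (ν Y : ℝ) : ℝ := 1 - ν - ν * ((Y - 1 / 2)⁻¹ ^ 2 - (Y + 1 / 2)⁻¹ ^ 2)

lemma phi_lt {k ν Y Z : ℝ} (hk : |k| ≤ 1 / 2) (h0 : 0 ≤ ν) (h1 : ν < 1) (hY : 1 / 2 < Y)
    (h : Y < Z) : phi k ν Y < phi k ν Z := by
  obtain ⟨k0, k1⟩ := abs_le.1 hk
  have y0 : 0 < Y - 1 / 2 := by linarith
  have y1 : 0 < Y + 1 / 2 := by linarith
  have z0 : 0 < Z - 1 / 2 := by linarith
  have z1 : 0 < Z + 1 / 2 := by linarith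
  have a : (Z - 1 / 2)⁻¹ ≤ (Y - 1 / 2)⁻¹ := inv_anti₀ y0 (by linarith)
  have b : (Z + 1 / 2)⁻¹ ≤ (Y + 1 / 2)⁻¹ := inv_anti₀ y1 (by linarith)
  have c1 := mul_le_mul_of_nonneg_left (pow_le_pow_left₀ (by positivity) (add_le_add a b) 2) h0
  have c2 := mul_le_mul_of_nonneg_left (pow_le_pow_left₀ (by positivity) b 2)
    (by linarith : 0 ≤ 1 / 2 + k)
  have c3 := mul_le_mul_of_nonneg_left (pow_le_pow_left₀ (by positivity) a 2)
    (by linarith : 0 ≤ 1 / 2 - k)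
  have c4 := mul_lt_mul_of_pos_left h (by linarith : 0 < 1 - ν)
  simp only [phi]
  linarith

/-- The root lies between two points at which `phi` has opposite signs. -/
lemma phi_loc {k ν Y a b : ℝ} (hk : |k| ≤ 1 / 2) (h0 : 0 ≤ ν) (h1 : ν < 1) (hY : 1 / 2 < Y)
    (h : phi k ν Y = 0) (hb : 1 / 2 < b) (pa : phi k ν a ≤ 0) (pb : 0 ≤ phi k ν b) :
    a ≤ Y ∧ Y ≤ b :=
  ⟨le_of_not_gt fun c => by linarith [phi_lt hk h0 h1 hY c],
    le_of_not_gt fun c => by linarith [phi_lt hk h0 h1 hb c]⟩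

lemma om2_le {ν Y Z : ℝ} (h0 : 0 ≤ ν) (hY : 1 / 2 < Y) (h : Y ≤ Z) : om2 ν Y ≤ om2 ν Z := by
  have e : ∀ X : ℝ, 1 / 2 < X → (X - 1 / 2)⁻¹ ^ 2 - (X + 1 / 2)⁻¹ ^ 2
      = ((X - 1 / 2)⁻¹ + (X + 1 / 2)⁻¹) * ((X - 1 / 2)⁻¹ * (X + 1 / 2)⁻¹) := fun X hX => by
    have x0 : X - 1 / 2 ≠ 0 := by linarith
    have x1 : X + 1 / 2 ≠ 0 := by linarith
    obtain ⟨s, rfl⟩ : ∃ s, X = s + 1 / 2 := ⟨X - 1 / 2, by ring⟩
    rw [add_sub_cancel_right] at x0 ⊢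
    rw [show s + 1 / 2 + 1 / 2 = s + 1 by ring] at x1 ⊢
    field_simp
    ring
  have y0 : 0 < Y - 1 / 2 := by linarith
  have y1 : 0 < Y + 1 / 2 := by linarith
  have z0 : 0 < Z - 1 / 2 := by linarith
  have z1 : 0 < Z + 1 / 2 := by linarith
  have a : (Z - 1 / 2)⁻¹ ≤ (Y - 1 / 2)⁻¹ := inv_anti₀ y0 (by linarith)
  have b : (Z + 1 / 2)⁻¹ ≤ (Y + 1 / 2)⁻¹ := inv_anti₀ y1 (by linarith)
  rw [om2, om2, e Y hY, e Z (by linarith)]
  gcongr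

lemma ff_re {s : ℝ} (h : 0 < s) : (ff s).re = s⁻¹ ^ 2 ∧ (ff (-s)).re = -s⁻¹ ^ 2 := by
  have : (ff s).re = s⁻¹ ^ 2 := by
    simp only [ff, smul_re, smul_eq_mul, ofReal_re, norm_real, Real.norm_of_nonneg h.le]
    field_simp
  exact ⟨this, by rw [ff_neg, neg_re, this]⟩

lemma eul_eq {k ν Y w : ℝ} (h : fr k ν (co (rig Y w)) = 0) :
    w ^ 2 - 1 + ν = ν * (ff (Y + 1 / 2)).re - ν * (ff (Y - 1 / 2)).re ∧
      w ^ 2 * Y + k = (1 / 2 + k) * (ff (Y + 1 / 2)).re + (1 / 2 - k) * (ff (Y - 1 / 2)).re := by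
  have y : yc (co (rig Y w)) = Y := rfl
  have h0 := congrFun h .i0
  have h4 := congrFun h .i4
  simp only [fr, y, Fc] at h0 h4
  generalize ff (Y + 1 / 2) = A, ff (Y - 1 / 2) = B at *
  simp only [co, rig, add_re, mul_re, mul_im, ofReal_re, ofReal_im, smul_re, smul_eq_mul, I_re,
    I_im, Pi.zero_apply] at h0 h4
  constructor <;> linarith

lemma om2_mul {k ν Y : ℝ} (hY : 1 / 2 < Y) : phi k ν Y = om2 ν Y * Y + k
    - (1 / 2 + k) * (Y + 1 / 2)⁻¹ ^ 2 - (1 / 2 - k) * (Y - 1 / 2)⁻¹ ^ 2 := by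
  have x0 := mul_inv_cancel₀ (show Y - 1 / 2 ≠ 0 by linarith)
  have x1 := mul_inv_cancel₀ (show Y + 1 / 2 ≠ 0 by linarith)
  simp only [phi, om2]
  generalize (Y - 1 / 2)⁻¹ = a, (Y + 1 / 2)⁻¹ = b at *
  linear_combination ν * (a + b) * (x0 - x1)

/-- The third body on the side of the second one. -/
theorem eul_pos {k ν Y w : ℝ} (hY : 1 / 2 < Y) (h : fr k ν (co (rig Y w)) = 0) :
    phi k ν Y = 0 ∧ w ^ 2 = om2 ν Y := by
  obtain ⟨a, b⟩ := eul_eq h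
  have e0 := (ff_re (show 0 < Y + 1 / 2 by linarith)).1
  have e1 := (ff_re (show 0 < Y - 1 / 2 by linarith)).1
  push_cast at e0 e1
  rw [e0, e1] at a b
  have c : w ^ 2 = om2 ν Y := by rw [om2]; linarith
  exact ⟨by rw [om2_mul hY, ← c]; linarith, c⟩

/-- The third body on the side of the first one. -/
theorem eul_neg {k ν Y w : ℝ} (hY : Y < -(1 / 2)) (h : fr k ν (co (rig Y w)) = 0) :
    phi (-k) ν (-Y) = 0 ∧ w ^ 2 = om2 ν (-Y) := by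
  obtain ⟨a, b⟩ := eul_eq h
  have e0 := (ff_re (show 0 < -Y - 1 / 2 by linarith)).2
  have e1 := (ff_re (show 0 < -Y + 1 / 2 by linarith)).2
  push_cast at e0 e1
  rw [show -(-(Y : ℂ) - 1 / 2) = Y + 1 / 2 by ring] at e0
  rw [show -(-(Y : ℂ) + 1 / 2) = Y - 1 / 2 by ring] at e1
  rw [e0, e1] at a b
  have c : w ^ 2 = om2 ν (-Y) := by rw [om2]; linarith
  exact ⟨by rw [om2_mul (by linarith), ← c]; linarith, c⟩

end Pool.Agent.Lib.MP_6e7c44_mp.ER
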