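import Pool.Agent.Lib.MP_6e7c44_mp.ER.Flow
import Pool.Agent.Lib.MP_6e7c44_mp.ER.Quint

/-! The reduced state of a solution and the reduced equilibria. -/

set_option autoImplicit false

open Set Complex Filter Topology

noncomputable section

namespace Pool.Agent.Lib.MP_6e7c44_mp.ER

open LA MR

abbrev PS := (Fin 3 → ℂ) × (Fin 3 → ℂ)

/-- The angular velocity of the circular motion at the distance `x`. -/
def sc (M : ℝ) (x : ℂ) : ℝ := √(M / ‖x‖ ^ 3)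

/-- The reduced state. -/
def rd (M : ℝ) (p : PS) : Z3 := ((p.2 1 - p.2 0) / (sc M (p.1 1 - p.1 0) * (p.1 1 - p.1 0)),
  (p.1 2 - p.1 0) / (p.1 1 - p.1 0) - 1 / 2,
  (p.2 2 - p.2 0 - (p.2 1 - p.2 0) / 2) / (sc M (p.1 1 - p.1 0) * (p.1 1 - p.1 0)))

lemma sc_pos {M : ℝ} {x : ℂ} (hM : 0 < M) (hx : x ≠ 0) : 0 < sc M x := by
  have := norm_pos_iff.2 hx
  unfold sc; positivity

lemma sc_sq {M : ℝ} (hM : 0 < M) (x : ℂ) : sc M x ^ 2 = M * (‖x‖ ^ 3)⁻¹ :=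
  Real.sq_sqrt (by positivity)

lemma sc_cont {M : ℝ} {x : ℂ} (hx : x ≠ 0) : ContinuousAt (sc M) x :=
  (continuousAt_const.div (continuous_norm.continuousAt.pow 3)
    (pow_ne_zero _ (norm_ne_zero_iff.2 hx))).sqrt

lemma rd_cont {M : ℝ} (hM : 0 < M) {p : PS} (h : p.1 1 - p.1 0 ≠ 0) : ContinuousAt (rd M) p := by
  have a : ContinuousAt (fun p : PS => (sc M (p.1 1 - p.1 0) : ℂ) * (p.1 1 - p.1 0)) p :=
    (continuous_ofReal.continuousAt.comp (ContinuousAt.comp (f := fun p : PS => p.1 1 - p.1 0)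
      (sc_cont h) (by fun_prop))).mul (by fun_prop)
  have n := mul_ne_zero (ofReal_ne_zero.2 (sc_pos hM h).ne') h
  exact (ContinuousAt.div (by fun_prop) a n).prodMk
    (((ContinuousAt.div (g := fun p : PS => p.1 1 - p.1 0) (by fun_prop) (by fun_prop) h).sub
      continuousAt_const).prodMk
      (ContinuousAt.div (by fun_prop) a n))

lemma rd_cl {m μ : Fin 3 → ℝ} {M : ℝ} (hM : 0 < M) (hm : ∀ a, m a = M * μ a) {p : PS}
    (h : p.1 1 - p.1 0 ≠ 0) (H : phys (rd M p) ∈ closure (Esc μ)) : p ∈ closure (Esc m) := by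
  have hs := sc_pos hM h
  have n := ofReal_ne_zero.2 hs.ne'
  have hr := norm_pos_iff.2 h
  have := bk_cl (ContinuousLinearMap.mul ℝ ℂ (p.1 1 - p.1 0)) hr hs (fun x => norm_mul _ _) 1
    (p.1 0) (p.2 0) (m' := m) (fun b => by rw [sc_sq hM, hm]; simp only [Equiv.Perm.coe_one, id]; field_simp) H
  refine mem_of this (fun a => ?_) (fun a => ?_) <;> fin_cases a <;> simp [phys, rd] <;>
    field_simp <;> ring

lemma sc_der {M : ℝ} (hM : 0 < M) {x : ℝ → ℂ} {η : ℂ} {t : ℝ} (h0 : x t ≠ 0)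
    (h : HasDerivAt x (sc M (x t) * x t * η) t) :
    HasDerivAt (fun s => sc M (x s)) (-(3 / 2 * sc M (x t) ^ 2 * η.re)) t := by
  have hr := norm_pos_iff.2 h0
  have hs := sc_pos hM h0
  have e := sc_sq hM (x t)
  refine hd_congr ((((hd_norm h hr).fun_pow 3).fun_inv (by positivity)).const_mul M |>.sqrt
    (by positivity)) (fun _ => rfl) ?_
  have d : dot (x t) (sc M (x t) * x t * η) = sc M (x t) * η.re * ‖x t‖ ^ 2 := by
    rw [sq_norm']; simp only [dot, mul_re, mul_im, ofReal_re, ofReal_im]; ring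
  rw [d, show √(M * (‖x t‖ ^ 3)⁻¹) = sc M (x t) from rfl, e]
  field_simp
  simp
  ring

/-- The reduced state of a solution solves the reduced system with the clock `sc`. -/
lemma rd_der {m μ : Fin 3 → ℝ} {M : ℝ} (hM : 0 < M) (hm : ∀ a, m a = M * μ a) (hμ : RS.Ms μ)
    {q v : ℝ → Fin 3 → ℂ} {t : ℝ} {f : ℂ} (hq : ∀ a, HasDerivAt (fun s => q s a) (v t a) t)
    (hv : ∀ a, HasDerivAt (fun s => v s a) (bkAcc m (q t) a - f) t) (h0 : q t 1 - q t 0 ≠ 0) :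
    HasDerivAt (fun s => rd M (q s, v s)) (sc M (q t 1 - q t 0) • GR μ (rd M (q t, v t))) t := by
  have hs := sc_pos hM h0
  have n := ofReal_ne_zero.2 hs.ne'
  obtain ⟨η, hη⟩ : ∃ η, v t 1 - v t 0 = sc M (q t 1 - q t 0) * (q t 1 - q t 0) * η :=
    ⟨_, (mul_div_cancel₀ _ (mul_ne_zero n h0)).symm⟩
  obtain ⟨W, hW⟩ : ∃ W, v t 2 - v t 0 = sc M (q t 1 - q t 0) * (q t 1 - q t 0) * (W + η / 2) :=
    ⟨(v t 2 - v t 0) / (sc M (q t 1 - q t 0) * (q t 1 - q t 0)) - η / 2, by field_simp; ring⟩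
  obtain ⟨Y, hY⟩ : ∃ Y, q t 2 - q t 0 = (Y + 1 / 2) * (q t 1 - q t 0) :=
    ⟨(q t 2 - q t 0) / (q t 1 - q t 0) - 1 / 2, by field_simp; ring⟩
  have e : rd M (q t, v t) = (η, Y, W) := by
    simp only [rd, hη, hW, hY, Prod.mk.injEq]
    refine ⟨?_, ?_, ?_⟩ <;> field_simp <;> ring
  have dx := (hq 1).fun_sub (hq 0)
  have ds := ((sc_der hM (x := fun s => q s 1 - q s 0) h0 (hη ▸ dx)).ofReal_comp).fun_mul dx
  have d1 := (hv 1).fun_sub (hv 0)
  have d2 := (hv 2).fun_sub (hv 0)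
  refine hd_congr ((d1.fun_div ds (mul_ne_zero n h0)).prodMk
    (((((hq 2).fun_sub (hq 0)).fun_div dx h0).sub_const (1 / 2)).prodMk
      ((d2.fun_sub (d1.div_const 2)).fun_div ds (mul_ne_zero n h0)))) (fun _ => rfl) ?_
  obtain ⟨b0, b1, b2⟩ := bk_acc m (q t)
  have e3 : q t 2 - q t 1 = (Y - 1 / 2) * (q t 1 - q t 0) := by linear_combination hY
  have f1 : ff (q t 1 - q t 0) = ((‖q t 1 - q t 0‖ ^ 3)⁻¹ : ℝ) * (q t 1 - q t 0) := rfl
  rw [← neg_sub (q t 1), ff_neg] at b1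
  rw [← neg_sub (q t 2) (q t 0), ← neg_sub (q t 2) (q t 1), ff_neg, ff_neg] at b2
  have s2 : (M : ℂ) * ((‖q t 1 - q t 0‖ ^ 3)⁻¹ : ℝ) = (sc M (q t 1 - q t 0) : ℂ) ^ 2 := by
    exact_mod_cast (sc_sq hM _).symm
  have m0 : (μ 0 : ℂ) = 1 - μ 1 - μ 2 := by
    have : μ 0 = 1 - μ 1 - μ 2 := by linarith [hμ.2]
    exact_mod_cast congrArg (fun x : ℝ => (x : ℂ)) this
  simp only [e3, hY, bk_ff_mul, f1, hm] at b0 b1 b2
  rw [e, b0, b1, b2, hη, hW, hY]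
  generalize q t 1 - q t 0 = x at *
  generalize sc M x = s at *
  generalize (‖x‖ ^ 3)⁻¹ = u at *
  simp only [GR, Kp, Sg, Prod.smul_mk, real_smul, Prod.mk.injEq]
  generalize ff (Y + 1 / 2) = A, ff (Y - 1 / 2) = B
  push_cast
  rw [m0]
  refine ⟨?_, ?_, ?_⟩
  · rw [eq_div_iff (pow_ne_zero _ (mul_ne_zero n h0))]
    linear_combination (s * x ^ 2 * (1 - μ 2 * (1 + B - A))) * s2
  · field_simp
    ring
  · rw [eq_div_iff (pow_ne_zero _ (mul_ne_zero n h0))]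
    linear_combination (s * x ^ 2 * ((A + B) / 2 - (1 - μ 1 - μ 2 - μ 1) / 2 * (1 + B - A))) * s2

/-- The mirror image. -/
def cj (z : Z3) : Z3 := ((starRingEnd ℂ) z.1, (starRingEnd ℂ) z.2.1, (starRingEnd ℂ) z.2.2)

lemma ff_conj (x : ℂ) : ff ((starRingEnd ℂ) x) = (starRingEnd ℂ) (ff x) := by
  simp [ff, -ofReal_inv, -ofReal_pow]

lemma St.cj {μ : Fin 3 → ℝ} {e : Z3} (h : St μ (cj e)) : St μ e := by
  obtain ⟨δ, δ0, h⟩ := h
  have c3 : (starRingEnd ℂ) 2 = 2 := map_ofNat _ 2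
  refine ⟨δ, δ0, fun b hb hd => ?_⟩
  have H := h (fun t => ER.cj (b t)) (fun t => ?_) fun t => ?_
  · have := bk_cl (Complex.conjCLE : ℂ →L[ℝ] ℂ) one_pos one_pos (by simp) 1 0 0 (m' := μ)
      (by simp) H
    refine mem_of this (fun a => ?_) (fun a => ?_) <;> fin_cases a <;> simp [phys, ER.cj, c3]
  · refine hd_congr ((HasDerivAt.star (hb t).fst).prodMk ((HasDerivAt.star (hb t).snd.fst).prodMk
      (HasDerivAt.star (hb t).snd.snd))) (fun _ => rfl) ?_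
    have a1 := ff_conj ((b t).2.1 + 1 / 2)
    have a2 := ff_conj ((b t).2.1 - 1 / 2)
    simp only [map_add, map_sub, map_div₀, map_one, c3] at a1 a2
    simp [GR, Kp, Sg, ER.cj, -one_div, a1, a2]
  · refine lt_of_eq_of_lt ?_ (hd t)
    rw [Prod.dist_eq, Prod.dist_eq, Prod.dist_eq, Prod.dist_eq]
    have a : ∀ x y : ℂ, dist ((starRingEnd ℂ) x) ((starRingEnd ℂ) y) = dist x y := fun x y => by
      rw [Complex.dist_eq, Complex.dist_eq, ← map_sub, norm_conj]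
    simp only [ER.cj, a]

end Pool.Agent.Lib.MP_6e7c44_mp.ER
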