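import Pool.Agent.Lib.MP_6e7c44_mp.ER.Flow

/-! The cone at a collinear relative equilibrium with a moving base point. -/

set_option autoImplicit false

open Set Complex Filter Topology

noncomputable section

namespace Pool.Agent.Lib.MP_6e7c44_mp.ER

open LA MR FamA

/-- The link from the full face of the cone to the first step of a tube. -/
def EC.Face (c : EC) (s : SS) : Prop := ∀ y : I6 → ℝ, y .i0 = 63 / 64 → (∀ j, |y j| ≤ 1) →
  s.Box (c.x + c.C.mulVec y)

theorem EC.st {μ : Fin 3 → ℝ} (hμ : RS.Ms μ) {c : EC} (hc : c.OK ((μ 0 - μ 1) / 2) (μ 2))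
    {s : SS} {l : List SS} (hi : c.Face s) (ch : Chain ((μ 0 - μ 1) / 2) (μ 2) 0 s l) {z0 : Z3}
    (h0 : co z0 = c.x) : St μ z0 := by
  obtain ⟨e, v, e0, v0, he, hv, h1, h2, h3⟩ := hc.cone
  obtain ⟨γ, ⟨k1, k2, k3⟩, γ0⟩ : ∃ γ : ℝ, (c.d .i0 + γ + (e + 2 * γ) < c.a ∧
      c.d .i0 + γ + (v + 2 * γ) < c.a ∧ (c.d .i1 + γ) ^ 2 < 4 * c.a' * (c.a - (c.d .i0 + γ))) ∧
      0 < γ := by
    refine (Filter.Eventually.and (mem_nhdsWithin_of_mem_nhds (Filter.Eventually.and ?_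
      (Filter.Eventually.and ?_ ?_))) (self_mem_nhdsWithin (a := (0 : ℝ)) (s := Ioi 0))).exists
    · exact ContinuousAt.eventually_lt (by fun_prop) (by fun_prop) (by simpa using h1)
    · exact ContinuousAt.eventually_lt (by fun_prop) (by fun_prop) (by simpa using h2)
    · exact ContinuousAt.eventually_lt (by fun_prop) (by fun_prop) (by simpa using h3)
  obtain ⟨δ₀, d0, hn⟩ := near_gen hc.det (funext fun j => by cases j <;> simp [EC.lam]) hc.pt h0 γ0
  refine ⟨δ₀, d0, fun b hb hd => mem_closure_iff_nhds.2 fun U hU => ?_⟩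
  replace hU := phys_cont.continuousAt.preimage_mem_nhds hU
  have un := isUnit_iff_ne_zero.2 hc.det
  have cb : Continuous b := continuous_iff_continuousAt.2 fun t => (hb t).continuousAt
  obtain ⟨Y, hY⟩ : ∃ Y : Z3 → I6 → ℝ, Y = fun z => c.C⁻¹.mulVec (co z - c.x) := ⟨_, rfl⟩
  have cY : Continuous Y := hY ▸ continuous_const.matrix_mulVec (co_cont.sub continuous_const)
  have coY : ∀ z, c.x + c.C.mulVec (Y z) = co z := fun z => by
    simp only [hY]
    rw [Matrix.mulVec_mulVec, Matrix.mul_nonsing_inv _ un, Matrix.one_mulVec, add_sub_cancel]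
  have bY : ∀ t j, |Y (b t) j| ≤ 1 / 1024 := fun t => hY ▸ (hn _ (hd t)).1
  obtain ⟨y, hy⟩ : ∃ y : Z3 × ℝ → I6 → ℝ, y = fun q => Y q.1 - Y (b q.2) := ⟨_, rfl⟩
  have cy : Continuous y := hy ▸ (cY.comp continuous_fst).sub (cY.comp (cb.comp continuous_snd))
  have coy : ∀ q, co (b q.2) + c.C.mulVec (y q) = co q.1 := fun q => by
    simp only [hy]
    rw [Matrix.mulVec_sub]
    linear_combination coY q.1 - coY (b q.2)
  have ey : ∀ q j, Y q.1 j = y q j + Y (b q.2) j := fun q j => by simp [hy]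
  have ca : Continuous fun z => y z .i0 ^ 2 := ((continuous_apply _).comp cy).pow 2
  have cl := fun i => (blk_cont i).comp cy
  have le1 : ∀ q, y q .i0 ^ 2 < (255 / 256) ^ 2 ∧ (∀ i, blk (y q) i < (255 / 256) ^ 2) →
      ∀ j, |y q j| ≤ 255 / 256 := fun q hq => blk_le (by norm_num) hq.1.le fun i => (hq.2 i).le
  have sf : ∀ q, y q .i0 ^ 2 < (255 / 256) ^ 2 ∧ (∀ i, blk (y q) i < (255 / 256) ^ 2) →
      Safe (co q.1) := fun q hq => by
    rw [← coy]
    exact ((hn _ (hd _)).2 _ _ le_rfl (le1 q hq)).1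
  have o1 : IsOpen {q | ∀ i, blk (y q) i < (255 / 256) ^ 2} := by
    rw [ofPred_forall]
    exact isOpen_iInter_of_finite fun i => isOpen_lt (cl i) continuous_const
  have o2 : IsClosed {q | ∀ i, blk (y q) i ≤ (127 / 128) ^ 2} := by
    rw [ofPred_forall]
    exact isClosed_iInter fun i => isClosed_le (cl i) continuous_const
  obtain ⟨st, cs, s0, sy⟩ : ∃ st : ℂ → Z3, Continuous st ∧ st 0 = b 0 ∧
      ∀ p, y (st p, 0) = FamA.un p := by
    refine ⟨fun p => oc (c.x + c.C.mulVec (Y (b 0) + FamA.un p)), oc_cont.comp (continuous_const.add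
      (continuous_const.matrix_mulVec (continuous_const.add un_cont))), ?_, fun p => ?_⟩
    · have : FamA.un 0 = 0 := funext fun i => by cases i <;> rfl
      simp only [this, add_zero, coY]
      rfl
    · have : ∀ u, Y (oc (c.x + c.C.mulVec u)) = u := fun u => by
        simp only [hY]
        rw [co_oc, add_sub_cancel_left, Matrix.mulVec_mulVec, Matrix.nonsing_inv_mul _ un,
          Matrix.one_mulVec]
      simp only [hy, this, add_sub_cancel_left]
  obtain ⟨δ, δ0, hδ⟩ := Metric.mem_nhds_iff.1 (cs.continuousAt.preimage_mem_nhds (s0 ▸ hU))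
  obtain ⟨r, r0, r1, r2⟩ : ∃ r : ℝ, 0 < r ∧ r < δ ∧ r ≤ 1 / 2 :=
    ⟨min (δ / 2) (1 / 2), by positivity, (min_le_left _ _).trans_lt (by linarith),
      min_le_right _ _⟩
  have q1 : y (st r, 0) .i0 = r := by rw [sy]; rfl
  have q2 : ∀ i, blk (y (st r, 0)) i = 0 := fun i => by
    rw [sy]; fin_cases i <;> simp [blk, FamA.un, qb, qc]
  have sU : st r ∈ phys ⁻¹' U := hδ (by simpa [abs_of_pos r0] using r1 : (r : ℂ) ∈ _)
  generalize st r = p at q1 q2 sU
  have pa : 0 < c.a - (c.d .i0 + γ) := by linarith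
  obtain ⟨T, T0, T1⟩ : ∃ T : ℝ, 0 ≤ T ∧ 2 * (c.a - (c.d .i0 + γ)) * r ^ 2 * T = 1 :=
    ⟨(2 * (c.a - (c.d .i0 + γ)) * r ^ 2)⁻¹, by positivity, mul_inv_cancel₀ (by positivity)⟩
  have KV : {q | y q .i0 ^ 2 ≤ (127 / 128) ^ 2 ∧ ∀ i, blk (y q) i ≤ (127 / 128) ^ 2} ⊆
      {q | y q .i0 ^ 2 < (255 / 256) ^ 2 ∧ ∀ i, blk (y q) i < (255 / 256) ^ 2} :=
    fun z hz => ⟨hz.1.trans_lt (by norm_num), fun i => (hz.2 i).trans_lt (by norm_num)⟩
  obtain ⟨Φ, β, c1, f0, c2, b0, hf⟩ := pair_flow μ hb ((isOpen_lt ca continuous_const).inter o1)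
    ((isClosed_le ca continuous_const).inter o2) KV sf T
  obtain ⟨b1, hf⟩ := hf p ⟨show y (p, 0) .i0 ^ 2 < _ by rw [q1]; nlinarith, fun i => by rw [q2]; norm_num⟩
  have cγ : Continuous fun t => Φ t p := c1.comp (Continuous.prodMk_left p)
  obtain ⟨u, hu⟩ : ∃ u : Z3 → I6 → ℝ,
    u = fun z => c.C⁻¹.mulVec (fr ((μ 0 - μ 1) / 2) (μ 2) (co z)) := ⟨_, rfl⟩
  have dY : ∀ {γ : ℝ → Z3} {g t : ℝ}, HasDerivAt γ (g • GR μ (γ t)) t → ∀ j,
      HasDerivAt (fun s => Y (γ s) j) (g * u (γ t) j) t := fun h j => by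
    have := HasDerivAt.fun_sum (u := Finset.univ) fun i _ =>
      ((co_der h i).sub_const (c.x i)).const_mul (c.C⁻¹ j i)
    refine hd_congr this (fun s => by rw [hY]; rfl) ?_
    simp only [hu, Matrix.mulVec, dotProduct, Finset.mul_sum]
    exact Finset.sum_congr rfl fun i _ => by ring
  obtain ⟨w, hw⟩ : ∃ w : ℝ → I6 → ℝ, w = fun t => u (Φ t p).1 - u (b (Φ t p).2) := ⟨_, rfl⟩
  have hd' : ∀ t j, HasDerivAt (fun s => y (Φ s p) j) (β (Φ t p) * w t j) t := fun t j =>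
    hd_congr ((dY (hf t).2.1 j).fun_sub (dY (hf t).2.2 j)) (fun _ => by rw [hy]; rfl)
      (by simp only [hw, Pi.sub_apply]; ring)
  have tp := fun (T : ℝ) (hT : 0 ≤ T) => flow_gen (κ := 2 * (c.a - (c.d .i0 + γ)))
    (A := fun t => y (Φ t p) .i0 ^ 2) (B := fun i t => blk (y (Φ t p)) i) (g := fun t => β (Φ t p))
    (a := fun t => 2 * (y (Φ t p) .i0 * w t .i0))
    (b := fun i t => dbl (y (Φ t p)) (w t) i) (by positivity) (fun _ => sq_nonneg _)
    (fun t => b0 _) (fun t => hd_congr ((hd' t .i0).fun_pow 2) (fun _ => rfl) (by simp; ring))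
    (fun i t => match i with
      | 0 => hd_congr ((hd' t .i1).fun_pow 2) (fun _ => rfl) (by simp [dbl]; ring)
      | 1 => hd_congr (hd_sq (hd' t .i2) (hd' t .i3)) (fun _ => rfl) (by simp [dbl]; ring)
      | 2 => hd_congr (hd_sq (hd' t .i4) (hd' t .i5)) (fun _ => rfl) (by simp [dbl]; ring))
    (fun t k => by
      have q := sq_abs (y (Φ t p) .i0)
      have a := ((hn _ (hd (Φ t p).2)).2 _ _ (le1 _ (hf t).1 .i0)
        (blk_le (abs_nonneg _) q.ge fun i => (k i).trans q.ge)).2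
      rw [coy] at a
      have := EC.cone_pt (c := { c with d := fun j => c.d j + γ }) (e := e + 2 * γ)
        (v := v + 2 * γ) (by positivity) (by positivity) (EFam.sq_add e0 he γ0.le)
        (EFam.sq_add v0 hv γ0.le) k1 k2 k3 (w := w t - c.lam (y (Φ t p)))
        (by simp only [hw, hu]; exact a) k
      rwa [show EC.lam { c with d := fun j => c.d j + γ } = c.lam from rfl, add_sub_cancel] at this)
    (fun i => by simp only [f0, q1, q2]; positivity) hT
  simp only [f0, q1] at tp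
  have g1 : ∀ S ∈ Icc 0 T, y (Φ S p) .i0 ^ 2 ≤ (127 / 128) ^ 2 → ∀ t ∈ Icc 0 S, β (Φ t p) = 1 :=
    fun S hS k t ht => by
      obtain ⟨a1, -, a3⟩ := (tp S hS.1).1 t ht
      exact b1 _ ⟨ht.1, ht.2.trans hS.2⟩ ⟨a3.trans k, fun i => (a1 i).trans (a3.trans k)⟩
  have c0 : Continuous fun t => y (Φ t p) .i0 := (continuous_apply _).comp (cy.comp cγ)
  have pos : 127 / 128 ≤ y (Φ T p) .i0 := by
    by_contra hh
    rcases le_total 0 (y (Φ T p) .i0) with k | k
    · have a5 := pow_le_pow_left₀ k (not_le.1 hh).le 2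
      linarith [(tp T T0).2 (g1 T ⟨T0, le_rfl⟩ a5)]
    · obtain ⟨t, ht, e⟩ := intermediate_value_Icc' T0 c0.continuousOn
        (show (0 : ℝ) ∈ Icc _ _ from ⟨k, by simp only [f0, q1]; exact r0.le⟩)
      have := ((tp T T0).1 t ht).2.1
      beta_reduce at e
      rw [e] at this
      linarith [pow_pos r0 2]
  obtain ⟨t, ht, e⟩ := intermediate_value_Icc (f := fun t => Y (Φ t p).1 .i0) T0
    ((continuous_apply _).comp (cY.comp (continuous_fst.comp cγ))).continuousOn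
    (show (63 / 64 : ℝ) ∈ Icc _ _ from ⟨by
      simp only [f0]; linarith [(abs_le.1 (bY 0 .i0)).2, ey (p, 0) .i0], by
      simp only [ey]; linarith [(abs_le.1 (bY (Φ T p).2 .i0)).1]⟩)
  beta_reduce at e
  have k : y (Φ t p) .i0 ^ 2 ≤ (127 / 128) ^ 2 := by
    have := abs_le.1 (bY (Φ t p).2 .i0)
    rw [ey] at e
    exact sq_le_sq' (by linarith) (by linarith)
  have hE := chain0 hμ ch (safe_nc (sf _ (hf t).1)) (coY _ ▸ hi _ e fun j => by
    rw [ey]; linarith [abs_add_le (y (Φ t p) j) (Y (b (Φ t p).2) j), le1 _ (hf t).1 j, bY (Φ t p).2 j])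
  have := RS.back hμ (c2.comp cγ) ht.1 (fun s => ⟨safe_nc (sf _ (hf s).1), (hf s).2.1⟩)
    (fun s hs => by simp [g1 t ht k s hs]) hE
  rw [f0] at this
  exact ⟨_, sU, this⟩

end Pool.Agent.Lib.MP_6e7c44_mp.ER
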