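import Pool.Agent.Lib.MP_6e7c44_mp.MR.ENear
import Pool.Agent.Lib.MP_6e7c44_mp.ER.Flow

/-! The cone at the circular Lagrange state with a moving base point. -/

set_option autoImplicit false

open Set Complex Filter Topology

noncomputable section

namespace Pool.Agent.Lib.MP_6e7c44_mp.ER

open LA MR FamA EFam

/-- An essential family of orbits that leave an orbit close to the Lagrange state. -/
theorem famL {μ : Fin 3 → ℝ} (hμ : RS.Ms μ) {c : LC} (hc : c.OK ((μ 0 - μ 1) / 2) (μ 2)) :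
    ∃ δ : ℝ, 0 < δ ∧ ∀ b : ℝ → Z3, (∀ t, HasDerivAt b (GR μ (b t)) t) →
      (∀ t, dist (b t) (lag I) < δ) → ∀ U ∈ 𝓝 (b 0), ∃ X : ℂ → Z3, Continuous X ∧
      (∀ ξ, NC (X ξ)) ∧ ∃ A : Set ℂ, IsClosed A ∧
      Ess norm A (fun ξ => (64 / 63 : ℝ) • (⟨c.y (X ξ) .i0, c.y (X ξ) .i1⟩ : ℂ)) ∧
      ∀ ξ ∈ A, ‖(64 / 63 : ℝ) • (⟨c.y (X ξ) .i0, c.y (X ξ) .i1⟩ : ℂ)‖ ≤ 1 →
        (∀ j, |c.y (X ξ) j| ≤ 1) ∧ (EscR μ (X ξ) → ∃ z ∈ U, EscR μ z) := by
  obtain ⟨u, e, v, u0, e0, v0, hu, he, hv, h1, h2⟩ := hc.cone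
  obtain ⟨γ, ⟨k1, k2⟩, γ0⟩ : ∃ γ : ℝ, (u + 2 * γ + (e + 2 * γ) < c.a ∧
      (v + 2 * γ) ^ 2 < 4 * c.a' * (c.a - (u + 2 * γ))) ∧ 0 < γ := by
    refine (Filter.Eventually.and (mem_nhdsWithin_of_mem_nhds (Filter.Eventually.and ?_ ?_))
      (self_mem_nhdsWithin (a := (0 : ℝ)) (s := Ioi 0))).exists
    · exact ContinuousAt.eventually_lt (by fun_prop) (by fun_prop) (by simpa using h1)
    · exact ContinuousAt.eventually_lt (by fun_prop) (by fun_prop) (by simpa using h2)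
  obtain ⟨δ₀, d0, hn⟩ := near_gen (e := lag I) hc.det
    (funext fun j => by cases j <;> simp [LC.lam]) hc.pt rfl γ0
  refine ⟨δ₀, d0, fun b hb hd U hU => ?_⟩
  have cb0 : Continuous b := continuous_iff_continuousAt.2 fun t => (hb t).continuousAt
  obtain ⟨y, hy⟩ : ∃ y : Z3 × ℝ → I6 → ℝ, y = fun q => c.y q.1 - c.y (b q.2) := ⟨_, rfl⟩
  have cy : Continuous y :=
    hy ▸ ((y_cont c).comp continuous_fst).sub ((y_cont c).comp (cb0.comp continuous_snd))
  have coy : ∀ q, co (b q.2) + c.C.mulVec (y q) = co q.1 := fun q => by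
    simp only [hy]
    rw [Matrix.mulVec_sub]
    linear_combination co_y hc.det q.1 - co_y hc.det (b q.2)
  have ey : ∀ (q : Z3 × ℝ) j, c.y q.1 j = y q j + c.y (b q.2) j := fun q j => by simp [hy]
  have hl : ∀ t j, |c.y (b t) j| ≤ 1 / 1024 := fun t => (hn _ (hd t)).1
  have ca := qa_cont.comp cy
  have cb := qb_cont.comp cy
  have cc := qc_cont.comp cy
  obtain ⟨V, hV⟩ : ∃ V : Set (Z3 × ℝ), V = {q | qa (y q) < (255 / 256) ^ 2 ∧
    qb (y q) < (255 / 256) ^ 2 ∧ qc (y q) < (255 / 256) ^ 2} := ⟨_, rfl⟩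
  have le1 : ∀ q ∈ V, ∀ j, |y q j| ≤ 255 / 256 := fun q hq => by
    rw [hV] at hq
    exact abs_le_s (by norm_num) hq.1.le hq.2.1.le hq.2.2.le
  have sf : ∀ q ∈ V, Safe (co q.1) := fun q hq => by
    rw [← coy]
    exact ((hn _ (hd _)).2 _ _ le_rfl (le1 q hq)).1
  have KU : {q : Z3 × ℝ | qa (y q) ≤ (127 / 128) ^ 2 ∧ qb (y q) ≤ (127 / 128) ^ 2 ∧
      qc (y q) ≤ (127 / 128) ^ 2} ⊆ V := fun q hq => by
    rw [hV]
    exact ⟨hq.1.trans_lt (by norm_num), hq.2.1.trans_lt (by norm_num),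
      hq.2.2.trans_lt (by norm_num)⟩
  obtain ⟨st, cs, s0', sy⟩ : ∃ st : ℂ → Z3, Continuous st ∧ st 0 = b 0 ∧
      ∀ p, y (st p, 0) = un p := by
    refine ⟨fun p => oc (xL + c.C.mulVec (c.y (b 0) + un p)), oc_cont.comp (continuous_const.add
      (continuous_const.matrix_mulVec (continuous_const.add un_cont))), ?_, fun p => ?_⟩
    · have : un 0 = 0 := funext fun i => by cases i <;> rfl
      simp only [this, add_zero, co_y hc.det]
      rfl
    · simp only [hy, y_oc hc.det, add_sub_cancel_left]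
  have q1 : ∀ p, qa (y (st p, 0)) = ‖p‖ ^ 2 := fun p => by
    rw [sy, Complex.sq_norm, normSq_apply, qa, sq, sq]; rfl
  have q2 : ∀ p, qb (y (st p, 0)) = 0 := fun p => by simp [sy, qb, un]
  have q3 : ∀ p, qc (y (st p, 0)) = 0 := fun p => by simp [sy, qc, un]
  obtain ⟨δ, δ0, hδ⟩ := Metric.mem_nhds_iff.1 (cs.continuousAt.preimage_mem_nhds (s0' ▸ hU))
  obtain ⟨r, r0, r1, r2⟩ : ∃ r : ℝ, 0 < r ∧ r < δ ∧ r ≤ 1 / 2 :=
    ⟨min (δ / 2) (1 / 2), by positivity, (min_le_left _ _).trans_lt (by linarith),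
      min_le_right _ _⟩
  obtain ⟨p, cp, p0, pn, p1⟩ : ∃ p : ℂ → ℂ, Continuous p ∧ (∀ ξ, ‖p ξ‖ ≤ r) ∧
      (∀ ξ, ξ ≠ 0 → 0 < ‖p ξ‖) ∧ ∀ ξ, ‖ξ‖ = 1 → p ξ = r * ξ := by
    have m : ∀ ξ : ℂ, 0 < max 1 ‖ξ‖ := fun ξ => by positivity
    refine ⟨fun ξ => r * (ξ / (max 1 ‖ξ‖ : ℝ)), continuous_const.mul (continuous_id.div
      (by fun_prop) fun ξ => ofReal_ne_zero.2 (m ξ).ne'), fun ξ => ?_, fun ξ h => ?_, fun ξ h => ?_⟩
    · rw [norm_mul, norm_div, norm_real, norm_real, Real.norm_of_nonneg r0.le,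
        Real.norm_of_nonneg (m ξ).le]
      exact mul_le_of_le_one_right r0.le ((div_le_one (m ξ)).2 (le_max_right _ _))
    · exact norm_pos_iff.2 (mul_ne_zero (ofReal_ne_zero.2 r0.ne')
        (div_ne_zero h (ofReal_ne_zero.2 (m ξ).ne')))
    · simp only [h, max_self, ofReal_one, div_one]
  have ok : ∀ ξ, (st (p ξ), (0 : ℝ)) ∈ V := fun ξ => by
    rw [hV, mem_ofPred, q1, q2, q3]
    have := pow_le_pow_left₀ (norm_nonneg _) ((p0 ξ).trans r2) 2
    exact ⟨by linarith, by norm_num, by norm_num⟩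
  have pa : 0 < c.a - (u + 2 * γ) := by linarith
  obtain ⟨T, T0, T1⟩ : ∃ T : ℝ, 0 ≤ T ∧ 2 * (c.a - (u + 2 * γ)) * r ^ 2 * T = 1 :=
    ⟨(2 * (c.a - (u + 2 * γ)) * r ^ 2)⁻¹, by positivity, mul_inv_cancel₀ (by positivity)⟩
  obtain ⟨Φ, β, c1, f0, c2, b0, hf0⟩ := pair_flow μ hb (V := V)
    (hV ▸ (isOpen_lt ca continuous_const).inter ((isOpen_lt cb continuous_const).inter
      (isOpen_lt cc continuous_const)))
    ((isClosed_le ca continuous_const).inter ((isClosed_le cb continuous_const).inter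
      (isClosed_le cc continuous_const))) KU sf T
  have b1 := fun ξ => (hf0 _ (ok ξ)).1
  have hf := fun ξ => (hf0 _ (ok ξ)).2
  have cγ : ∀ z, Continuous fun t => Φ t z := fun z => c1.comp (Continuous.prodMk_left z)
  have tp := fun ξ (h : 0 < ‖p ξ‖) T (hT : 0 ≤ T) =>
    cone_flow (c := { c with d := fun j => c.d j + γ }) (u := u + 2 * γ) (e := e + 2 * γ)
    (v := v + 2 * γ) (by positivity) (by positivity) (by positivity) (sq_add u0 hu γ0.le)
    (sq_add e0 he γ0.le) (sq_add v0 hv γ0.le) k1 k2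
    (y := fun t => y (Φ t (st (p ξ)))) (g := fun t => β (Φ t (st (p ξ))))
    (w := fun t => c.C⁻¹.mulVec (fr ((μ 0 - μ 1) / 2) (μ 2) (co (Φ t (st (p ξ))).1)) -
      c.C⁻¹.mulVec (fr ((μ 0 - μ 1) / 2) (μ 2) (co (b (Φ t (st (p ξ))).2))) -
      c.lam (y (Φ t (st (p ξ))))) (fun t => b0 _)
    (fun t j => by
      refine hd_congr ((y_der c (hf ξ t).2.1 j).fun_sub (y_der c (hf ξ t).2.2 j))
        (fun _ => by rw [hy]; rfl) ?_
      have : LC.lam { c with d := fun j => c.d j + γ } = c.lam := rfl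
      rw [this, Pi.sub_apply, Pi.sub_apply]
      ring)
    (fun t k1 k2 => by
      have a' := (hf ξ t).1
      rw [hV] at a'
      generalize Φ t (st (p ξ)) = z at *
      have n1 : 0 ≤ qa (y z) := by unfold qa; positivity
      have q := Real.sq_sqrt n1
      have a := ((hn _ (hd z.2)).2 (y z) _ (Real.sqrt_le_iff.2 ⟨by norm_num, a'.1.le⟩)
        (abs_le_s (Real.sqrt_nonneg _) q.ge (k1.trans q.ge) (k2.trans q.ge))).2
      rw [coy] at a
      exact a)
    (by simp only [f0, q1, q2]; positivity) (by simp only [f0, q1, q3]; positivity) hT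
  simp only [f0, q1] at tp
  have cX : Continuous fun q : ℂ × ℝ => Φ q.2 (st (p q.1)) :=
    c1.comp (continuous_snd.prodMk (cs.comp (cp.comp continuous_fst)))
  have g1 : ∀ ξ, qa (y (Φ T (st (p ξ)))) ≤ (127 / 128) ^ 2 →
      ∀ t ∈ Icc 0 T, β (Φ t (st (p ξ))) = 1 := fun ξ k t ht => by
    have ct : ∀ t, Continuous fun ξ => Φ t (st (p ξ)) := fun t =>
      cX.comp (Continuous.prodMk_left t)
    have cl : IsClosed {ξ | (qb (y (Φ t (st (p ξ)))) ≤ qa (y (Φ t (st (p ξ)))) ∧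
        qc (y (Φ t (st (p ξ)))) ≤ qa (y (Φ t (st (p ξ))))) ∧
        qa (y (Φ t (st (p ξ)))) ≤ qa (y (Φ T (st (p ξ))))} :=
      ((isClosed_le (cb.comp (ct t)) (ca.comp (ct t))).inter
        (isClosed_le (cc.comp (ct t)) (ca.comp (ct t)))).inter
        (isClosed_le (ca.comp (ct t)) (ca.comp (ct T)))
    obtain ⟨⟨a1, a2⟩, a3⟩ := closure_minimal (fun ξ h => And.intro ((tp ξ (pn ξ h) T T0).1 t ht).1
      ((tp ξ (pn ξ h) T T0).1 t ht).2.2) cl (dense_compl_singleton (0 : ℂ) ξ)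
    exact b1 ξ t ht ⟨a3.trans k, a1.trans (a3.trans k), a2.trans (a3.trans k)⟩
  have cH := (mk_cont ((continuous_apply I6.i0).comp (cy.comp cX))
    ((continuous_apply I6.i1).comp (cy.comp cX))).const_smul (128 / 127 : ℝ)
  have cT : Continuous fun ξ => (Φ T (st (p ξ))).1 :=
    continuous_fst.comp (cX.comp (Continuous.prodMk_left T))
  have es : Ess norm univ fun ξ => (128 / 127 : ℝ) •
      (⟨y (Φ T (st (p ξ))) .i0, y (Φ T (st (p ξ))) .i1⟩ : ℂ) := by
    refine ess_base (H := fun q => (128 / 127 : ℝ) •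
      (⟨y (Φ q.2 (st (p q.1))) .i0, y (Φ q.2 (st (p q.1))) .i1⟩ : ℂ)) cH
      (T := fun _ => T) continuous_const (fun _ => T0) (r := 128 / 127 * r) (by positivity)
      (fun ξ h => ?_) fun ξ h => ?_
    · simp only [f0, sy, un, p1 ξ h, Complex.eta, real_smul]
      push_cast
      ring
    have n : ‖p ξ‖ = r := by
      rw [p1 ξ h, norm_mul, h, norm_real, Real.norm_of_nonneg r0.le, mul_one]
    obtain ⟨a1, a2⟩ := tp ξ (n ▸ r0) T T0
    rw [n] at a1 a2
    refine ⟨fun t ht h0 => ?_, ?_⟩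
    · have a3 := nsq' (128 / 127) (y (Φ t (st (p ξ))))
      beta_reduce at h0
      rw [h0, norm_zero] at a3
      have := pow_pos r0 2
      linarith [(a1 t ht).2.1]
    · by_contra hh
      have a3 := nsq' (128 / 127) (y (Φ T (st (p ξ))))
      have a4 := pow_le_one₀ (norm_nonneg _) (not_le.1 hh).le (n := 2)
      beta_reduce at a4
      have a5 : qa (y (Φ T (st (p ξ)))) ≤ (127 / 128) ^ 2 := by linarith
      linarith [a2 (g1 ξ a5)]
  have cH' := cH.comp (Continuous.prodMk_left T)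
  refine ⟨fun ξ => (Φ T (st (p ξ))).1, cT, fun ξ => safe_nc (sf _ (hf ξ T).1), _,
    isClosed_univ.inter (isClosed_le (continuous_norm.comp cH') continuous_const),
    ess_step continuous_norm (by simp) isClosed_univ cH'
      ((mk_cont ((continuous_apply I6.i0).comp ((y_cont c).comp cT))
        ((continuous_apply I6.i1).comp ((y_cont c).comp cT))).const_smul (64 / 63 : ℝ)) es
      fun ξ _ h => ?_, fun ξ h _ => ⟨fun j => ?_, fun hE => ?_⟩⟩
  · have := shift (D := ⟨c.y (b (Φ T (st (p ξ))).2) .i0, c.y (b (Φ T (st (p ξ))).2) .i1⟩)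
      h ((norm_le_abs_re_add_abs_im _).trans
        (by linarith [hl (Φ T (st (p ξ))).2 .i0, hl (Φ T (st (p ξ))).2 .i1]))
    simp only [ey]
    exact this
  · rw [ey]
    linarith [abs_add_le (y (Φ T (st (p ξ))) j) (c.y (b (Φ T (st (p ξ))).2) j),
      hl (Φ T (st (p ξ))).2 j, le1 _ (hf ξ T).1 j]
  · have a3 := nsq' (128 / 127) (y (Φ T (st (p ξ))))
    have a4 : ‖(128 / 127 : ℝ) • (⟨y (Φ T (st (p ξ))) .i0,
        y (Φ T (st (p ξ))) .i1⟩ : ℂ)‖ ^ 2 ≤ 1 := pow_le_one₀ (norm_nonneg _) h.2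
    refine ⟨st (p ξ), hδ (by simpa using (p0 ξ).trans_lt r1 : p ξ ∈ _), ?_⟩
    have := RS.back hμ (c2.comp (cγ _)) T0
      (fun t => ⟨safe_nc (sf _ (hf ξ t).1), (hf ξ t).2.1⟩) (fun t ht => by
        rw [Function.comp_apply, g1 ξ (by linarith) t ht]
        exact one_pos) hE
    rwa [f0] at this

/-- From a certificate to escape near every orbit that stays close to the Lagrange state. -/
theorem st_lag {μ : Fin 3 → ℝ} (hμ : RS.Ms μ) (h : MR.Cert μ) : St μ (lag I) := by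
  obtain ⟨c, n, s, l, hc, ⟨κ, κ', D, D', k0, k1, hR, hD⟩, ch⟩ := h
  obtain ⟨δ, δ0, hδ⟩ := famL hμ hc
  refine ⟨δ, δ0, fun b hb hb' => mem_closure_iff_nhds.2 fun U hU => ?_⟩
  obtain ⟨X, cX, nX, A, hA, he, hX⟩ :=
    hδ b hb hb' _ (phys_cont.continuousAt.preimage_mem_nhds hU)
  have ey : ∀ z, xL + c.C.mulVec (c.y z) = co z := co_y hc.det
  have cy : ∀ j, Continuous fun ξ => c.y (X ξ) j := fun j =>
    (continuous_apply j).comp ((y_cont c).comp cX)
  have cs : Continuous fun ξ => (64 / 63 : ℝ) • (⟨c.y (X ξ) .i0, c.y (X ξ) .i1⟩ : ℂ) :=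
    (mk_cont (cy .i0) (cy .i1)).const_smul (64 / 63 : ℝ)
  have R0 := ch.ok.R0
  have hd := fun ξ a h => hD _ (hX ξ a h).1
  simp only [ey] at hd
  obtain ⟨ξ, hξ, h⟩ := chain_main hμ cX nX
    (hA.inter (isClosed_le (continuous_norm.comp cs) (continuous_const (y := 1)))) ch
    (ess_step (N' := nM) continuous_norm (by simp) hA cs
      (ch.ok.cg.comp (co_cont.comp cX)) he fun ξ a h => by
        have n := sq_norm' ((64 / 63 : ℝ) • (⟨c.y (X ξ) .i0, c.y (X ξ) .i1⟩ : ℂ))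
        rw [h] at n
        simp only [smul_re, smul_im, smul_eq_mul] at n
        have d := hd ξ a h.le
        by_cases h0 : (s.R .i0 + D) / κ ≤ |c.y (X ξ) .i0|
        · have := sign_ge (R0 _) (init_sign k0 (R0 _) h0 d.1)
          exact ⟨this.1.trans (le_max_left _ _), fun t ht h0 =>
            this.2 t ht (by simpa [SS.g] using congrArg re h0)⟩
        · have h1 : (s.R .i1 + D') / κ' ≤ |c.y (X ξ) .i1| := by
            by_contra h1
            have a0 := pow_lt_pow_left₀ (not_le.1 h0) (abs_nonneg _) two_ne_zero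
            have a1 := pow_lt_pow_left₀ (not_le.1 h1) (abs_nonneg _) two_ne_zero
            rw [sq_abs] at a0 a1
            nlinarith
          have := sign_ge (R0 _) (init_sign k1 (R0 _) h1 d.2.1)
          exact ⟨this.1.trans (le_max_right _ _), fun t ht h0 =>
            this.2 t ht (by simpa [SS.g] using congrArg im h0)⟩)
    fun ξ hξ h => (hd ξ hξ.1 hξ.2).2.2 (box_exit (R0 _) h (Or.inl rfl)) (box_exit (R0 _) h (Or.inr rfl))
  obtain ⟨z, h1, h2⟩ := (hX ξ hξ.1 hξ.2).2 h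
  exact ⟨_, h1, h2⟩

end Pool.Agent.Lib.MP_6e7c44_mp.ER
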