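import Pool.Agent.Lib.MP_6e7c44_mp.ER.Root
import Pool.Agent.Lib.MP_6e7c44_mp.ER.Cpt
import Pool.Agent.Lib.MP_6e7c44_mp.ER.StE
import Pool.Agent.Lib.MP_6e7c44_mp.ER.StL

/-! Nearly rigid motions for the masses of the box. -/

set_option autoImplicit false

open Set Complex Filter Topology

noncomputable section

namespace Pool.Agent.Lib.MP_6e7c44_mp.ER

open LA MR

theorem Certs.goodS {μ : Fin 3 → ℝ} (hμ : RS.Ms μ) (h : Certs μ) : GoodS μ :=
  ⟨st_lag hμ h.1, fun Y w w0 hY E => by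
    obtain ⟨c, s, l, e, k1, k2, k3⟩ := h.2 Y w w0 hY E
    exact EC.st hμ k1 k2 k3 e.symm⟩

end Pool.Agent.Lib.MP_6e7c44_mp.ER
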