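import Pool.Agent.Lib.MP_6e7c44_mp.ER.Glue
import Pool.Agent.Lib.MP_6e7c44_mp.ER.Quint
import Pool.Agent.Lib.MP_6e7c44_mp.ER.Dat

/-! The position of the collinear equilibria for the masses of the box. -/

set_option autoImplicit false

open Set Complex Filter Topology

noncomputable section

namespace Pool.Agent.Lib.MP_6e7c44_mp.ER

open LA hiding TM Rep Pt Raw mX mA mB Traj Out Chain escape exists_step
open MR

lemma loc {k ν Y w l u p q : ℝ} (hk : |k| ≤ 1 / 2) (h0 : 0 ≤ ν) (h1 : ν < 1) (hY : 1 / 2 < Y)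
    (w0 : 0 < w) (e : phi k ν Y = 0 ∧ w ^ 2 = om2 ν Y) (l0 : 1 / 2 < l) (u0 : 1 / 2 < u)
    (p0 : 0 ≤ p) (q0 : 0 ≤ q) (hl : phi k ν l ≤ 0) (hu : 0 ≤ phi k ν u) (hp : p ^ 2 ≤ om2 ν l)
    (hq : om2 ν u ≤ q ^ 2) :
    l ≤ Y ∧ Y ≤ u ∧ p ≤ w ∧ w ≤ q ∧ l * p ≤ Y * w ∧ Y * w ≤ u * q := by
  obtain ⟨a1, a2⟩ := phi_loc hk h0 h1 hY e.1 u0 hl hu
  have c1 : p ≤ w := (pow_le_pow_iff_left₀ p0 w0.le two_ne_zero).1
    (by linarith [om2_le h0 l0 a1, e.2])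
  have c2 : w ≤ q := (pow_le_pow_iff_left₀ w0.le q0 two_ne_zero).1
    (by linarith [om2_le h0 hY a2, e.2])
  exact ⟨a1, a2, c1, c2, mul_le_mul a1 c1 p0 (by linarith), mul_le_mul a2 c2 w0.le (by linarith)⟩

/-- The box of masses. -/
def Bm (μ : Fin 3 → ℝ) : Prop :=
  RS.Ms μ ∧ |μ 1 - 37763 / 200000| ≤ 1 / 2 ^ 62 ∧ |μ 2 - 37763 / 200000| ≤ 1 / 2 ^ 62

variable {μ : Fin 3 → ℝ}

lemma Bm.par (h : Bm μ) : Par bx ((μ 0 - μ 1) / 2) (μ 2) 0 0 := by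
  obtain ⟨⟨-, hs⟩, h1, h2⟩ := h
  rw [abs_le] at h1 h2
  refine ⟨by simp, by simp, abs_le.2 ⟨?_, ?_⟩, abs_le.2 ⟨?_, ?_⟩⟩ <;> simp only [bx] <;>
    push_cast <;> linarith [h1.1, h1.2, h2.1, h2.2]

lemma co_rig (Y w : ℝ) (i : I6) : co (rig Y w) i =
    match i with | .i1 => w | .i2 => Y | .i5 => Y * w | _ => 0 := by
  cases i <;> simp [co, rig]

lemma Bm.inA (h : Bm μ) {Y w : ℝ} (w0 : 0 < w) (hY : 1 / 2 < Y)
    (E : fr ((μ 0 - μ 1) / 2) (μ 2) (co (rig Y w)) = 0) : ceA.In (co (rig Y w)) := by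
  obtain ⟨⟨-, hs⟩, h1, h2⟩ := h
  obtain ⟨a1, a2⟩ := abs_le.1 h1
  obtain ⟨a3, a4⟩ := abs_le.1 h2
  obtain ⟨b1, b2, b3, b4, b5, b6⟩ := loc (l := 22236761444645559784 / 2 ^ 64)
    (u := 22236761444645559801 / 2 ^ 64) (p := 13000746658028940874 / 2 ^ 64)
    (q := 13000746658028940904 / 2 ^ 64) (abs_le.2 ⟨by linarith, by linarith⟩) (by linarith)
    (by linarith) hY w0 (eul_pos hY E) (by norm_num) (by norm_num) (by norm_num) (by norm_num)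
    (by unfold phi; linarith) (by unfold phi; linarith) (by unfold om2; linarith)
    (by unfold om2; linarith)
  intro i
  cases i <;> simp only [co_rig, ceA, abs_le] <;> push_cast <;> constructor <;> linarith

lemma Bm.inB (h : Bm μ) {Y w : ℝ} (w0 : 0 < w) (hY : 1 / 2 < -Y)
    (E : fr ((μ 0 - μ 1) / 2) (μ 2) (co (rig Y w)) = 0) : ceB.In (co (rig Y w)) := by
  obtain ⟨⟨-, hs⟩, h1, h2⟩ := h
  obtain ⟨a1, a2⟩ := abs_le.1 h1
  obtain ⟨a3, a4⟩ := abs_le.1 h2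
  obtain ⟨b1, b2, b3, b4, b5, b6⟩ := loc (l := 27670116110564327418 / 2 ^ 64)
    (u := 27670116110564327430 / 2 ^ 64) (p := 15094506963731167868 / 2 ^ 64)
    (q := 15094506963731167880 / 2 ^ 64) (abs_le.2 ⟨by linarith, by linarith⟩) (by linarith)
    (by linarith) hY w0 (eul_neg (by linarith) E) (by norm_num) (by norm_num) (by norm_num)
    (by norm_num) (by unfold phi; linarith) (by unfold phi; linarith) (by unfold om2; linarith)
    (by unfold om2; linarith)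
  intro i
  cases i <;> simp only [co_rig, ceB, abs_le] <;> push_cast <;> constructor <;> linarith

/-- The certificates of all relative equilibria. -/
def Certs (μ : Fin 3 → ℝ) : Prop := MR.Cert μ ∧ ∀ Y w : ℝ, 0 < w → 1 / 2 < |Y| →
  fr ((μ 0 - μ 1) / 2) (μ 2) (co (rig Y w)) = 0 → CertE μ (co (rig Y w))

theorem all_ok (L A B : DT) {L' A' B' : DT}
    (hL : (L.un.okL bx && init bx L.un L'.un) = true) (gL : Gd bx L')
    (hA : (A.un.okE bx ceA && iniE bx ceA A.un A'.un) = true) (gA : Gd bx A')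
    (hB : (B.un.okE bx ceB && iniE bx ceB B.un B'.un) = true) (gB : Gd bx B') (h : Bm μ) :
    Certs μ := ⟨lag_ok L hL gL h.par, fun _ _ w0 hY E => (lt_abs.1 hY).elim
  (fun k => eul_ok A hA gA h.par (h.inA w0 k E) E) fun k => eul_ok B hB gB h.par (h.inB w0 k E) E⟩

theorem Certs.good (hμ : RS.Ms μ) (h : Certs μ) : Good μ := by
  obtain ⟨⟨c, n, s, l, h1, h2, h3⟩, hE⟩ := h
  refine ⟨near_of hμ h1 h2 h3, fun Y w w0 hY E => ?_⟩
  obtain ⟨c, s, l, e, k1, k2, k3⟩ := hE Y w w0 hY E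
  exact EC.near hμ k1 (fun y y0 hy => k2 y y0 fun j => (hy j).trans (by norm_num)) k3 e.symm

end Pool.Agent.Lib.MP_6e7c44_mp.ER
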