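import Pool.Agent.Lib.MP_6e7c44_mp.ER.Sem

/-! The models read off from the data represent the polynomials. -/

set_option autoImplicit false

open Set Filter Topology

noncomputable section

namespace Pool.Agent.Lib.MP_6e7c44_mp.ER

open LA hiding TM Rep Pt Raw mX mA mB Traj Out Chain escape exists_step
open MR

variable {x : Bx} {k ν : ℝ}

theorem Par.reps {π : Pt} (h : Par x k ν π.p π.q) (hx : x.ok = true) :
    Rep π 64 0 1 0 x.cp (1 / 2 + k) ∧ Rep π 64 0 1 0 x.cm (1 / 2 - k) ∧ Rep π 64 0 1 0 x.nu ν ∧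
      |k| ≤ 1 / 2 ∧ 0 ≤ ν ∧ ν ≤ 1 / 2 ∧ ν * 2 ^ 20 ≤ x.d := by
  simp only [Bx.ok, Bool.and_eq_true, Nat.ble_eq, p2_eq, Nat.mul_eq, Nat.add_eq, Nat.shiftLeft_eq',
    Nat.shiftLeft_eq] at hx
  obtain ⟨h1, h2, h3, h4⟩ := hx
  obtain ⟨k1, k2⟩ := abs_le.1 h.hk
  obtain ⟨n1, n2⟩ := abs_le.1 h.hν
  have r1 : (x.e : ℝ) ≤ x.n := Nat.cast_le.2 h1
  have r2 : (x.k : ℝ) + x.e ≤ 2 ^ 63 := by exact_mod_cast h2
  have r3 : (x.n : ℝ) + x.e ≤ x.d * 2 ^ 44 := by exact_mod_cast h3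
  have r4 : 2 * (x.d : ℝ) ≤ 2 ^ 20 := by exact_mod_cast h4
  have a0 : (0 : ℝ) ≤ x.k := Nat.cast_nonneg _
  have c := Rep.cs (π := π) (a := 1 / 2) 64 0 1 0 (p2 63) (by rw [p2_eq]; norm_num)
  have e : ∀ {a b : ℝ}, |a| ≤ (x.e : ℝ) → b * 2 ^ 64 = a → |b| * 2 ^ 64 ≤ (x.e : ℝ) := fun h1 h2 => by
    rwa [← h2, abs_mul, abs_of_pos (a := (2 : ℝ) ^ 64) (by positivity)] at h1
  refine ⟨(c.add (Rep.cst π 64 0 1 0 _)).err (e h.hk (by ring)),
    (c.sub (Rep.cst π 64 0 1 0 _)).err (e ((abs_neg _).trans_le h.hk) (by ring)),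
    (Rep.cst π 64 0 1 0 _).err (e h.hν (by ring)), abs_le.2 ⟨?_, ?_⟩, ?_, ?_, ?_⟩
  all_goals linarith

lemma ex0 (π : Pt) {b dx dp : ℕ} {t : ℕ → Bool} (hb : b ≤ 178) (ht : ∀ k, t k → k ≤ dx)
    (e P N : ℕ) : Rep π e dx dp 0 (TM.ex (msk cM b (sr dp r0) t) P N)
      (pol b dp t P N 0 π.p π.q π.x / 2 ^ e) :=
  (Rep.ex π hb h_r0 ht e P N).congr (by simp [r0, zz, pol])

lemma ex1 (π : Pt) {b dx dp : ℕ} {t : ℕ → Bool} (hb : b ≤ 178) (ht : ∀ k, t k → k ≤ dx)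
    (e P N : ℕ) : Rep π e dx dp 6 (TM.ex (msk cM b (sr dp r1) t) P N)
      ((∑ j : I6, pol b dp t P N j.n π.p π.q π.x * π.y j) / 2 ^ e) :=
  (Rep.ex π hb h_r1 ht e P N).congr (by
    simp only [I6.sum, Finset.sum_range_succ, Finset.sum_range_zero]
    simp [r1, zz, pol, I6.n, mul_comm])

lemma pw_sl (b dp : ℕ) (t : ℕ → Bool) (P : ℕ) (j : I6) (x p q : ℝ) :
    pw b dp t (sl P j) 0 x p q = pw b dp t P j.n x p q := by
  have e : ∀ i, dg 192 b (sl P j) i = dg 192 b P (40 * j.n + i) := fun i =>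
    dg_shift 192 b P i (40 * j.n)
  simp only [pw, e, mul_zero, zero_add]

/-- The derivative in the time. -/
def dpw (b dp P ρ : ℕ) (x p q : ℝ) : ℝ := pw b dp (cb 0) (Nat.shiftRight P 192) ρ x p q
  + 2 * pw b dp (cb 1) (Nat.shiftRight P 192) ρ x p q
  + 4 * pw b dp (cb 2) (Nat.shiftRight P 192) ρ x p q
  + 8 * pw b dp (cb 3) (Nat.shiftRight P 192) ρ x p q

lemma row_der (c : ℕ → ℝ) (x : ℝ) :
    HasDerivAt (fun x : ℝ => ∑ k ∈ Finset.range 40, if cl 15 k then c k * x ^ k else 0)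
      ((∑ k ∈ Finset.range 40, if cb 0 k then c (k + 1) * x ^ k else 0)
        + 2 * (∑ k ∈ Finset.range 40, if cb 1 k then c (k + 1) * x ^ k else 0)
        + 4 * (∑ k ∈ Finset.range 40, if cb 2 k then c (k + 1) * x ^ k else 0)
        + 8 * (∑ k ∈ Finset.range 40, if cb 3 k then c (k + 1) * x ^ k else 0)) x := by
  have h := HasDerivAt.fun_sum (u := Finset.range 16) fun k _ =>
    (hasDerivAt_pow k x).const_mul (c k)
  have e : (fun x : ℝ => ∑ k ∈ Finset.range 40, if cl 15 k then c k * x ^ k else 0)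
      = fun x : ℝ => ∑ k ∈ Finset.range 16, c k * x ^ k := by
    funext y
    simp [Finset.sum_range_succ, cl]
  rw [e]
  refine h.congr_deriv ?_
  simp [Finset.sum_range_succ, cb, Nat.testBit]
  ring

lemma pw_der (b dp P ρ : ℕ) (x p q : ℝ) :
    HasDerivAt (fun x => pw b dp (cl 15) P ρ x p q) (dpw b dp P ρ x p q) x := by
  have e : ∀ i, dg 192 b (Nat.shiftRight P 192) i = dg 192 b P (i + 1) := fun i => by
    rw [add_comm]; exact dg_shift 192 b P i 1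
  simp only [dpw, pw, e]
  exact row_der (fun k => dg 192 b P (40 * ρ + k)) x

def dpol (b dp P N ρ : ℕ) (p q x : ℝ) : ℝ := dpw b dp P ρ x p q - dpw b dp N ρ x p q

lemma pol_der (b dp P N ρ : ℕ) (p q x : ℝ) :
    HasDerivAt (fun x => pol b dp (cl 15) P N ρ p q x) (dpol b dp P N ρ p q x) x :=
  (pw_der ..).sub (pw_der ..)

lemma drX (π : Pt) (P N : ℕ) :
    Rep π 0 15 3 0 (dr mX P N) (dpol 71 3 P N 0 π.p π.q π.x) := by
  have H := fun b => ex0 π (b := 71) (dp := 3) (by decide) (h_cb b) 0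
    (Nat.shiftRight P 192) (Nat.shiftRight N 192)
  have K := fun b => ((H b).up b).scale (f := 0) (b := 2 ^ b *
    pol 71 3 (cb b) (Nat.shiftRight P 192) (Nat.shiftRight N 192) 0 π.p π.q π.x) (by ring)
  rw [dr, dr1, e_mX0, e_mX1, e_mX2, e_mX3]
  refine ((((H 0).add (K 1)).add (K 2)).add (K 3)).congr ?_
  simp only [dpol, dpw, pol]; ring

lemma drA (π : Pt) (P N : ℕ) :
    Rep π 0 15 1 6 (dr mA P N) (∑ j : I6, dpol 63 1 P N j.n π.p π.q π.x * π.y j) := by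
  have H := fun b => ex1 π (b := 63) (dp := 1) (by decide) (h_cb b) 0
    (Nat.shiftRight P 192) (Nat.shiftRight N 192)
  have K := fun b => ((H b).up b).scale (f := 0) (b := 2 ^ b * ∑ j : I6,
    pol 63 1 (cb b) (Nat.shiftRight P 192) (Nat.shiftRight N 192) j.n π.p π.q π.x * π.y j) (by ring)
  rw [dr, dr1, e_mA0, e_mA1, e_mA2, e_mA3]
  refine ((((H 0).add (K 1)).add (K 2)).add (K 3)).congr ?_
  simp only [dpol, dpw, pol, I6.sum]; ring

lemma repL (π : Pt) (i : I6) : Rep π 64 15 3 0 (XL i) (xL i) := by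
  have h3 : Rep π 64 15 3 0 s3 (√3 / 2) := by
    refine (Rep.cst π 64 15 3 0 15975348984942515101).err ?_
    have a1 : (15975348984942515101 * 2 / 2 ^ 64 : ℝ) ≤ √3 := Real.le_sqrt_of_sq_le (by norm_num)
    have a2 : √3 ≤ (15975348984942515102 * 2 / 2 ^ 64 : ℝ) := Real.sqrt_le_iff.2 ⟨by norm_num, by norm_num⟩
    rw [abs_of_nonneg (by push_cast; linarith)]
    push_cast
    linarith
  cases i
  · exact Rep.cs _ _ _ _ _ (by simp [xL, co, lag])
  · exact Rep.cs _ _ _ _ _ (by simp [xL, co, lag, p2_eq]; norm_num)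
  · exact Rep.cs _ _ _ _ _ (by simp [xL, co, lag, cL])
  · exact h3.congr (by simp [xL, co, lag, cL])
  · exact h3.neg.congr (by simp [xL, co, lag, cL])
  · exact Rep.cs _ _ _ _ _ (by simp [xL, co, lag, cL])

namespace Raw
variable (r : Raw)

lemma repE (π : Pt) (i : I6) :
    Rep π 84 15 1 6 (r.E i) ((r.As π.p π.q π.x).mulVec π.y i) := by
  rw [E, e_mA]
  refine ((ex1 π (b := 63) (dp := 1) (by decide) (h_cl 15) 0 (r.ap i) (r.an i)).up r.u).scale ?_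
  simp only [As, Matrix.mulVec, dotProduct, Matrix.of_apply, I6.sum]
  ring

lemma repB (π : Pt) (i l : I6) : Rep π 0 9 1 0 (r.B i l) (r.Bs π.p π.q π.x i l) := by
  rw [B, e_mB]
  exact (ex0 π (b := 31) (dp := 1) (by decide) (h_cl 9) 0 _ _).congr (by simp [Bs])

lemma repX (π : Pt) (P N : ℕ) : Rep π 64 15 3 0 (TM.ex (mX (gs 1 16)) P N)
    (pol 71 3 (cl 15) P N 0 π.p π.q π.x / 2 ^ 64) := by
  rw [e_mX]
  exact ex0 π (b := 71) (dp := 3) (by decide) (h_cl 15) 64 _ _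

theorem sem (x : Bx) (b : Pb) :
    Sem (r.cr x) b (r.xs b.p b.q b.x) (r.As b.p b.q b.x) (r.Bs b.p b.q b.x) :=
  ⟨fun y hy _ => repX (b.pt y hy) _ _, fun y hy i => r.repE (b.pt y hy) i,
    fun y hy _ => ⟨_, repX (b.pt y hy) _ _⟩, fun y hy i l => r.repB (b.pt y hy) i l⟩

theorem semL (x : Bx) (b : Pb) : Sem (r.lc x) b xL (r.As b.p b.q b.x) (r.Bs b.p b.q b.x) :=
  ⟨fun y hy i => repL (b.pt y hy) i, fun y hy i => r.repE (b.pt y hy) i,
    fun y hy _ => ⟨_, Rep.cst (b.pt y hy) 64 15 3 0 _⟩, fun y hy i l => r.repB (b.pt y hy) i l⟩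

theorem rcy (π : Pt) (l j i : I6) :
    Rep π 84 15 1 6 (r.cy l j i) (r.As π.p π.q π.x l j * π.y i) := by
  rw [cy, e_mC]
  refine (((ex0 π (b := 63) (dp := 1) (by decide) (h_cl 15) 0 (sl (r.ap l) j)
    (sl (r.an l) j)).shy i (by decide) (by decide)).up r.u).scale ?_
  simp only [As, Matrix.of_apply, pol, pw_sl]
  ring

theorem der (p q : ℝ) : ∃ (dx : ℝ → I6 → ℝ) (dA : ℝ → Matrix I6 I6 ℝ),
    (∀ x i, HasDerivAt (fun s => r.xs p q s i) (dx x i) x) ∧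
    (∀ x i j, HasDerivAt (fun s => r.As p q s i j) (dA x i j) x) ∧
    ∀ π : Pt, π.p = p → π.q = q → ∀ i,
      Rep π 160 15 3 6 (r.dZ i) ((dA π.x).mulVec π.y i + dx π.x i) := by
  refine ⟨fun x i => dpol 71 3 (r.xp i) (r.xn i) 0 p q x / 2 ^ 64,
    fun x => .of fun k j => dpol 63 1 (r.ap k) (r.an k) j.n p q x * 2 ^ r.u / 2 ^ 84,
    fun x i => (pol_der ..).div_const _, fun x i j => ((pol_der ..).mul_const _).div_const _, ?_⟩
  rintro π rfl rfl i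
  refine (((((drA π (r.ap i) (r.an i)).up r.u).mono le_rfl (by decide) le_rfl).scale (f := 84) ?_).add
    ((((drX π (r.xp i) (r.xn i)).up 20).mono le_rfl le_rfl (by decide)).scale (f := 84) ?_)).up 76
  · simp only [Matrix.mulVec, dotProduct, Matrix.of_apply, I6.sum]
    ring
  · ring

end Raw

end Pool.Agent.Lib.MP_6e7c44_mp.ER
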